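import Pool.Agent.AVC.Defs2

/-!
# Affine structures: the second reading of the formulas

`AfS R M`: a module with distinguished subgroups `P i` (class `MoS`) and sets `Q i`, each of which is
empty or a coset of `P i`.  `Sat φ M x` reads every predicate as `P i` (homogeneous reading), `ASat φ M x`
reads the predicates with Boolean value `true` as `Q i` (affine reading).
-/

set_option autoImplicit false
set_option linter.unusedSectionVars false
set_option linter.unusedVariables false

namespace Pool.Agent.AVC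

open Set

/-- modules with distinguished subgroups `P i` and sets `Q i`, empty or cosets of `P i` -/
class AfS (R : Type) [RSig R] (M : Type) [AddCommGroup M] extends MoS R M where
  Q : ∀ i : RSig.Ix R, Set (Fin (RSig.ar i) → M)
  cos : ∀ (i : RSig.Ix R) (x y : Fin (RSig.ar i) → M), x ∈ Q i → (y ∈ Q i ↔ y - x ∈ toMoS.P i)

/-- bundled affine structures -/
structure Ad (R : Type) [RSig R] : Type 1 where
  car : Type
  [grp : AddCommGroup car]
  [afs : AfS R car]

instance {R : Type} [RSig R] : CoeSort (Ad R) Type := ⟨Ad.car⟩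

attribute [instance] Ad.grp Ad.afs

/-- the homogeneous reduct -/
@[reducible] def Ad.md {R : Type} [RSig R] (M : Ad R) : Md R := ⟨M.car⟩

variable {R : Type} [RSig R] {α β ι κ : Type}

/-- the affine reading of an atomic formula -/
def AHold (a : Atm R α) (M : Type) [AddCommGroup M] [AfS R M] (x : α → M) : Prop :=
  match a with
  | Sum.inl e => Finsupp.linearCombination R x e = 0
  | Sum.inr ⟨i, false, t⟩ =>
      (fun j => Finsupp.linearCombination R x (t j)) ∈ MoS.P (R := R) (M := M) i
  | Sum.inr ⟨i, true, t⟩ =>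
      (fun j => Finsupp.linearCombination R x (t j)) ∈ AfS.Q (R := R) (M := M) i

/-- the affine reading of a formula -/
def ASat (φ : PP R ι) (M : Type) [AddCommGroup M] [AfS R M] (x : ι → M) : Prop :=
  ∃ y : ℕ → M, ∀ e ∈ φ, AHold e M (Sum.elim x y)

/-- the affine reading of a set of formulas -/
def ARe (S : Set (PP R ι)) (M : Type) [AddCommGroup M] [AfS R M] (x : ι → M) : Prop :=
  ∀ φ ∈ S, ASat φ M x

/-- the affine type of a tuple -/
def app (M : Type) [AddCommGroup M] [AfS R M] (x : ι → M) : Set (PP R ι) := {φ | ASat φ M x}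

/-- the affine reading of a level-one formula -/
def ASat1 (V : L1 R ι) (M : Type) [AddCommGroup M] [AfS R M] (x : ι → M) : Prop :=
  ∃ t : Fin V.1 → M, ARe V.2 M (Sum.elim x t)

/-- the affine level-one type of a tuple -/
def atp1 (M : Type) [AddCommGroup M] [AfS R M] (x : ι → M) : Set (L1 R ι) := {V | ASat1 V M x}

/-- the affine level-one types realised in a structure -/
def areal1 (M : Type) [AddCommGroup M] [AfS R M] : Set ((n : ℕ) × Set (L1 R (Fin n))) :=
  {τ | ∃ x : Fin τ.1 → M, atp1 M x = τ.2}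

/-- the homogeneous part of an atomic formula -/
def homA : Atm R α → Atm R α := Sum.map id (fun p => ⟨p.1, false, p.2.2⟩)

/-- the homogeneous part of a formula -/
def hom (φ : PP R ι) : PP R ι := φ.map homA

/-- the homogeneous part of a level-one formula -/
def hom1 (V : L1 R ι) : L1 R ι := ⟨V.1, hom '' V.2⟩

/-- the homomorphism preserves the sets `Q i` -/
def Hm.PrQ {M N : Type} [AddCommGroup M] [AfS R M] [AddCommGroup N] [AfS R N]
    (f : Hm R M N) : Prop :=
  ∀ (i : RSig.Ix R) (x : Fin (RSig.ar i) → M), x ∈ AfS.Q (R := R) (M := M) i →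
    (fun j => f (x j)) ∈ AfS.Q (R := R) (M := N) i

/-- isomorphisms of affine structures -/
structure AIe (R : Type) [RSig R] (M N : Type) [AddCommGroup M] [AfS R M] [AddCommGroup N]
    [AfS R N] extends Ie R M N where
  presQ : ∀ (i : RSig.Ix R) (x : Fin (RSig.ar i) → M), x ∈ AfS.Q (R := R) (M := M) i ↔
    (fun j => toIe (x j)) ∈ AfS.Q (R := R) (M := N) i

/-- the structures with the affine axioms `X` -/
def Ax.AIn (X : Ax R) (M : Type) [AddCommGroup M] [AfS R M] : Prop :=
  ∀ a ∈ X, ∀ x : Fin a.1 → M, ASat a.2.1 M x → ASat a.2.2 M x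

/-! ### Instances -/

section

variable {M N : Type} [AddCommGroup M] [AfS R M]

/-- the product of an affine structure and a homogeneous one -/
instance [AddCommGroup N] [MoS R N] : AfS R (M × N) where
  toMoS := inferInstance
  Q i := {x | (fun j => (x j).1) ∈ AfS.Q (R := R) (M := M) i ∧
    (fun j => (x j).2) ∈ MoS.P (R := R) (M := N) i}
  cos i x y := by
    rintro ⟨h1, h2⟩
    refine and_congr (AfS.cos i _ _ h1) ?_
    constructor
    · intro h
      exact (MoS.P i).sub_mem h h2
    · intro h
      have h3 := (MoS.P i).add_mem h h2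
      refine (iff_of_eq ?_).mp h3
      congr 1
      funext j
      show (y j).2 - (x j).2 + (x j).2 = (y j).2
      exact sub_add_cancel _ _

/-- a submodule with the induced sets -/
instance (S : Submodule R M) : AfS R S where
  toMoS := inferInstance
  Q i := {x | (fun j => (x j : M)) ∈ AfS.Q (R := R) (M := M) i}
  cos i x y h := AfS.cos i _ _ h

/-- products of affine structures -/
instance {A : Type} {K : A → Type} [∀ a, AddCommGroup (K a)] [∀ a, AfS R (K a)] :
    AfS R (∀ a, K a) where
  toMoS := inferInstance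
  Q i := {x | ∀ a, (fun j => x j a) ∈ AfS.Q (R := R) (M := K a) i}
  cos i x y h := forall_congr' fun a => AfS.cos i _ _ (h a)

/-- a homogeneous structure as an affine structure: `Q i = P i` -/
@[reducible] def triv (R : Type) [RSig R] (N : Type) [AddCommGroup N] [MoS R N] : AfS R N where
  toMoS := inferInstance
  Q i := MoS.P (R := R) (M := N) i
  cos i x y h := by
    constructor
    · intro h1
      exact (MoS.P i).sub_mem h1 h
    · intro h1
      have h3 := (MoS.P i).add_mem h1 h
      rwa [sub_add_cancel] at h3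

/-- the reduced power of an affine structure -/
def AMI (M : Ad R) : Ad R :=
  @Ad.mk R _ (MI M.md).car (MI M.md).grp
    { toMoS := (MI M.md).mod
      Q := fun i => {z | ∃ s : Fin (RSig.ar i) → ℕ → M, (∀ j, MI.mk M.md (s j) = z j) ∧
        ∃ n, ∀ m ≥ n, (fun j => s j m) ∈ AfS.Q (R := R) (M := M) i}
      cos := by
        rintro i x y ⟨s, hs, n, hn⟩
        obtain rfl : (fun j => MI.mk M.md (s j)) = x := funext hs
        constructor
        · rintro ⟨t, ht, k, hk⟩
          obtain rfl : (fun j => MI.mk M.md (t j)) = y := funext ht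
          have h1 : ((fun j => MI.mk M.md (t j)) - fun j => MI.mk M.md (s j)) =
              fun j => MI.mk M.md (t j - s j) := by
            funext j
            exact (map_sub (MI.mk M.md) (t j) (s j)).symm
          rw [h1]
          refine (MI.mem_P M.md i _).2 ⟨max n k, fun m hm => ?_⟩
          exact (AfS.cos i _ _ (hn m (le_trans (le_max_left _ _) hm))).1
            (hk m (le_trans (le_max_right _ _) hm))
        · intro h
          choose t ht using fun j => MI.mk_surj M.md (y j)
          obtain rfl : (fun j => MI.mk M.md (t j)) = y := funext ht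
          have h1 : ((fun j => MI.mk M.md (t j)) - fun j => MI.mk M.md (s j)) =
              fun j => MI.mk M.md (t j - s j) := by
            funext j
            exact (map_sub (MI.mk M.md) (t j) (s j)).symm
          rw [h1] at h
          obtain ⟨k, hk⟩ := (MI.mem_P M.md i _).1 h
          refine ⟨t, fun j => rfl, max n k, fun m hm => ?_⟩
          exact (AfS.cos i _ _ (hn m (le_trans (le_max_left _ _) hm))).2
            (hk m (le_trans (le_max_right _ _) hm)) }

theorem AMI_md (M : Ad R) : (AMI M).md = MI M.md := rfl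

end

/-! ### Isomorphisms -/

namespace AIe

variable {M N K : Type} [AddCommGroup M] [AfS R M] [AddCommGroup N] [AfS R N]
  [AddCommGroup K] [AfS R K]

instance : FunLike (AIe R M N) M N where
  coe f := f.toIe
  coe_injective := by
    rintro ⟨f, hf⟩ ⟨g, hg⟩ h
    have h1 : f = g := DFunLike.coe_injective h
    subst h1
    rfl

instance : EquivLike (AIe R M N) M N where
  coe f := f.toIe
  inv f := f.toIe.symm
  left_inv f := f.toIe.symm_apply_apply
  right_inv f := f.toIe.apply_symm_apply
  coe_injective' := by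
    rintro f g h _
    exact DFunLike.coe_injective h

instance : AddEquivClass (AIe R M N) M N where
  map_add f := map_add f.toIe

/-- the homomorphism -/
def hm (e : AIe R M N) : Hm R M N := e.toIe.hm

@[simp] theorem hm_apply (e : AIe R M N) (x : M) : e.hm x = e x := rfl

@[simp] theorem coe_hm (e : AIe R M N) : ⇑e.hm = e := rfl

@[simp] theorem coe_toIe (e : AIe R M N) : ⇑e.toIe = e := rfl

theorem map_sm (f : AIe R M N) (r : R) (x : M) : f (r • x) = r • f x := f.toIe.map_sm r x

/-- the inverse -/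
def symm (e : AIe R M N) : AIe R N M := ⟨e.toIe.symm, fun i x => by
  rw [e.presQ]
  have h1 : (fun j => e.toIe (e.toIe.symm (x j))) = x := by
    funext j
    exact e.toIe.apply_symm_apply (x j)
  rw [h1]⟩

@[simp] theorem apply_symm_apply (e : AIe R M N) (x : N) : e (e.symm x) = x :=
  e.toIe.apply_symm_apply x

@[simp] theorem symm_apply_apply (e : AIe R M N) (x : M) : e.symm (e x) = x :=
  e.toIe.symm_apply_apply x

@[simp] theorem symm_symm (e : AIe R M N) : e.symm.symm = e := rfl

theorem injective (e : AIe R M N) : Function.Injective e := e.toIe.injective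

theorem surjective (e : AIe R M N) : Function.Surjective e := e.toIe.surjective

/-- the identity -/
def refl (R : Type) [RSig R] (M : Type) [AddCommGroup M] [AfS R M] : AIe R M M :=
  ⟨Ie.refl R M, fun i x => Iff.rfl⟩

@[simp] theorem refl_apply (x : M) : AIe.refl R M x = x := rfl

/-- composition -/
def trans (e : AIe R M N) (e' : AIe R N K) : AIe R M K :=
  ⟨e.toIe.trans e'.toIe, fun i x => (e.presQ i x).trans (e'.presQ i _)⟩

@[simp] theorem trans_apply (e : AIe R M N) (e' : AIe R N K) (x : M) :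
    e.trans e' x = e' (e x) := rfl

theorem prQ (e : AIe R M N) : e.hm.PrQ := fun i x h => (e.presQ i x).1 h

end AIe

section

variable {M N K : Type} [AddCommGroup M] [AfS R M] [AddCommGroup N] [AfS R N]
  [AddCommGroup K] [AfS R K]

theorem Hm.PrQ.comp {g : Hm R N K} {f : Hm R M N} (hg : g.PrQ) (hf : f.PrQ) :
    (g.comp f).PrQ := fun i x h => hg i _ (hf i x h)

theorem Hm.prQ_id : (Hm.id : Hm R M M).PrQ := fun i x h => h

/-- adding a homogeneous map -/
theorem Hm.PrQ.add {f g : Hm R M N} (hf : f.PrQ)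
    (hg : ∀ (i : RSig.Ix R) (x : Fin (RSig.ar i) → M), x ∈ AfS.Q (R := R) (M := M) i →
      (fun j => g (x j)) ∈ MoS.P (R := R) (M := N) i) : (f + g).PrQ := by
  intro i x h
  refine (AfS.cos i _ _ (hf i x h)).2 ?_
  have h1 : (fun j => (f + g) (x j)) - (fun j => f (x j)) = fun j => g (x j) := by
    funext j
    exact add_sub_cancel_left (f (x j)) (g (x j))
  rw [h1]
  exact hg i x h

end

/-! ### Atomic formulas -/

section

variable {M N : Type} [AddCommGroup M] [AfS R M] [AddCommGroup N] [AfS R N]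

theorem hold_homA (a : Atm R α) (K : Type) [AddCommGroup K] [MoS R K] (x : α → K) :
    Hold (homA a) K x ↔ Hold a K x := by
  rcases a with e | ⟨i, b, t⟩
  · exact Iff.rfl
  · exact Iff.rfl

theorem ahold_homA (a : Atm R α) (x : α → M) : AHold (homA a) M x ↔ Hold a M x := by
  rcases a with e | ⟨i, b, t⟩
  · exact Iff.rfl
  · exact Iff.rfl

/-- the difference of two solutions -/
theorem AHold.sub {a : Atm R α} {x y : α → M} (h : AHold a M x) (h' : AHold a M y) :
    Hold a M (x - y) := by
  have key : ∀ e : α →₀ R, Finsupp.linearCombination R (x - y) e =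
      Finsupp.linearCombination R x e - Finsupp.linearCombination R y e := by
    intro e
    rw [sub_eq_add_neg, lc_add, lc_neg, ← sub_eq_add_neg]
  rcases a with e | ⟨i, b, t⟩
  · show Finsupp.linearCombination R (x - y) e = 0
    have h1 : Finsupp.linearCombination R x e = 0 := h
    have h2 : Finsupp.linearCombination R y e = 0 := h'
    rw [key, h1, h2, sub_zero]
  · show (fun j => Finsupp.linearCombination R (x - y) (t j)) ∈ MoS.P i
    have h1 : (fun j => Finsupp.linearCombination R (x - y) (t j)) =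
        (fun j => Finsupp.linearCombination R x (t j)) -
          fun j => Finsupp.linearCombination R y (t j) := by
      funext j
      exact key (t j)
    rw [h1]
    cases b
    · exact (MoS.P i).sub_mem h h'
    · exact (AfS.cos i _ _ h').1 h

/-- a solution plus a homogeneous solution -/
theorem AHold.add {a : Atm R α} {x y : α → M} (h : AHold a M x) (h' : Hold a M y) :
    AHold a M (x + y) := by
  rcases a with e | ⟨i, b, t⟩
  · exact (Hold.add (a := Sum.inl e) h h')
  · cases b
    · exact (Hold.add (a := Sum.inr ⟨i, false, t⟩) h h')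
    · show (fun j => Finsupp.linearCombination R (x + y) (t j)) ∈ AfS.Q i
      have h1 : (fun j => Finsupp.linearCombination R x (t j)) ∈ AfS.Q (R := R) (M := M) i := h
      refine (AfS.cos i _ _ h1).2 ?_
      have h2 : (fun j => Finsupp.linearCombination R (x + y) (t j)) -
          (fun j => Finsupp.linearCombination R x (t j)) =
          fun j => Finsupp.linearCombination R y (t j) := by
        funext j
        show Finsupp.linearCombination R (x + y) (t j) - Finsupp.linearCombination R x (t j) = _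
        rw [lc_add, add_sub_cancel_left]
      rw [h2]
      exact h'

theorem ahold_amap (f : α → β) (a : Atm R α) (x : β → M) :
    AHold (amap f a) M x ↔ AHold a M (x ∘ f) := by
  rcases a with e | ⟨i, b, t⟩
  · exact hold_amap f (Sum.inl e) x
  · cases b
    · exact hold_amap f (Sum.inr ⟨i, false, t⟩) x
    · show (fun j => Finsupp.linearCombination R x ((t j).mapDomain f)) ∈ AfS.Q i ↔
        (fun j => Finsupp.linearCombination R (x ∘ f) (t j)) ∈ AfS.Q i
      have h1 : (fun j => Finsupp.linearCombination R x ((t j).mapDomain f)) =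
          fun j => Finsupp.linearCombination R (x ∘ f) (t j) := by
        funext j
        rw [Finsupp.linearCombination_mapDomain]
      rw [h1]

theorem ahold_asub (w : α → (β →₀ R)) (a : Atm R α) (x : β → M) :
    AHold (asub w a) M x ↔ AHold a M (fun i => Finsupp.linearCombination R x (w i)) := by
  rcases a with e | ⟨i, b, t⟩
  · exact hold_asub w (Sum.inl e) x
  · cases b
    · exact hold_asub w (Sum.inr ⟨i, false, t⟩) x
    · show (fun j => Finsupp.linearCombination R x (Finsupp.linearCombination R w (t j))) ∈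
          AfS.Q i ↔ (fun j => Finsupp.linearCombination R
            (fun i => Finsupp.linearCombination R x (w i)) (t j)) ∈ AfS.Q i
      have h1 : (fun j => Finsupp.linearCombination R x (Finsupp.linearCombination R w (t j))) =
          fun j => Finsupp.linearCombination R
            (fun i => Finsupp.linearCombination R x (w i)) (t j) := by
        funext j
        rw [lc_lc]
      rw [h1]

theorem AHold.map {a : Atm R α} {x : α → M} (h : AHold a M x) {u : Hm R M N} (hu : u.PrQ) :
    AHold a N (u ∘ x) := by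
  rcases a with e | ⟨i, b, t⟩
  · exact Hold.map (a := Sum.inl e) h u
  · cases b
    · exact Hold.map (a := Sum.inr ⟨i, false, t⟩) h u
    · show (fun j => Finsupp.linearCombination R (u ∘ x) (t j)) ∈ AfS.Q i
      have h1 : (fun j => Finsupp.linearCombination R (u ∘ x) (t j)) =
          fun j => u (Finsupp.linearCombination R x (t j)) := by
        funext j
        rw [lc_hm]
      rw [h1]
      exact hu i _ h

/-- an atomic formula depends only on the variables which occur in it -/
theorem ahold_congr {a : Atm R α} {x x' : α → M} (h : ∀ s ∈ asup a, x s = x' s) :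
    AHold a M x ↔ AHold a M x' := by
  classical
  rcases a with e | ⟨i, b, t⟩
  · exact hold_congr (a := Sum.inl e) h
  · cases b
    · exact hold_congr (a := Sum.inr ⟨i, false, t⟩) h
    · show (fun j => Finsupp.linearCombination R x (t j)) ∈ AfS.Q i ↔
        (fun j => Finsupp.linearCombination R x' (t j)) ∈ AfS.Q i
      have h1 : (fun j => Finsupp.linearCombination R x (t j)) =
          fun j => Finsupp.linearCombination R x' (t j) := by
        funext j
        refine lc_congr fun s hs => h s ?_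
        exact Finset.mem_biUnion.mpr ⟨j, Finset.mem_univ j, hs⟩
      rw [h1]

end

section

variable {M N : Type} [AddCommGroup M] [AfS R M]

theorem ahold_prod [AddCommGroup N] [MoS R N] {a : Atm R α} {x : α → M × N} :
    AHold a (M × N) x ↔ AHold a M (fun i => (x i).1) ∧ Hold a N (fun i => (x i).2) := by
  rcases a with e | ⟨i, b, t⟩
  · exact hold_prod (a := Sum.inl e)
  · cases b
    · exact hold_prod (a := Sum.inr ⟨i, false, t⟩)
    · show ((fun j => (Finsupp.linearCombination R x (t j)).1) ∈ AfS.Q (R := R) (M := M) i ∧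
        (fun j => (Finsupp.linearCombination R x (t j)).2) ∈ MoS.P (R := R) (M := N) i) ↔
        (fun j => Finsupp.linearCombination R (fun i => (x i).1) (t j)) ∈ AfS.Q i ∧
          (fun j => Finsupp.linearCombination R (fun i => (x i).2) (t j)) ∈ MoS.P i
      have h1 : (fun j => (Finsupp.linearCombination R x (t j)).1) =
          fun j => Finsupp.linearCombination R (fun i => (x i).1) (t j) := by
        funext j
        exact lc_fst x (t j)
      have h2 : (fun j => (Finsupp.linearCombination R x (t j)).2) =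
          fun j => Finsupp.linearCombination R (fun i => (x i).2) (t j) := by
        funext j
        exact lc_snd x (t j)
      rw [h1, h2]

theorem ahold_pi {A : Type} {K : A → Type} [∀ a, AddCommGroup (K a)] [∀ a, AfS R (K a)]
    {e : Atm R α} {x : α → ∀ a, K a} :
    AHold e (∀ a, K a) x ↔ ∀ a, AHold e (K a) (fun i => x i a) := by
  rcases e with e | ⟨i, b, t⟩
  · exact hold_pi (e := Sum.inl e)
  · cases b
    · exact hold_pi (e := Sum.inr ⟨i, false, t⟩)
    · show (∀ a, (fun j => (Finsupp.linearCombination R x (t j)) a) ∈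
        AfS.Q (R := R) (M := K a) i) ↔
        ∀ a, (fun j => Finsupp.linearCombination R (fun i => x i a) (t j)) ∈ AfS.Q i
      refine forall_congr' fun a => ?_
      have h1 : (fun j => (Finsupp.linearCombination R x (t j)) a) =
          fun j => Finsupp.linearCombination R (fun i => x i a) (t j) := by
        funext j
        exact lc_proj x (t j) a
      rw [h1]

/-- the affine reading for `Q = P` is the homogeneous one -/
theorem ahold_triv [AddCommGroup N] [MoS R N] (a : Atm R α) (x : α → N) :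
    @AHold R _ α a N _ (triv R N) x ↔ Hold a N x := by
  rcases a with e | ⟨i, b, t⟩
  · exact Iff.rfl
  · cases b <;> exact Iff.rfl

end

/-! ### Formulas -/

section

variable {M N K : Type} [AddCommGroup M] [AfS R M] [AddCommGroup N] [AfS R N]

theorem sat_hom (φ : PP R ι) (K : Type) [AddCommGroup K] [MoS R K] (x : ι → K) :
    Sat (hom φ) K x ↔ Sat φ K x := by
  unfold Sat hom
  refine exists_congr fun y => ?_
  rw [List.forall_mem_map]
  exact forall_congr' fun e => imp_congr Iff.rfl (hold_homA e K _)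

theorem asat_hom (φ : PP R ι) (x : ι → M) : ASat (hom φ) M x ↔ Sat φ M x := by
  unfold Sat ASat hom
  refine exists_congr fun y => ?_
  rw [List.forall_mem_map]
  exact forall_congr' fun e => imp_congr Iff.rfl (ahold_homA e _)

theorem ASat.sub {φ : PP R ι} {x y : ι → M} (h : ASat φ M x) (h' : ASat φ M y) :
    Sat φ M (x - y) := by
  obtain ⟨u, hu⟩ := h
  obtain ⟨v, hv⟩ := h'
  refine ⟨u - v, fun e he => ?_⟩
  have h1 : Sum.elim (x - y) (u - v) = Sum.elim x u - Sum.elim y v := by
    funext i
    cases i <;> rfl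
  rw [h1]
  exact (hu e he).sub (hv e he)

theorem ASat.add {φ : PP R ι} {x y : ι → M} (h : ASat φ M x) (h' : Sat φ M y) :
    ASat φ M (x + y) := by
  obtain ⟨u, hu⟩ := h
  obtain ⟨v, hv⟩ := h'
  refine ⟨u + v, fun e he => ?_⟩
  have h1 : Sum.elim (x + y) (u + v) = Sum.elim x u + Sum.elim y v := by
    funext i
    cases i <;> rfl
  rw [h1]
  exact (hu e he).add (hv e he)

theorem ASat.iff {φ : PP R ι} {x y : ι → M} (h : ASat φ M x) :
    ASat φ M y ↔ Sat φ M (y - x) := by
  refine ⟨fun h' => h'.sub h, fun h' => ?_⟩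
  have h1 := h.add h'
  rwa [add_sub_cancel] at h1

theorem ASat.subh {φ : PP R ι} {x y : ι → M} (h : ASat φ M x) (h' : Sat φ M y) :
    ASat φ M (x - y) := by
  rw [sub_eq_add_neg]
  exact h.add h'.neg

theorem ASat.map {φ : PP R ι} {x : ι → M} (h : ASat φ M x) {u : Hm R M N} (hu : u.PrQ) :
    ASat φ N (u ∘ x) := by
  obtain ⟨y, hy⟩ := h
  refine ⟨u ∘ y, fun e he => ?_⟩
  have h1 := (hy e he).map hu
  rw [Sum.comp_elim] at h1
  exact h1

theorem asat_iso (e : AIe R M N) {φ : PP R ι} {x : ι → M} :
    ASat φ N (e ∘ x) ↔ ASat φ M x := by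
  refine ⟨fun h => ?_, fun h => h.map e.prQ⟩
  have h1 := h.map e.symm.prQ
  have h2 : (e.symm.hm : N → M) ∘ (e ∘ x) = x := by
    funext i
    exact e.symm_apply_apply (x i)
  rw [h2] at h1
  exact h1

theorem ARe.sub {S : Set (PP R ι)} {x y : ι → M} (h : ARe S M x) (h' : ARe S M y) :
    Re S M (x - y) := fun φ hφ => (h φ hφ).sub (h' φ hφ)

theorem ARe.add {S : Set (PP R ι)} {x y : ι → M} (h : ARe S M x) (h' : Re S M y) :
    ARe S M (x + y) := fun φ hφ => (h φ hφ).add (h' φ hφ)

theorem ARe.iff {S : Set (PP R ι)} {x y : ι → M} (h : ARe S M x) :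
    ARe S M y ↔ Re S M (y - x) :=
  ⟨fun h' => h'.sub h, fun h' => by
    have h1 := h.add h'
    rwa [add_sub_cancel] at h1⟩

theorem ARe.mono {S T : Set (PP R ι)} (hST : S ⊆ T) {x : ι → M} (h : ARe T M x) : ARe S M x :=
  fun φ hφ => h φ (hST hφ)

theorem ARe.map {S : Set (PP R ι)} {x : ι → M} (h : ARe S M x) {u : Hm R M N} (hu : u.PrQ) :
    ARe S N (u ∘ x) := fun φ hφ => (h φ hφ).map hu

theorem are_union {S T : Set (PP R ι)} {x : ι → M} :
    ARe (S ∪ T) M x ↔ ARe S M x ∧ ARe T M x := by
  constructor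
  · intro h
    exact ⟨fun φ hφ => h φ (Or.inl hφ), fun φ hφ => h φ (Or.inr hφ)⟩
  · rintro ⟨h1, h2⟩ φ (hφ | hφ)
    · exact h1 φ hφ
    · exact h2 φ hφ

theorem are_hom (S : Set (PP R ι)) (x : ι → M) : ARe (hom '' S) M x ↔ Re S M x := by
  constructor
  · intro h φ hφ
    exact (asat_hom φ x).1 (h _ (mem_image_of_mem _ hφ))
  · rintro h _ ⟨φ, hφ, rfl⟩
    exact (asat_hom φ x).2 (h φ hφ)

theorem re_hom (S : Set (PP R ι)) (K : Type) [AddCommGroup K] [MoS R K] (x : ι → K) :
    Re (hom '' S) K x ↔ Re S K x := by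
  constructor
  · intro h φ hφ
    exact (sat_hom φ K x).1 (h _ (mem_image_of_mem _ hφ))
  · rintro h _ ⟨φ, hφ, rfl⟩
    exact (sat_hom φ K x).2 (h φ hφ)

theorem mem_app {φ : PP R ι} {x : ι → M} : φ ∈ app M x ↔ ASat φ M x := Iff.rfl

theorem app_re (x : ι → M) : ARe (app (R := R) M x) M x := fun _ h => h

theorem app_iso (e : AIe R M N) (x : ι → M) : app (R := R) N (e ∘ x) = app M x := by
  ext φ
  exact asat_iso e

theorem asat_ren (f : κ → ι) (φ : PP R κ) (x : ι → M) :
    ASat (ren f φ) M x ↔ ASat φ M (x ∘ f) := by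
  unfold ASat ren
  refine exists_congr fun y => ?_
  rw [List.forall_mem_map]
  refine forall_congr' fun e => imp_congr Iff.rfl ?_
  rw [ahold_amap]
  have h2 : (Sum.elim x y : ι ⊕ ℕ → M) ∘ Sum.map f id = Sum.elim (x ∘ f) y := by
    funext i
    cases i <;> rfl
  rw [h2]

theorem are_ren (f : κ → ι) (S : Set (PP R κ)) (x : ι → M) :
    ARe (ren f '' S) M x ↔ ARe S M (x ∘ f) := by
  constructor
  · intro h φ hφ
    exact (asat_ren f φ x).mp (h _ (mem_image_of_mem _ hφ))
  · rintro h _ ⟨φ, hφ, rfl⟩
    exact (asat_ren f φ x).mpr (h φ hφ)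

theorem asat_zer (φ : PP R (ι ⊕ κ)) (t : κ → M) :
    ASat (zer φ) M t ↔ ASat φ M (Sum.elim 0 t) := by
  unfold ASat zer
  refine exists_congr fun y => ?_
  rw [List.forall_mem_map]
  refine forall_congr' fun e => imp_congr Iff.rfl ?_
  rw [ahold_asub]
  have h2 : (fun i => Finsupp.linearCombination R (Sum.elim t y) ((Sum.elim
      (Sum.elim (fun _ => 0) (fun k => Finsupp.single (Sum.inl k) 1))
      (fun n => Finsupp.single (Sum.inr n) 1) : (ι ⊕ κ) ⊕ ℕ → ((κ ⊕ ℕ) →₀ R)) i)) =
      (Sum.elim (Sum.elim 0 t) y : (ι ⊕ κ) ⊕ ℕ → M) := by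
    funext i
    rcases i with (i | i) | i <;> simp
  rw [h2]

theorem asat1_ren1 (f : κ → ι) (V : L1 R κ) (x : ι → M) :
    ASat1 (ren1 f V) M x ↔ ASat1 V M (x ∘ f) := by
  have key : ∀ t : Fin V.1 → M, ARe (ren (Sum.map f id) '' V.2) M (Sum.elim x t) ↔
      ARe V.2 M (Sum.elim (x ∘ f) t) := by
    intro t
    rw [are_ren]
    have : Sum.elim x t ∘ Sum.map f id = Sum.elim (x ∘ f) t := by
      funext i
      cases i <;> rfl
    rw [this]
  exact exists_congr key

theorem asat1_ofRe (S : Set (PP R ι)) (x : ι → M) : ASat1 (ofRe S) M x ↔ ARe S M x := by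
  have key : ∀ t : Fin 0 → M, ARe (ren (Sum.inl : ι → ι ⊕ Fin 0) '' S) M (Sum.elim x t) ↔
      ARe S M x := by
    intro t
    rw [are_ren]
    rfl
  constructor
  · rintro ⟨t, ht⟩
    exact (key t).mp ht
  · intro h
    exact ⟨Fin.elim0, (key Fin.elim0).mpr h⟩

theorem sat1_hom1 (V : L1 R ι) (K : Type) [AddCommGroup K] [MoS R K] (x : ι → K) :
    Sat1 (hom1 V) K x ↔ Sat1 V K x :=
  exists_congr fun t => re_hom V.2 K _

theorem asat1_hom1 (V : L1 R ι) (x : ι → M) : ASat1 (hom1 V) M x ↔ Sat1 V M x :=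
  exists_congr fun t => are_hom V.2 _

theorem ASat1.sub {V : L1 R ι} {x y : ι → M} (h : ASat1 V M x) (h' : ASat1 V M y) :
    Sat1 V M (x - y) := by
  obtain ⟨s, hs⟩ := h
  obtain ⟨t, ht⟩ := h'
  refine ⟨s - t, ?_⟩
  have h1 : Sum.elim (x - y) (s - t) = Sum.elim x s - Sum.elim y t := elim_sub x y s t
  rw [h1]
  exact hs.sub ht

theorem ASat1.add {V : L1 R ι} {x y : ι → M} (h : ASat1 V M x) (h' : Sat1 V M y) :
    ASat1 V M (x + y) := by
  obtain ⟨s, hs⟩ := h
  obtain ⟨t, ht⟩ := h'
  refine ⟨s + t, ?_⟩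
  have h1 : Sum.elim (x + y) (s + t) = Sum.elim x s + Sum.elim y t := elim_add x y s t
  rw [h1]
  exact hs.add ht

theorem ASat1.iff {V : L1 R ι} {x y : ι → M} (h : ASat1 V M x) :
    ASat1 V M y ↔ Sat1 V M (y - x) :=
  ⟨fun h' => h'.sub h, fun h' => by
    have h1 := h.add h'
    rwa [add_sub_cancel] at h1⟩

theorem ASat1.map {V : L1 R ι} {x : ι → M} (h : ASat1 V M x) {u : Hm R M N} (hu : u.PrQ) :
    ASat1 V N (u ∘ x) := by
  obtain ⟨t, ht⟩ := h
  refine ⟨u ∘ t, ?_⟩
  have := ht.map hu
  rw [Sum.comp_elim] at this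
  exact this

theorem asat1_iso (e : AIe R M N) {V : L1 R ι} {x : ι → M} :
    ASat1 V N (e ∘ x) ↔ ASat1 V M x := by
  refine ⟨fun h => ?_, fun h => h.map e.prQ⟩
  have h1 := h.map e.symm.prQ
  have h2 : (e.symm.hm : N → M) ∘ (e ∘ x) = x := by
    funext i
    exact e.symm_apply_apply (x i)
  rw [h2] at h1
  exact h1

theorem atp1_iso (e : AIe R M N) (x : ι → M) : atp1 (R := R) N (e ∘ x) = atp1 M x := by
  ext V
  exact asat1_iso e

theorem areal1_iso (e : AIe R M N) : areal1 (R := R) M = areal1 N := by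
  ext τ
  constructor
  · rintro ⟨x, hx⟩
    exact ⟨e ∘ x, (atp1_iso e x).trans hx⟩
  · rintro ⟨x, hx⟩
    refine ⟨e.symm ∘ x, (atp1_iso e.symm x).trans hx⟩

end

section

variable {M N : Type} [AddCommGroup M] [AfS R M]

theorem asat_prod [AddCommGroup N] [MoS R N] {φ : PP R ι} {x : ι → M × N} :
    ASat φ (M × N) x ↔ ASat φ M (fun i => (x i).1) ∧ Sat φ N (fun i => (x i).2) := by
  constructor
  · rintro ⟨y, hy⟩
    constructor
    · refine ⟨fun n => (y n).1, fun e he => ?_⟩
      have h1 := (ahold_prod.1 (hy e he)).1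
      refine (iff_of_eq ?_).mp h1
      congr 1
      funext i
      cases i <;> rfl
    · refine ⟨fun n => (y n).2, fun e he => ?_⟩
      have h1 := (ahold_prod.1 (hy e he)).2
      refine (iff_of_eq ?_).mp h1
      congr 1
      funext i
      cases i <;> rfl
  · rintro ⟨⟨y, hy⟩, ⟨z, hz⟩⟩
    refine ⟨fun n => (y n, z n), fun e he => ?_⟩
    rw [ahold_prod]
    have h1 : (fun i => ((Sum.elim x fun n => (y n, z n)) i).1) =
        Sum.elim (fun i => (x i).1) y := by
      funext i
      cases i <;> rfl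
    have h2 : (fun i => ((Sum.elim x fun n => (y n, z n)) i).2) =
        Sum.elim (fun i => (x i).2) z := by
      funext i
      cases i <;> rfl
    rw [h1, h2]
    exact ⟨hy e he, hz e he⟩

theorem are_prod [AddCommGroup N] [MoS R N] {S : Set (PP R ι)} {x : ι → M × N} :
    ARe S (M × N) x ↔ ARe S M (fun i => (x i).1) ∧ Re S N (fun i => (x i).2) := by
  constructor
  · intro h
    exact ⟨fun φ hφ => (asat_prod.mp (h φ hφ)).1, fun φ hφ => (asat_prod.mp (h φ hφ)).2⟩
  · rintro ⟨h1, h2⟩ φ hφ
    exact asat_prod.mpr ⟨h1 φ hφ, h2 φ hφ⟩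

theorem asat1_prod [AddCommGroup N] [MoS R N] {V : L1 R ι} {x : ι → M × N} :
    ASat1 V (M × N) x ↔ ASat1 V M (fun i => (x i).1) ∧ Sat1 V N (fun i => (x i).2) := by
  constructor
  · rintro ⟨t, ht⟩
    have h1 := are_prod.1 ht
    constructor
    · refine ⟨fun i => (t i).1, ?_⟩
      refine (iff_of_eq ?_).mp h1.1
      congr 1
      funext i
      cases i <;> rfl
    · refine ⟨fun i => (t i).2, ?_⟩
      refine (iff_of_eq ?_).mp h1.2
      congr 1
      funext i
      cases i <;> rfl
  · rintro ⟨⟨s, hs⟩, ⟨t, ht⟩⟩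
    refine ⟨fun i => (s i, t i), are_prod.mpr ⟨?_, ?_⟩⟩
    · refine (iff_of_eq ?_).mp hs
      congr 1
      funext i
      cases i <;> rfl
    · refine (iff_of_eq ?_).mp ht
      congr 1
      funext i
      cases i <;> rfl

theorem asat_pi {A : Type} {K : A → Type} [∀ a, AddCommGroup (K a)] [∀ a, AfS R (K a)]
    {φ : PP R ι} {x : ι → ∀ a, K a} :
    ASat φ (∀ a, K a) x ↔ ∀ a, ASat φ (K a) (fun i => x i a) := by
  constructor
  · rintro ⟨y, hy⟩ a
    refine ⟨fun n => y n a, fun e he => ?_⟩
    have h1 := (ahold_pi.1 (hy e he)) a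
    refine (iff_of_eq ?_).mp h1
    congr 1
    funext i
    cases i <;> rfl
  · intro h
    choose y hy using h
    refine ⟨fun n a => y a n, fun e he => ?_⟩
    rw [ahold_pi]
    intro a
    have h1 : (fun i => (Sum.elim x fun n a => y a n) i a) =
        Sum.elim (fun i => x i a) (y a) := by
      funext i
      cases i <;> rfl
    rw [h1]
    exact hy a e he

theorem asat_triv [AddCommGroup N] [MoS R N] (φ : PP R ι) (x : ι → N) :
    @ASat R _ ι φ N _ (triv R N) x ↔ Sat φ N x :=
  exists_congr fun y => forall_congr' fun e => imp_congr Iff.rfl (ahold_triv e _)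

end

/-! ### Pairs of families: affine reading and homogeneous reading -/

/-- a family of affine relations -/
abbrev AFam (R : Type) [RSig R] (ι : Type) : Type 1 :=
  ∀ (M : Type) [AddCommGroup M] [AfS R M], (ι → M) → Prop

/-- a family of homogeneous relations -/
abbrev HFam (R : Type) [RSig R] (ι : Type) : Type 1 :=
  ∀ (M : Type) [AddCommGroup M] [MoS R M], (ι → M) → Prop

/-- `F` and `F₀` are the two readings of one formula -/
def IsAP (F : AFam R ι) (F₀ : HFam R ι) : Prop :=
  ∃ φ : PP R ι, (∀ (M : Type) [AddCommGroup M] [AfS R M] (x : ι → M), F M x ↔ ASat φ M x) ∧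
    ∀ (M : Type) [AddCommGroup M] [MoS R M] (x : ι → M), F₀ M x ↔ Sat φ M x

theorem isAP_sat (φ : PP R ι) : IsAP (R := R) (fun M _ _ x => ASat φ M x)
    (fun M _ _ x => Sat φ M x) := ⟨φ, fun M _ _ x => Iff.rfl, fun M _ _ x => Iff.rfl⟩

/-- homogeneous relations in both readings -/
theorem isAP_hom {F : HFam R ι} (hF : IsPP (R := R) (fun M _ _ x => F M x)) :
    IsAP (R := R) (fun M _ _ x => F M x) F := by
  obtain ⟨φ, hφ⟩ := hF
  refine ⟨hom φ, fun M _ _ x => ?_, fun M _ _ x => ?_⟩
  · rw [asat_hom]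
    exact hφ M x
  · rw [sat_hom]
    exact hφ M x

theorem IsAP.congr {F G : AFam R ι} {F₀ G₀ : HFam R ι} (hF : IsAP F F₀)
    (h : ∀ (M : Type) [AddCommGroup M] [AfS R M] (x : ι → M), F M x ↔ G M x)
    (h₀ : ∀ (M : Type) [AddCommGroup M] [MoS R M] (x : ι → M), F₀ M x ↔ G₀ M x) :
    IsAP G G₀ := by
  obtain ⟨φ, h1, h2⟩ := hF
  exact ⟨φ, fun M _ _ x => (h M x).symm.trans (h1 M x),
    fun M _ _ x => (h₀ M x).symm.trans (h2 M x)⟩

theorem isAP_true : IsAP (R := R) (ι := ι) (fun M _ _ x => True) (fun M _ _ x => True) :=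
  ⟨[], fun M _ _ x => by simp [ASat], fun M _ _ x => by simp [Sat]⟩

theorem isAP_lin (e : ι →₀ R) :
    IsAP (R := R) (fun M _ _ x => Finsupp.linearCombination R x e = 0)
      (fun M _ _ x => Finsupp.linearCombination R x e = 0) :=
  isAP_hom (isPP_lin e)

/-- atomic formulas -/
theorem isAP_hold (a : Atm R ι) : IsAP (R := R) (fun M _ _ x => AHold a M x)
    (fun M _ _ x => Hold a M x) := by
  refine ⟨[amap Sum.inl a], fun M _ _ x => ?_, fun M _ _ x => ?_⟩
  · constructor
    · intro h
      refine ⟨0, fun e' he' => ?_⟩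
      rw [List.mem_singleton] at he'
      subst he'
      rw [ahold_amap]
      exact h
    · rintro ⟨y, hy⟩
      have := hy _ (List.mem_singleton_self _)
      rw [ahold_amap] at this
      exact this
  · constructor
    · intro h
      refine ⟨0, fun e' he' => ?_⟩
      rw [List.mem_singleton] at he'
      subst he'
      rw [hold_amap]
      exact h
    · rintro ⟨y, hy⟩
      have := hy _ (List.mem_singleton_self _)
      rw [hold_amap] at this
      exact this

/-- renaming of variables -/
theorem IsAP.comap {F : AFam R κ} {F₀ : HFam R κ} (hF : IsAP F F₀) (f : κ → ι) :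
    IsAP (R := R) (fun M _ _ (x : ι → M) => F M (x ∘ f)) (fun M _ _ (x : ι → M) => F₀ M (x ∘ f)) := by
  obtain ⟨φ, h1, h2⟩ := hF
  refine ⟨ren f φ, fun M _ _ x => ?_, fun M _ _ x => ?_⟩
  · rw [asat_ren]
    exact h1 M _
  · rw [sat_ren]
    exact h2 M _

/-- linear substitution -/
theorem IsAP.subst {F : AFam R κ} {F₀ : HFam R κ} (hF : IsAP F F₀) (f : κ → (ι →₀ R)) :
    IsAP (R := R) (fun M _ _ (x : ι → M) => F M (fun i => Finsupp.linearCombination R x (f i)))
      (fun M _ _ (x : ι → M) => F₀ M (fun i => Finsupp.linearCombination R x (f i))) := by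
  obtain ⟨φ, h1, h2⟩ := hF
  let w : κ ⊕ ℕ → ((ι ⊕ ℕ) →₀ R) :=
    Sum.elim (fun k => (f k).mapDomain Sum.inl) (fun n => Finsupp.single (Sum.inr n) 1)
  have hw : ∀ (M : Type) [AddCommGroup M] [Module R M] (x : ι → M) (y : ℕ → M),
      (fun i => Finsupp.linearCombination R (Sum.elim x y) (w i)) =
        Sum.elim (fun i => Finsupp.linearCombination R x (f i)) y := by
    intro M _ _ x y
    funext i
    cases i with
    | inl i =>
      simp only [w, Sum.elim_inl]
      rw [Finsupp.linearCombination_mapDomain]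
      rfl
    | inr n => simp [w]
  refine ⟨φ.map (asub w), fun M _ _ x => (h1 M _).trans ?_, fun M _ _ x => (h2 M _).trans ?_⟩
  · unfold ASat
    refine exists_congr fun y => ?_
    rw [List.forall_mem_map]
    refine forall_congr' fun e => imp_congr Iff.rfl ?_
    rw [ahold_asub, hw]
  · unfold Sat
    refine exists_congr fun y => ?_
    rw [List.forall_mem_map]
    refine forall_congr' fun e => imp_congr Iff.rfl ?_
    rw [hold_asub, hw]

theorem IsAP.and {F G : AFam R ι} {F₀ G₀ : HFam R ι} (hF : IsAP F F₀) (hG : IsAP G G₀) :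
    IsAP (R := R) (fun M _ _ x => F M x ∧ G M x) (fun M _ _ x => F₀ M x ∧ G₀ M x) := by
  obtain ⟨φ, hφ, hφ'⟩ := hF
  obtain ⟨ψ, hψ, hψ'⟩ := hG
  let r1 : ι ⊕ ℕ → ι ⊕ ℕ := Sum.map id (fun n => 2 * n)
  let r2 : ι ⊕ ℕ → ι ⊕ ℕ := Sum.map id (fun n => 2 * n + 1)
  have hr1 : ∀ (M : Type) (x : ι → M) (y : ℕ → M), (Sum.elim x y : ι ⊕ ℕ → M) ∘ r1 =
      Sum.elim x (fun n => y (2 * n)) := by
    intro M x y
    funext i
    cases i <;> rfl
  have hr2 : ∀ (M : Type) (x : ι → M) (y : ℕ → M), (Sum.elim x y : ι ⊕ ℕ → M) ∘ r2 =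
      Sum.elim x (fun n => y (2 * n + 1)) := by
    intro M x y
    funext i
    cases i <;> rfl
  have hm1 : ∀ (M : Type) (y z : ℕ → M), (fun n => (fun n => if n % 2 = 0 then y (n / 2)
      else z (n / 2)) (2 * n)) = y := by
    intro M y z
    funext n
    simp
  have hm2 : ∀ (M : Type) (y z : ℕ → M), (fun n => (fun n => if n % 2 = 0 then y (n / 2)
      else z (n / 2)) (2 * n + 1)) = z := by
    intro M y z
    funext n
    have h3 : (2 * n + 1) % 2 = 1 := by omega
    have h4 : (2 * n + 1) / 2 = n := by omega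
    show (if (2 * n + 1) % 2 = 0 then y ((2 * n + 1) / 2) else z ((2 * n + 1) / 2)) = z n
    rw [h3, h4]
    simp
  refine ⟨φ.map (amap r1) ++ ψ.map (amap r2),
    fun M _ _ x => (and_congr (hφ M x) (hψ M x)).trans ?_,
    fun M _ _ x => (and_congr (hφ' M x) (hψ' M x)).trans ?_⟩
  · constructor
    · rintro ⟨⟨y, hy⟩, ⟨z, hz⟩⟩
      refine ⟨fun n => if n % 2 = 0 then y (n / 2) else z (n / 2), fun e' he' => ?_⟩
      rcases List.mem_append.mp he' with he' | he'
      · obtain ⟨e, he, rfl⟩ := List.mem_map.mp he'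
        rw [ahold_amap, hr1, hm1]
        exact hy e he
      · obtain ⟨e, he, rfl⟩ := List.mem_map.mp he'
        rw [ahold_amap, hr2, hm2]
        exact hz e he
    · rintro ⟨y, hy⟩
      refine ⟨⟨fun n => y (2 * n), fun e he => ?_⟩, ⟨fun n => y (2 * n + 1), fun e he => ?_⟩⟩
      · have h1 := hy _ (List.mem_append_left _ (List.mem_map_of_mem he))
        rw [ahold_amap, hr1] at h1
        exact h1
      · have h1 := hy _ (List.mem_append_right _ (List.mem_map_of_mem he))
        rw [ahold_amap, hr2] at h1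
        exact h1
  · constructor
    · rintro ⟨⟨y, hy⟩, ⟨z, hz⟩⟩
      refine ⟨fun n => if n % 2 = 0 then y (n / 2) else z (n / 2), fun e' he' => ?_⟩
      rcases List.mem_append.mp he' with he' | he'
      · obtain ⟨e, he, rfl⟩ := List.mem_map.mp he'
        rw [hold_amap, hr1, hm1]
        exact hy e he
      · obtain ⟨e, he, rfl⟩ := List.mem_map.mp he'
        rw [hold_amap, hr2, hm2]
        exact hz e he
    · rintro ⟨y, hy⟩
      refine ⟨⟨fun n => y (2 * n), fun e he => ?_⟩, ⟨fun n => y (2 * n + 1), fun e he => ?_⟩⟩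
      · have h1 := hy _ (List.mem_append_left _ (List.mem_map_of_mem he))
        rw [hold_amap, hr1] at h1
        exact h1
      · have h1 := hy _ (List.mem_append_right _ (List.mem_map_of_mem he))
        rw [hold_amap, hr2] at h1
        exact h1

theorem IsAP.ex [Countable κ] {F : AFam R (ι ⊕ κ)} {F₀ : HFam R (ι ⊕ κ)} (hF : IsAP F F₀) :
    IsAP (R := R) (fun M _ _ (x : ι → M) => ∃ y : κ → M, F M (Sum.elim x y))
      (fun M _ _ (x : ι → M) => ∃ y : κ → M, F₀ M (Sum.elim x y)) := by
  obtain ⟨φ, hφ, hφ'⟩ := hF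
  obtain ⟨g, hg⟩ := Countable.exists_injective_nat (κ ⊕ ℕ)
  let r : (ι ⊕ κ) ⊕ ℕ → ι ⊕ ℕ :=
    Sum.elim (Sum.elim Sum.inl (fun k => Sum.inr (g (Sum.inl k)))) (fun n => Sum.inr (g (Sum.inr n)))
  have hr : ∀ (M : Type) (x : ι → M) (y : ℕ → M), (Sum.elim x y : ι ⊕ ℕ → M) ∘ r =
      Sum.elim (Sum.elim x (fun k => y (g (Sum.inl k)))) (fun n => y (g (Sum.inr n))) := by
    intro M x y
    funext i
    rcases i with (i | i) | i <;> rfl
  refine ⟨φ.map (amap r), fun M _ _ x => ?_, fun M _ _ x => ?_⟩
  · constructor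
    · rintro ⟨y, hy⟩
      rw [hφ] at hy
      obtain ⟨z, hz⟩ := hy
      refine ⟨Function.extend g (Sum.elim y z) 0, fun e' he' => ?_⟩
      obtain ⟨e, he, rfl⟩ := List.mem_map.mp he'
      rw [ahold_amap, hr]
      simp only [hg.extend_apply, Sum.elim_inl, Sum.elim_inr]
      exact hz e he
    · rintro ⟨y, hy⟩
      refine ⟨fun k => y (g (Sum.inl k)), ?_⟩
      rw [hφ]
      refine ⟨fun n => y (g (Sum.inr n)), fun e he => ?_⟩
      have h1 := hy _ (List.mem_map_of_mem he)
      rw [ahold_amap, hr] at h1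
      exact h1
  · constructor
    · rintro ⟨y, hy⟩
      rw [hφ'] at hy
      obtain ⟨z, hz⟩ := hy
      refine ⟨Function.extend g (Sum.elim y z) 0, fun e' he' => ?_⟩
      obtain ⟨e, he, rfl⟩ := List.mem_map.mp he'
      rw [hold_amap, hr]
      simp only [hg.extend_apply, Sum.elim_inl, Sum.elim_inr]
      exact hz e he
    · rintro ⟨y, hy⟩
      refine ⟨fun k => y (g (Sum.inl k)), ?_⟩
      rw [hφ']
      refine ⟨fun n => y (g (Sum.inr n)), fun e he => ?_⟩
      have h1 := hy _ (List.mem_map_of_mem he)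
      rw [hold_amap, hr] at h1
      exact h1

/-- finite conjunctions -/
theorem isAP_list (l : List (PP R ι)) : IsAP (R := R) (fun M _ _ x => ∀ φ ∈ l, ASat φ M x)
    (fun M _ _ x => ∀ φ ∈ l, Sat φ M x) := by
  induction l with
  | nil => exact isAP_true.congr (fun M _ _ x => by simp) (fun M _ _ x => by simp)
  | cons φ l ih =>
    exact ((isAP_sat φ).and ih).congr (fun M _ _ x => by simp) (fun M _ _ x => by simp)

theorem isAP_finset (s : Finset (PP R ι)) :
    IsAP (R := R) (fun M _ _ x => ∀ φ ∈ s, ASat φ M x) (fun M _ _ x => ∀ φ ∈ s, Sat φ M x) := by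
  classical
  exact (isAP_list s.toList).congr (fun M _ _ x => by simp) (fun M _ _ x => by simp)

/-- sum of an affine and a homogeneous relation -/
theorem IsAP.add [Countable ι] {F : AFam R ι} {F₀ G : HFam R ι} (hF : IsAP F F₀)
    (hG : IsPP (R := R) (fun M _ _ x => G M x)) :
    IsAP (R := R) (fun M _ _ x => ∃ y : ι → M, F M y ∧ G M (x - y))
      (fun M _ _ x => ∃ y : ι → M, F₀ M y ∧ G M (x - y)) := by
  have h1 : IsAP (R := R) (ι := ι ⊕ ι) (fun M _ _ z => F M (z ∘ Sum.inr))
      (fun M _ _ z => F₀ M (z ∘ Sum.inr)) := hF.comap Sum.inr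
  have h2 : IsAP (R := R) (ι := ι ⊕ ι) (fun M _ _ z => G M (fun i => z (Sum.inl i) - z (Sum.inr i)))
      (fun M _ _ z => G M (fun i => z (Sum.inl i) - z (Sum.inr i))) := by
    refine ((isAP_hom hG).subst (fun i : ι => Finsupp.single (Sum.inl i) (1 : R) -
      Finsupp.single (Sum.inr i) 1)).congr (fun M _ _ x => ?_) (fun M _ _ x => ?_)
    · simp [map_sub]
    · simp [map_sub]
  exact (h1.and h2).ex.congr (fun M _ _ x => Iff.rfl) (fun M _ _ x => Iff.rfl)

/-- the pair consists of an affine family and its direction -/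
theorem IsAP.iff {F : AFam R ι} {F₀ : HFam R ι} (hF : IsAP F F₀) {M : Type} [AddCommGroup M]
    [AfS R M] {x y : ι → M} (h : F M x) : F M y ↔ F₀ M (y - x) := by
  obtain ⟨φ, h1, h2⟩ := hF
  rw [h1] at h
  rw [h1, h2]
  exact ASat.iff h

end Pool.Agent.AVC
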