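import Pool.Agent.AVC.COL
import Pool.Agent.AVC.Aff

/-!
# Colimits of affine structures, coding structures `M + Y_k` with `M` affine and `Y_k` homogeneous
-/

set_option autoImplicit false
set_option linter.unusedSectionVars false
set_option linter.unusedVariables false

namespace Pool.Agent.AVC

open Set Ax Col

namespace ACol

section

variable {R : Type} [RSig R] {G : ℕ → Ad R} (t : ∀ k, Hm R (G k) (G (k + 1)))

/-- the sequence of the reducts -/
abbrev mds (G : ℕ → Ad R) : ℕ → Md R := fun k => (G k).md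

/-- the maps of stage `k` into later stages preserve the cosets -/
theorem csq_prQ (ht : ∀ k, (t k).PrQ) {k j : ℕ} (h : k ≤ j) (i : RSig.Ix R)
    (x : Fin (RSig.ar i) → G k) (hx : x ∈ AfS.Q (R := R) (M := G k) i) :
    (fun a => csq (G := mds G) t k j (x a)) ∈ AfS.Q (R := R) (M := G j) i := by
  induction j, h using Nat.le_induction with
  | base =>
    have h1 : (fun a => csq (G := mds G) t k k (x a)) = x := by
      funext a
      exact csq_self (G := mds G) t k (x a)
    rw [h1]
    exact hx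
  | succ j hj ih =>
    have h1 : (fun a => csq (G := mds G) t k (j + 1) (x a)) =
        fun a => t j (csq (G := mds G) t k j (x a)) := by
      funext a
      exact csq_succ (G := mds G) t hj (x a)
    rw [h1]
    exact ht j i _ ih

variable {t} {L : Md R} {of : ∀ k, Hm R (mds G k) L}

/-- the colimit as an affine structure -/
def acolim (ht : ∀ k, (t k).PrQ) (hL : IsColim (G := mds G) t L of) : Ad R :=
  @Ad.mk R _ L.car L.grp
    { toMoS := L.mod
      Q := fun i => {z | ∃ (k : ℕ) (x : Fin (RSig.ar i) → G k),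
        x ∈ AfS.Q (R := R) (M := G k) i ∧ ∀ a, of k (x a) = z a}
      cos := by
        rintro i z z' ⟨k, x, hx, hz⟩
        obtain rfl : (fun a => of k (x a)) = z := funext hz
        constructor
        · rintro ⟨l, y, hy, hz'⟩
          obtain rfl : (fun a => of l (y a)) = z' := funext hz'
          have h1 : ((fun a => of l (y a)) - fun a => of k (x a)) =
              fun a => of (max k l) ((csq (G := mds G) t l (max k l) (y a)) -
                csq (G := mds G) t k (max k l) (x a)) := by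
            funext a
            rw [map_sub, of_csq hL (le_max_left k l), of_csq hL (le_max_right k l)]
            rfl
          rw [h1]
          refine (of (max k l)).mem i _ ?_
          exact (AfS.cos i _ _ (csq_prQ t ht (le_max_left k l) i x hx)).1
            (csq_prQ t ht (le_max_right k l) i y hy)
        · intro h
          obtain ⟨l, hkl, y, hy⟩ := cos_lift hL z' k
          obtain rfl : (fun a => of l (y a)) = z' := funext hy
          have h1 : ((fun a => of l (y a)) - fun a => of k (x a)) =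
              fun a => of l (y a - csq (G := mds G) t k l (x a)) := by
            funext a
            rw [map_sub, of_csq hL hkl]
            rfl
          rw [h1] at h
          obtain ⟨j, hj⟩ := hL.prd i l _ h
          refine ⟨l + j, fun a => csq (G := mds G) t l (l + j) (y a), ?_, fun a =>
            of_csq hL (Nat.le_add_right l j) (y a)⟩
          refine (AfS.cos i _ _ (csq_prQ t ht (hkl.trans (Nat.le_add_right l j)) i x hx)).2 ?_
          refine (iff_of_eq ?_).mp hj
          congr 1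
          funext a
          rw [← csq_add, map_sub, csq_trans (G := mds G) t hkl (Nat.le_add_right l j)]
          rfl }

theorem acolim_md (ht : ∀ k, (t k).PrQ) (hL : IsColim (G := mds G) t L of) :
    (acolim ht hL).md = L := rfl

/-- the maps into the colimit -/
def aof (ht : ∀ k, (t k).PrQ) (hL : IsColim (G := mds G) t L of) (k : ℕ) :
    Hm R (G k) (acolim ht hL) := of k

theorem aof_prQ (ht : ∀ k, (t k).PrQ) (hL : IsColim (G := mds G) t L of) (k : ℕ) :
    (aof ht hL k).PrQ := fun i x hx => ⟨k, x, hx, fun a => rfl⟩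

/-- elements of the cosets of the colimit come from later stages -/
theorem prdQ (ht : ∀ k, (t k).PrQ) (hL : IsColim (G := mds G) t L of) (i : RSig.Ix R) (k : ℕ)
    (x : Fin (RSig.ar i) → G k)
    (h : (fun a => aof ht hL k (x a)) ∈ AfS.Q (R := R) (M := acolim ht hL) i) :
    ∃ l, k ≤ l ∧ ∀ m, l ≤ m → (fun a => csq (G := mds G) t k m (x a)) ∈
      AfS.Q (R := R) (M := G m) i := by
  obtain ⟨l, y, hy, hxy⟩ := h
  have h1 : ∀ a, ∃ q, max k l ≤ q ∧ ∀ m, q ≤ m → csq (G := mds G) t (max k l) m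
      (csq (G := mds G) t l (max k l) (y a) - csq (G := mds G) t k (max k l) (x a)) = 0 := by
    intro a
    refine cos_zero hL ?_
    rw [map_sub, of_csq hL (le_max_left k l), of_csq hL (le_max_right k l), sub_eq_zero]
    exact hxy a
  choose q hq hq' using h1
  refine ⟨max (max k l) (Finset.univ.sup q), le_trans (le_max_left k l) (le_max_left _ _),
    fun m hm => ?_⟩
  have hkm : k ≤ m := le_trans (le_trans (le_max_left k l) (le_max_left _ _)) hm
  have hlm : l ≤ m := le_trans (le_trans (le_max_right k l) (le_max_left _ _)) hm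
  have hmm : max k l ≤ m := le_trans (le_max_left _ _) hm
  have h2 : (fun a => csq (G := mds G) t k m (x a)) = fun a => csq (G := mds G) t l m (y a) := by
    funext a
    have h3 := hq' a m (le_trans (le_trans (Finset.le_sup (Finset.mem_univ a))
      (le_max_right _ _)) hm)
    rw [map_sub, csq_trans (G := mds G) t (le_max_left k l) hmm, csq_trans (G := mds G) t (le_max_right k l) hmm,
      sub_eq_zero] at h3
    exact h3.symm
  rw [h2]
  exact csq_prQ t ht hlm i y hy

theorem acos_hold {A : Type} (ht : ∀ k, (t k).PrQ) (hL : IsColim (G := mds G) t L of) (k : ℕ)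
    (a : Atm R A) (x : A → G k) (h : AHold a (acolim ht hL) (fun i => aof ht hL k (x i))) :
    ∃ l, k ≤ l ∧ ∀ m, l ≤ m → AHold a (G m) (fun i => csq (G := mds G) t k m (x i)) := by
  rcases a with e | ⟨i, b, p⟩
  · exact cos_hold hL k (Sum.inl e) x h
  · cases b
    · exact cos_hold hL k (Sum.inr ⟨i, false, p⟩) x h
    · have h1 : (fun j => aof ht hL k (Finsupp.linearCombination R x (p j))) ∈
          AfS.Q (R := R) (M := acolim ht hL) i := by
        have h2 : (fun j => aof ht hL k (Finsupp.linearCombination R x (p j))) =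
            fun j => Finsupp.linearCombination R (aof ht hL k ∘ x) (p j) := by
          funext j
          rw [lc_hm]
        rw [h2]
        exact h
      obtain ⟨l, hkl, hl⟩ := prdQ ht hL i k _ h1
      refine ⟨l, hkl, fun m hm => ?_⟩
      show (fun a => Finsupp.linearCombination R ((csq (G := mds G) t k m : G k → G m) ∘ x)
        (p a)) ∈ AfS.Q (R := R) (M := G m) i
      have h3 : (fun a => Finsupp.linearCombination R ((csq (G := mds G) t k m : G k → G m) ∘ x)
          (p a)) = fun a => csq (G := mds G) t k m (Finsupp.linearCombination R x (p a)) := by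
        funext a
        exact lc_hm (csq (G := mds G) t k m) x (p a)
      rw [h3]
      exact hl m hm

theorem acos_list {A : Type} (ht : ∀ k, (t k).PrQ) (hL : IsColim (G := mds G) t L of) (k : ℕ)
    (l : List (Atm R A)) (x : A → G k)
    (h : ∀ a ∈ l, AHold a (acolim ht hL) (fun i => aof ht hL k (x i))) :
    ∃ m, k ≤ m ∧ ∀ m', m ≤ m' → ∀ a ∈ l,
      AHold a (G m') (fun i => csq (G := mds G) t k m' (x i)) := by
  induction l with
  | nil => exact ⟨k, le_refl k, fun m' _ a ha => absurd ha (by simp)⟩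
  | cons b l ih =>
    obtain ⟨m, hm, hm'⟩ := ih (fun a ha => h a (List.mem_cons_of_mem b ha))
    obtain ⟨q, hq, hq'⟩ := acos_hold ht hL k b x (h b List.mem_cons_self)
    refine ⟨max m q, le_trans hm (le_max_left _ _), fun m' hm1 a ha => ?_⟩
    rcases List.mem_cons.1 ha with rfl | ha
    · exact hq' m' (le_trans (le_max_right _ _) hm1)
    · exact hm' m' (le_trans (le_max_left _ _) hm1) a ha

/-- the affine reading is evaluated at late stages -/
theorem acos_late {ι : Type} (ht : ∀ k, (t k).PrQ) (hL : IsColim (G := mds G) t L of)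
    (φ : PP R ι) (k : ℕ) (x : ι → G k)
    (h : ASat φ (acolim ht hL) (fun i => aof ht hL k (x i))) :
    ∃ l, k ≤ l ∧ ∀ m, l ≤ m → ASat φ (G m) (fun i => csq (G := mds G) t k m (x i)) := by
  classical
  obtain ⟨y, hy⟩ := h
  obtain ⟨B, hB⟩ := pp_bd φ
  obtain ⟨l, hkl, y', hy'⟩ := cos_lift hL (fun n : Fin B => y n) k
  let w : ℕ → G l := fun n => if h : n < B then y' ⟨n, h⟩ else 0
  have hw : ∀ n, n < B → of l (w n) = y n := by
    intro n hn
    have h1 : w n = y' ⟨n, hn⟩ := dif_pos hn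
    rw [h1]
    exact hy' ⟨n, hn⟩
  have h1 : ∀ e ∈ φ, AHold e (acolim ht hL)
      (fun s => aof ht hL l (Sum.elim (fun i => csq (G := mds G) t k l (x i)) w s)) := by
    intro e he
    refine (ahold_congr fun s hs => ?_).1 (hy e he)
    rcases s with i | n
    · exact (of_csq hL hkl (x i)).symm
    · exact (hw n (hB e he n hs)).symm
  obtain ⟨m, hlm, hm⟩ := acos_list ht hL l φ _ h1
  refine ⟨m, hkl.trans hlm, fun m' hm' => ?_⟩
  refine ⟨fun n => csq (G := mds G) t l m' (w n), fun e he => ?_⟩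
  refine (ahold_congr fun s hs => ?_).1 (hm m' hm' e he)
  rcases s with i | n
  · exact csq_trans (G := mds G) t hkl (hlm.trans hm') (x i)
  · rfl

theorem acos_of {ι : Type} (ht : ∀ k, (t k).PrQ) (hL : IsColim (G := mds G) t L of)
    (φ : PP R ι) (k m : ℕ) (hkm : k ≤ m) (x : ι → G k)
    (h : ASat φ (G m) (fun i => csq (G := mds G) t k m (x i))) :
    ASat φ (acolim ht hL) (fun i => aof ht hL k (x i)) := by
  have h1 := h.map (aof_prQ ht hL m)
  refine (iff_of_eq ?_).mp h1
  congr 1
  funext i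
  exact of_csq hL hkm (x i)

/-- evaluation of the affine reading in the colimit -/
theorem acos_sat {ι : Type} (ht : ∀ k, (t k).PrQ) (hL : IsColim (G := mds G) t L of)
    (φ : PP R ι) (k : ℕ) (x : ι → G k) :
    ASat φ (acolim ht hL) (fun i => aof ht hL k (x i)) ↔
      ∃ j, ASat φ (G (k + j)) (fun i => itr (G := mds G) t k j (x i)) := by
  constructor
  · intro h
    obtain ⟨l, hkl, hl⟩ := acos_late ht hL φ k x h
    obtain ⟨j, rfl⟩ := Nat.exists_eq_add_of_le hkl
    refine ⟨j, ?_⟩
    refine (iff_of_eq ?_).mp (hl (k + j) le_rfl)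
    congr 1
    funext i
    exact csq_add (G := mds G) t k j (x i)
  · rintro ⟨j, hj⟩
    refine acos_of ht hL φ k (k + j) (Nat.le_add_right k j) x ?_
    refine (iff_of_eq ?_).mp hj
    congr 1
    funext i
    exact (csq_add (G := mds G) t k j (x i)).symm

/-- a colimit of structures with the affine axioms `X` has the affine axioms `X` -/
theorem acolim_aIn (X : Ax R) (ht : ∀ k, (t k).PrQ) (hL : IsColim (G := mds G) t L of)
    (hX : ∀ k, X.AIn (G k)) : X.AIn (acolim ht hL) := by
  intro a ha z hz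
  obtain ⟨k, _, x, hx⟩ := cos_lift hL z 0
  obtain rfl : (fun i => of k (x i)) = z := funext hx
  obtain ⟨j, hj⟩ := (acos_sat ht hL a.2.1 k x).1 hz
  exact (acos_sat ht hL a.2.2 k x).2 ⟨j, hX (k + j) a ha _ hj⟩

end

end ACol

/-! ### Coding structures -/

/-- data of the coding with an affine structure `M` and homogeneous structures `Y k` -/
structure ASys (R : Type) [RSig R] where
  M : Ad R
  Y : ℕ → Md R
  a : ∀ k, Hm R (Y k) (Y (k + 1))
  c : ∀ k, ℕ → Hm R (Y k) M
  c0 : ∀ k, c k 0 = 0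

/-- the homogeneous reduct -/
@[reducible] def ASys.sys {R : Type} [RSig R] (D : ASys R) : Sys R :=
  ⟨D.M.md, D.Y, D.a, D.c, D.c0⟩

/-- the stages `M × Y k` -/
def ASys.G {R : Type} [RSig R] (D : ASys R) (k : ℕ) : Ad R := ⟨D.M × D.Y k⟩

/-- the transition maps -/
def ASys.t {R : Type} [RSig R] (D : ASys R) (σ : ℕ → ℕ) (k : ℕ) :
    Hm R (D.G k) (D.G (k + 1)) := D.sys.t σ k

theorem ASys.t_apply {R : Type} [RSig R] (D : ASys R) (σ : ℕ → ℕ) (k : ℕ) (z : D.G k) :
    D.t σ k z = (z.1 + D.c k (σ k) z.2, D.a k z.2) := rfl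

theorem ASys.t_prQ {R : Type} [RSig R] (D : ASys R) (σ : ℕ → ℕ) (k : ℕ) : (D.t σ k).PrQ := by
  rintro i x ⟨h1, h2⟩
  refine ⟨?_, (D.a k).mem i _ h2⟩
  refine (AfS.cos i _ _ h1).2 ?_
  have h3 : (fun j => (D.t σ k (x j)).1) - (fun j => (x j).1) =
      fun j => D.c k (σ k) (x j).2 := by
    funext j
    exact add_sub_cancel_left (x j).1 (D.c k (σ k) (x j).2)
  rw [h3]
  exact (D.c k (σ k)).mem i _ h2

/-- the coding structure as an affine structure -/
def ASys.L {R : Type} [RSig R] (D : ASys R) (Λ : D.sys.Lim) (σ : ℕ → ℕ) : Ad R :=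
  ACol.acolim (G := D.G) (t := D.t σ) (D.t_prQ σ) (Λ.isColim σ)

theorem ASys.L_md {R : Type} [RSig R] (D : ASys R) (Λ : D.sys.Lim) (σ : ℕ → ℕ) :
    (D.L Λ σ).md = Λ.L σ := rfl

/-- the map of `M` into the coding structure -/
def ASys.inM {R : Type} [RSig R] (D : ASys R) (Λ : D.sys.Lim) (σ : ℕ → ℕ) :
    Hm R D.M (D.L Λ σ) := Λ.inM σ

theorem ASys.inM_prQ {R : Type} [RSig R] (D : ASys R) (Λ : D.sys.Lim) (σ : ℕ → ℕ) :
    (D.inM Λ σ).PrQ := by
  intro i x hx
  refine ⟨0, fun j => (x j, 0), ⟨hx, (MoS.P i).zero_mem⟩, fun j => rfl⟩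

section

variable {R : Type} [RSig R] (D : ASys R) (Λ : D.sys.Lim) (σ : ℕ → ℕ)

/-- elements of `M` stay what they are -/
theorem ASys.itr_inl (k j : ℕ) (u : D.M) :
    itr (D.sys.t σ) k j ((u, 0) : D.sys.G k) = ((u, 0) : D.sys.G (k + j)) := by
  induction j with
  | zero => rfl
  | succ j ih =>
    show D.sys.t σ (k + j) (itr (D.sys.t σ) k j ((u, 0) : D.sys.G k)) = _
    rw [ih]
    show ((u + D.c (k + j) (σ (k + j)) 0, D.a (k + j) 0) : D.M × D.Y (k + j + 1)) = (u, 0)
    rw [map_zero, map_zero, add_zero]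

theorem ASys.of_inl (k : ℕ) (u : D.M) :
    Λ.of σ k ((u, 0) : D.sys.G k) = Λ.inM σ u := by
  have h1 : Λ.of σ k (csq (D.sys.t σ) 0 k ((u, 0) : D.sys.G 0)) =
      Λ.of σ 0 ((u, 0) : D.sys.G 0) := of_csq (Λ.isColim σ) (Nat.zero_le k) _
  have h2 : csq (D.sys.t σ) 0 k ((u, 0) : D.sys.G 0) = ((u, 0) : D.sys.G k) := by
    induction k with
    | zero => exact csq_self (D.sys.t σ) 0 _
    | succ k ih =>
      rw [csq_succ (D.sys.t σ) (Nat.zero_le k), ih (of_csq (Λ.isColim σ) (Nat.zero_le k) _)]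
      show ((u + D.c k (σ k) 0, D.a k 0) : D.M × D.Y (k + 1)) = (u, 0)
      rw [map_zero, map_zero, add_zero]
  rw [h2] at h1
  exact h1

/-- every element of stage `k` is the sum of an element of `M` and an element of `Y k` -/
theorem ASys.of_eq (k : ℕ) (u : D.M) (v : D.Y k) :
    Λ.of σ k ((u, v) : D.sys.G k) = Λ.inM σ u + Λ.inY σ k v := by
  have h2 : Λ.of σ k ((u, v) : D.sys.G k) =
      Λ.of σ k ((u, 0) : D.sys.G k) + Λ.of σ k ((0, v) : D.sys.G k) := by
    rw [← map_add]
    refine congrArg (Λ.of σ k) ?_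
    show ((u, v) : D.M × D.Y k) = (u + 0, 0 + v)
    rw [add_zero, zero_add]
  rw [h2, ASys.of_inl]
  rfl

/-- the sets `Q i` of the coding structure -/
theorem ASys.mem_Q (i : RSig.Ix R) (z : Fin (RSig.ar i) → Λ.L σ) :
    z ∈ AfS.Q (R := R) (M := D.L Λ σ) i ↔ ∃ u ∈ AfS.Q (R := R) (M := D.M) i,
      (fun j => z j - Λ.inM σ (u j)) ∈ MoS.P (R := R) (M := Λ.L σ) i := by
  constructor
  · rintro ⟨k, x, hx, hz⟩
    obtain rfl : (fun j => Λ.of σ k (x j)) = z := funext hz
    refine ⟨fun j => (x j).1, hx.1, ?_⟩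
    have h1 : (fun j => Λ.of σ k (x j) - Λ.inM σ (x j).1) =
        fun j => Λ.of σ k ((0, (x j).2) : D.sys.G k) := by
      funext j
      have h2 : Λ.of σ k (x j) = Λ.inM σ (x j).1 + Λ.inY σ k (x j).2 :=
        ASys.of_eq D Λ σ k (x j).1 (x j).2
      rw [h2, add_sub_cancel_left]
      rfl
    rw [h1]
    exact (Λ.of σ k).mem i _ ⟨(MoS.P i).zero_mem, hx.2⟩
  · rintro ⟨u, hu, h⟩
    have h1 : (fun j => Λ.inM σ (u j)) ∈ AfS.Q (R := R) (M := D.L Λ σ) i :=
      D.inM_prQ Λ σ i u hu
    exact (AfS.cos i _ _ h1).2 h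

/-- the affine reading in the coding structure, at stage `k` -/
theorem ASys.asat_of {ι : Type} (φ : PP R ι) (k : ℕ) (z : ι → D.sys.G k) :
    ASat φ (D.L Λ σ) (fun i => Λ.of σ k (z i)) ↔
      ∃ j, ASat φ D.M (fun i => (itr (D.sys.t σ) k j (z i)).1) ∧
        Sat φ (D.Y (k + j)) (fun i => (itr (D.sys.t σ) k j (z i)).2) := by
  have h1 := ACol.acos_sat (G := D.G) (t := D.t σ) (D.t_prQ σ) (Λ.isColim σ) φ k z
  refine h1.trans (exists_congr fun j => ?_)
  exact asat_prod (M := D.M) (N := D.Y (k + j))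

/-- the same with the two maps -/
theorem ASys.asat_inM_inY {ι : Type} (φ : PP R ι) (k : ℕ) (u : ι → D.M) (v : ι → D.Y k) :
    ASat φ (D.L Λ σ) (fun i => Λ.inM σ (u i) + Λ.inY σ k (v i)) ↔
      ∃ j, ASat φ D.M (fun i => (itr (D.sys.t σ) k j ((u i, v i) : D.sys.G k)).1) ∧
        Sat φ (D.Y (k + j)) (fun i => (itr (D.sys.t σ) k j ((u i, v i) : D.sys.G k)).2) := by
  rw [← ASys.asat_of D Λ σ φ k]
  refine iff_of_eq ?_
  congr 1
  funext i
  exact (ASys.of_eq D Λ σ k (u i) (v i)).symm

/-- for tuples of `M` nothing changes -/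
theorem ASys.asat_inM {ι : Type} (φ : PP R ι) (u : ι → D.M) :
    ASat φ (D.L Λ σ) (fun i => Λ.inM σ (u i)) ↔ ASat φ D.M u := by
  constructor
  · intro h
    have h1 : ASat φ (D.L Λ σ) (fun i => Λ.of σ 0 ((u i, 0) : D.sys.G 0)) := h
    obtain ⟨j, hj, -⟩ := (ASys.asat_of D Λ σ φ 0 _).1 h1
    refine (iff_of_eq ?_).mp hj
    congr 1
    funext i
    rw [ASys.itr_inl]
  · intro h
    exact h.map (D.inM_prQ Λ σ)

/-- affine axioms of the coding structure -/
theorem ASys.L_aIn (X : Ax R) (hM : X.AIn D.M)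
    (hY : ∀ a ∈ X, (∃ x : Fin a.1 → D.M, ASat a.2.1 D.M x) →
      ∀ (k : ℕ) (y : Fin a.1 → D.Y k), Sat a.2.1 (D.Y k) y → Sat a.2.2 (D.Y k) y) :
    X.AIn (D.L Λ σ) := by
  intro a ha z hz
  obtain ⟨k, -, x, hx⟩ := cos_lift (Λ.isColim σ) z 0
  obtain rfl : (fun i => Λ.of σ k (x i)) = z := funext hx
  obtain ⟨j, h1, h2⟩ := (ASys.asat_of D Λ σ a.2.1 k x).1 hz
  exact (ASys.asat_of D Λ σ a.2.2 k x).2 ⟨j, hM a ha _ h1, hY a ha ⟨_, h1⟩ _ _ h2⟩

end

end Pool.Agent.AVC
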