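import Pool.Agent.AVC.Aff

/-!
# Satisfaction of affine formulas in the reduced power (helper8)
-/

set_option autoImplicit false
set_option linter.unusedSectionVars false
set_option linter.unusedVariables false

namespace Pool.Agent.AVC

open Set Ax

section

variable {R : Type} [RSig R]

private theorem AMIS_lc {ι : Type} (M : Md R) (s : ι → ℕ → M) (e : ι →₀ R) :
    Finsupp.linearCombination R (fun i => MI.mk M (s i)) e =
      MI.mk M (Finsupp.linearCombination R s e) :=
  lc_hm (MI.mk M) s e

private theorem AMIS_lc_apply {ι : Type} (M : Md R) (s : ι → ℕ → M) (e : ι →₀ R) (m : ℕ) :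
    Finsupp.linearCombination R s e m = Finsupp.linearCombination R (fun i => s i m) e :=
  lc_proj (Q := fun _ : ℕ => (M : Type)) s e m

/-- membership in a set `Q i` of the reduced power -/
theorem AMI.mem_Q (M : Ad R) (i : RSig.Ix R) (s : Fin (RSig.ar i) → ℕ → M) :
    (fun j => (MI.mk M.md (s j) : AMI M)) ∈ AfS.Q (R := R) (M := AMI M) i ↔
      ∃ n, ∀ m ≥ n, (fun j => s j m) ∈ AfS.Q (R := R) (M := M) i := by
  constructor
  · rintro ⟨t, ht, n, hn⟩
    have h1 : ∀ j, ∃ k, ∀ m ≥ k, t j m = s j m := fun j => (MI.mk_eq M.md _ _).1 (ht j)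
    choose k hk using h1
    refine ⟨max n (Finset.univ.sup k), fun m hm => ?_⟩
    have h4 : (fun j => s j m) = fun j => t j m := by
      funext j
      refine (hk j m (le_trans ?_ hm)).symm
      exact le_trans (Finset.le_sup (Finset.mem_univ j)) (le_max_right _ _)
    rw [h4]
    exact hn m (le_trans (le_max_left _ _) hm)
  · rintro ⟨n, hn⟩
    exact ⟨s, fun j => rfl, n, hn⟩

/-- evaluation of an atomic formula in the reduced power -/
private theorem AMIS_hold {ι : Type} (M : Ad R) (s : ι → ℕ → M) (e : Atm R ι) :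
    AHold e (AMI M) (fun i => (MI.mk M.md (s i) : AMI M)) ↔
      ∃ n, ∀ m ≥ n, AHold e M (fun i => s i m) := by
  rcases e with e | ⟨i, b, t⟩
  · show Finsupp.linearCombination R (fun i => MI.mk M.md (s i)) e = 0 ↔ _
    rw [AMIS_lc, ← map_zero (MI.mk M.md), MI.mk_eq]
    refine exists_congr fun n => forall_congr' fun m => imp_congr Iff.rfl ?_
    exact iff_of_eq (congrArg (fun z => z = 0) (AMIS_lc_apply M.md s e m))
  · have h1 : (fun j => Finsupp.linearCombination R (fun i => MI.mk M.md (s i)) (t j)) =
        fun j => MI.mk M.md (Finsupp.linearCombination R s (t j)) := by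
      funext j
      exact AMIS_lc M.md s (t j)
    have h2 : ∀ m, (fun j => (Finsupp.linearCombination R s (t j)) m) =
        fun j => Finsupp.linearCombination R (fun i => s i m) (t j) := by
      intro m
      funext j
      exact AMIS_lc_apply M.md s (t j) m
    cases b
    · show (fun j => Finsupp.linearCombination R (fun i => MI.mk M.md (s i)) (t j)) ∈
        MoS.P (R := R) (M := MI M.md) i ↔ _
      rw [h1, MI.mem_P]
      refine exists_congr fun n => forall_congr' fun m => imp_congr Iff.rfl ?_
      rw [h2]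
      rfl
    · show (fun j => Finsupp.linearCombination R (fun i => MI.mk M.md (s i)) (t j)) ∈
        AfS.Q (R := R) (M := AMI M) i ↔ _
      rw [h1]
      refine (AMI.mem_Q M i fun j => Finsupp.linearCombination R s (t j)).trans ?_
      refine exists_congr fun n => forall_congr' fun m => imp_congr Iff.rfl ?_
      rw [h2]
      rfl

private theorem AMIS_list {A : Type} (P : ℕ → A → Prop) (l : List A)
    (h : ∀ e ∈ l, ∃ n, ∀ m ≥ n, P m e) : ∃ n, ∀ m ≥ n, ∀ e ∈ l, P m e := by
  induction l with
  | nil => exact ⟨0, fun m _ e he => absurd he List.not_mem_nil⟩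
  | cons a l ih =>
    obtain ⟨n, hn⟩ := ih fun e he => h e (List.mem_cons_of_mem a he)
    obtain ⟨k, hk⟩ := h a List.mem_cons_self
    refine ⟨max n k, fun m hm e he => ?_⟩
    rcases List.mem_cons.mp he with rfl | he
    · exact hk m (le_trans (le_max_right n k) hm)
    · exact hn m (le_trans (le_max_left n k) hm) e he

/-- **satisfaction of affine formulas in the reduced power** -/
theorem amis {ι : Type} (M : Ad R) (φ : PP R ι) (s : ι → ℕ → M) :
    ASat φ (AMI M) (fun i => (MI.mk M.md (s i) : AMI M)) ↔
      ∃ n, ∀ m ≥ n, ASat φ M (fun i => s i m) := by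
  constructor
  · rintro ⟨y, hy⟩
    choose y' hy' using fun k => MI.mk_surj M.md (y k)
    have h1 : (Sum.elim (fun i => (MI.mk M.md (s i) : AMI M)) y) =
        fun i => (MI.mk M.md (Sum.elim s y' i) : AMI M) := by
      funext i
      cases i with
      | inl i => rfl
      | inr k => exact (hy' k).symm
    obtain ⟨n, hn⟩ := AMIS_list (fun m e => AHold e M (fun i => Sum.elim s y' i m)) φ
      fun e he => by
        rw [← AMIS_hold, ← h1]
        exact hy e he
    refine ⟨n, fun m hm => ⟨fun k => y' k m, fun e he => ?_⟩⟩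
    have h2 : (Sum.elim (fun i => s i m) fun k => y' k m) = fun i => Sum.elim s y' i m := by
      funext i
      cases i <;> rfl
    rw [h2]
    exact hn m hm e he
  · rintro ⟨n, hn⟩
    have hex : ∀ m : ℕ, ∃ y : ℕ → M, m ≥ n → ∀ e ∈ φ,
        AHold e M (Sum.elim (fun i => s i m) y) := by
      intro m
      by_cases hm : m ≥ n
      · obtain ⟨y, hy⟩ := hn m hm
        exact ⟨y, fun _ => hy⟩
      · exact ⟨0, fun h => absurd h hm⟩
    choose y hy using hex
    refine ⟨fun k => (MI.mk M.md (fun m => y m k) : AMI M), fun e he => ?_⟩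
    let v : ι ⊕ ℕ → AMI M := Sum.elim (fun i => (MI.mk M.md (s i) : AMI M))
      fun k => (MI.mk M.md (fun m => y m k) : AMI M)
    have h1 : v = fun i => (MI.mk M.md ((Sum.elim s fun k m => y m k) i) : AMI M) := by
      funext i
      cases i <;> rfl
    show AHold e (AMI M) v
    rw [h1]
    refine (AMIS_hold M _ e).2 ⟨n, fun m hm => ?_⟩
    have h2 : (fun i => (Sum.elim s fun k m => y m k) i m) = Sum.elim (fun i => s i m) (y m) := by
      funext i
      cases i <;> rfl
    rw [h2]
    exact hy m hm e he

end

end Pool.Agent.AVC
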