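import Pool.Agent.AVC.Aff
import Pool.Agent.AVC.Api1

/-!
# Level-one formulas in both readings: closure properties
-/

set_option autoImplicit false
set_option linter.unusedSectionVars false
set_option linter.unusedVariables false

namespace Pool.Agent.AVC

open Set

variable {R : Type} [RSig R] {ι κ : Type}

/-- `F` and `F₀` are the two readings of one level-one formula -/
def IsAL (F : AFam R ι) (F₀ : HFam R ι) : Prop :=
  ∃ V : L1 R ι, (∀ (M : Type) [AddCommGroup M] [AfS R M] (x : ι → M), F M x ↔ ASat1 V M x) ∧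
    ∀ (M : Type) [AddCommGroup M] [MoS R M] (x : ι → M), F₀ M x ↔ Sat1 V M x

theorem isAL_sat1 (V : L1 R ι) : IsAL (R := R) (fun M _ _ x => ASat1 V M x)
    (fun M _ _ x => Sat1 V M x) := ⟨V, fun M _ _ x => Iff.rfl, fun M _ _ x => Iff.rfl⟩

theorem IsAL.congr {F G : AFam R ι} {F₀ G₀ : HFam R ι} (hF : IsAL F F₀)
    (h : ∀ (M : Type) [AddCommGroup M] [AfS R M] (x : ι → M), F M x ↔ G M x)
    (h₀ : ∀ (M : Type) [AddCommGroup M] [MoS R M] (x : ι → M), F₀ M x ↔ G₀ M x) :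
    IsAL G G₀ := by
  obtain ⟨φ, h1, h2⟩ := hF
  exact ⟨φ, fun M _ _ x => (h M x).symm.trans (h1 M x),
    fun M _ _ x => (h₀ M x).symm.trans (h2 M x)⟩

/-- homogeneous level-one relations in both readings -/
theorem isAL_hom {F : HFam R ι} (hF : IsL0 (R := R) (fun M _ _ x => F M x)) :
    IsAL (R := R) (fun M _ _ x => F M x) F := by
  obtain ⟨V, hV⟩ := hF
  refine ⟨hom1 V, fun M _ _ x => ?_, fun M _ _ x => ?_⟩
  · rw [asat1_hom1]
    exact hV M x
  · rw [sat1_hom1]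
    exact hV M x

/-- the general form of a level-one formula: any set of pairs, finitely many bound variables -/
theorem isAL_of_set [Finite κ] (𝒮 : Set (AFam R (ι ⊕ κ) × HFam R (ι ⊕ κ)))
    (h : ∀ p ∈ 𝒮, IsAP p.1 p.2) :
    IsAL (R := R) (fun M _ _ (x : ι → M) => ∃ t : κ → M, ∀ p ∈ 𝒮, p.1 M (Sum.elim x t))
      (fun M _ _ (x : ι → M) => ∃ t : κ → M, ∀ p ∈ 𝒮, p.2 M (Sum.elim x t)) := by
  obtain ⟨n, ⟨e⟩⟩ := Finite.exists_equiv_fin κ
  have h0 : ∀ p : 𝒮, ∃ φ : PP R (ι ⊕ Fin n),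
      (∀ (M : Type) [AddCommGroup M] [AfS R M] (x : ι ⊕ Fin n → M),
        p.1.1 M (x ∘ Sum.map id e) ↔ ASat φ M x) ∧
      ∀ (M : Type) [AddCommGroup M] [MoS R M] (x : ι ⊕ Fin n → M),
        p.1.2 M (x ∘ Sum.map id e) ↔ Sat φ M x := by
    intro p
    exact (h p.1 p.2).comap (Sum.map (id : ι → ι) e)
  choose f hf hf' using h0
  have he : ∀ (M : Type) (x : ι → M) (t : κ → M),
      Sum.elim x (t ∘ e.symm) ∘ Sum.map id e = Sum.elim x t := by
    intro M x t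
    funext i
    cases i <;> simp
  have he' : ∀ (M : Type) (x : ι → M) (t : Fin n → M),
      Sum.elim x t ∘ Sum.map id e = Sum.elim x (t ∘ e) := by
    intro M x t
    funext i
    cases i <;> simp
  refine ⟨⟨n, Set.range f⟩, fun M _ _ x => ?_, fun M _ _ x => ?_⟩
  · constructor
    · rintro ⟨t, ht⟩
      refine ⟨t ∘ e.symm, ?_⟩
      rintro _ ⟨p, rfl⟩
      rw [← hf, he]
      exact ht p.1 p.2
    · rintro ⟨t, ht⟩
      refine ⟨t ∘ e, fun p hp => ?_⟩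
      have h2 := (hf ⟨p, hp⟩ M _).mpr (ht _ ⟨⟨p, hp⟩, rfl⟩)
      rw [he'] at h2
      exact h2
  · constructor
    · rintro ⟨t, ht⟩
      refine ⟨t ∘ e.symm, ?_⟩
      rintro _ ⟨p, rfl⟩
      rw [← hf', he]
      exact ht p.1 p.2
    · rintro ⟨t, ht⟩
      refine ⟨t ∘ e, fun p hp => ?_⟩
      have h2 := (hf' ⟨p, hp⟩ M _).mpr (ht _ ⟨⟨p, hp⟩, rfl⟩)
      rw [he'] at h2
      exact h2

/-- a set of formulas is a level-one formula -/
theorem isAL_are (S : Set (PP R ι)) : IsAL (R := R) (fun M _ _ x => ARe S M x)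
    (fun M _ _ x => Re S M x) := by
  refine ⟨ofRe S, fun M _ _ x => ?_, fun M _ _ x => ?_⟩
  · rw [asat1_ofRe]
  · rw [sat1_ofRe]

theorem IsAP.isAL {F : AFam R ι} {F₀ : HFam R ι} (hF : IsAP F F₀) : IsAL F F₀ := by
  obtain ⟨φ, h1, h2⟩ := hF
  refine (isAL_are {φ}).congr (fun M _ _ x => ?_) (fun M _ _ x => ?_)
  · rw [h1]
    exact ⟨fun h => h φ (mem_singleton φ), fun h ψ hψ => by
      rw [mem_singleton_iff] at hψ
      rw [hψ]
      exact h⟩
  · rw [h2]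
    exact ⟨fun h => h φ (mem_singleton φ), fun h ψ hψ => by
      rw [mem_singleton_iff] at hψ
      rw [hψ]
      exact h⟩

theorem isAL_true : IsAL (R := R) (ι := ι) (fun M _ _ x => True) (fun M _ _ x => True) :=
  isAP_true.isAL

/-- linear substitution -/
theorem IsAL.subst {F : AFam R κ} {F₀ : HFam R κ} (hF : IsAL F F₀) (f : κ → (ι →₀ R)) :
    IsAL (R := R) (fun M _ _ (x : ι → M) => F M (fun i => Finsupp.linearCombination R x (f i)))
      (fun M _ _ (x : ι → M) => F₀ M (fun i => Finsupp.linearCombination R x (f i))) := by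
  obtain ⟨V, hV, hV'⟩ := hF
  refine (isAL_of_set (R := R) (ι := ι) (κ := Fin V.1)
    {p | ∃ φ ∈ V.2, p = (fun (M : Type) [AddCommGroup M] [AfS R M] (z : ι ⊕ Fin V.1 → M) =>
      ASat φ M (Sum.elim (fun i => Finsupp.linearCombination R (z ∘ Sum.inl) (f i)) (z ∘ Sum.inr)),
      fun (M : Type) [AddCommGroup M] [MoS R M] (z : ι ⊕ Fin V.1 → M) =>
      Sat φ M (Sum.elim (fun i => Finsupp.linearCombination R (z ∘ Sum.inl) (f i))
        (z ∘ Sum.inr)))} ?_).congr ?_ ?_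
  · rintro p ⟨φ, hφ, rfl⟩
    refine ((isAP_sat φ).subst (ι := ι ⊕ Fin V.1) (Sum.elim
      (fun i => (f i).mapDomain Sum.inl) (fun n => Finsupp.single (Sum.inr n) 1))).congr ?_ ?_
    · intro M _ _ x
      refine iff_of_eq ?_
      congr 1
      funext i
      cases i with
      | inl i =>
        simp only [Sum.elim_inl]
        rw [Finsupp.linearCombination_mapDomain]
      | inr n => simp
    · intro M _ _ x
      refine iff_of_eq ?_
      congr 1
      funext i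
      cases i with
      | inl i =>
        simp only [Sum.elim_inl]
        rw [Finsupp.linearCombination_mapDomain]
      | inr n => simp
  · intro M _ _ x
    rw [hV]
    unfold ASat1
    refine exists_congr fun t => ?_
    constructor
    · intro h φ hφ
      exact h _ ⟨φ, hφ, rfl⟩
    · rintro h p ⟨φ, hφ, rfl⟩
      exact h φ hφ
  · intro M _ _ x
    rw [hV']
    unfold Sat1
    refine exists_congr fun t => ?_
    constructor
    · intro h φ hφ
      exact h _ ⟨φ, hφ, rfl⟩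
    · rintro h p ⟨φ, hφ, rfl⟩
      exact h φ hφ

/-- renaming of variables -/
theorem IsAL.comap {F : AFam R κ} {F₀ : HFam R κ} (hF : IsAL F F₀) (f : κ → ι) :
    IsAL (R := R) (fun M _ _ (x : ι → M) => F M (x ∘ f))
      (fun M _ _ (x : ι → M) => F₀ M (x ∘ f)) := by
  obtain ⟨V, h1, h2⟩ := hF
  refine ⟨ren1 f V, fun M _ _ x => ?_, fun M _ _ x => ?_⟩
  · rw [asat1_ren1]
    exact h1 M _
  · rw [sat1_ren1]
    exact h2 M _

theorem IsAL.and {F G : AFam R ι} {F₀ G₀ : HFam R ι} (hF : IsAL F F₀) (hG : IsAL G G₀) :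
    IsAL (R := R) (fun M _ _ x => F M x ∧ G M x) (fun M _ _ x => F₀ M x ∧ G₀ M x) := by
  obtain ⟨V, hV, hV'⟩ := hF
  obtain ⟨W, hW, hW'⟩ := hG
  refine (isAL_of_set (R := R) (ι := ι) (κ := Fin V.1 ⊕ Fin W.1)
    ({p | ∃ φ ∈ V.2, p = (fun (M : Type) [AddCommGroup M] [AfS R M]
        (z : ι ⊕ (Fin V.1 ⊕ Fin W.1) → M) => ASat φ M (z ∘ Sum.map id Sum.inl),
        fun (M : Type) [AddCommGroup M] [MoS R M] (z : ι ⊕ (Fin V.1 ⊕ Fin W.1) → M) =>
        Sat φ M (z ∘ Sum.map id Sum.inl))} ∪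
      {p | ∃ φ ∈ W.2, p = (fun (M : Type) [AddCommGroup M] [AfS R M]
        (z : ι ⊕ (Fin V.1 ⊕ Fin W.1) → M) => ASat φ M (z ∘ Sum.map id Sum.inr),
        fun (M : Type) [AddCommGroup M] [MoS R M] (z : ι ⊕ (Fin V.1 ⊕ Fin W.1) → M) =>
        Sat φ M (z ∘ Sum.map id Sum.inr))}) ?_).congr ?_ ?_
  · rintro p (⟨φ, hφ, rfl⟩ | ⟨φ, hφ, rfl⟩)
    · exact (isAP_sat φ).comap _
    · exact (isAP_sat φ).comap _
  · intro M _ _ x
    rw [hV, hW]
    have h1 : ∀ t : Fin V.1 ⊕ Fin W.1 → M, Sum.elim x t ∘ Sum.map id Sum.inl =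
        Sum.elim x (t ∘ Sum.inl) := by
      intro t
      funext i
      cases i <;> rfl
    have h2 : ∀ t : Fin V.1 ⊕ Fin W.1 → M, Sum.elim x t ∘ Sum.map id Sum.inr =
        Sum.elim x (t ∘ Sum.inr) := by
      intro t
      funext i
      cases i <;> rfl
    constructor
    · rintro ⟨t, ht⟩
      refine ⟨⟨t ∘ Sum.inl, fun φ hφ => ?_⟩, ⟨t ∘ Sum.inr, fun φ hφ => ?_⟩⟩
      · rw [← h1]
        exact ht _ (Or.inl ⟨φ, hφ, rfl⟩)
      · rw [← h2]
        exact ht _ (Or.inr ⟨φ, hφ, rfl⟩)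
    · rintro ⟨⟨s, hs⟩, ⟨t, ht⟩⟩
      refine ⟨Sum.elim s t, ?_⟩
      rintro p (⟨φ, hφ, rfl⟩ | ⟨φ, hφ, rfl⟩)
      · show ASat φ M (Sum.elim x (Sum.elim s t) ∘ Sum.map id Sum.inl)
        rw [h1]
        exact hs φ hφ
      · show ASat φ M (Sum.elim x (Sum.elim s t) ∘ Sum.map id Sum.inr)
        rw [h2]
        exact ht φ hφ
  · intro M _ _ x
    rw [hV', hW']
    have h1 : ∀ t : Fin V.1 ⊕ Fin W.1 → M, Sum.elim x t ∘ Sum.map id Sum.inl =
        Sum.elim x (t ∘ Sum.inl) := by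
      intro t
      funext i
      cases i <;> rfl
    have h2 : ∀ t : Fin V.1 ⊕ Fin W.1 → M, Sum.elim x t ∘ Sum.map id Sum.inr =
        Sum.elim x (t ∘ Sum.inr) := by
      intro t
      funext i
      cases i <;> rfl
    constructor
    · rintro ⟨t, ht⟩
      refine ⟨⟨t ∘ Sum.inl, fun φ hφ => ?_⟩, ⟨t ∘ Sum.inr, fun φ hφ => ?_⟩⟩
      · rw [← h1]
        exact ht _ (Or.inl ⟨φ, hφ, rfl⟩)
      · rw [← h2]
        exact ht _ (Or.inr ⟨φ, hφ, rfl⟩)
    · rintro ⟨⟨s, hs⟩, ⟨t, ht⟩⟩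
      refine ⟨Sum.elim s t, ?_⟩
      rintro p (⟨φ, hφ, rfl⟩ | ⟨φ, hφ, rfl⟩)
      · show Sat φ M (Sum.elim x (Sum.elim s t) ∘ Sum.map id Sum.inl)
        rw [h1]
        exact hs φ hφ
      · show Sat φ M (Sum.elim x (Sum.elim s t) ∘ Sum.map id Sum.inr)
        rw [h2]
        exact ht φ hφ

theorem IsAL.ex [Finite κ] {F : AFam R (ι ⊕ κ)} {F₀ : HFam R (ι ⊕ κ)} (hF : IsAL F F₀) :
    IsAL (R := R) (fun M _ _ (x : ι → M) => ∃ y : κ → M, F M (Sum.elim x y))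
      (fun M _ _ (x : ι → M) => ∃ y : κ → M, F₀ M (Sum.elim x y)) := by
  obtain ⟨V, hV, hV'⟩ := hF
  refine (isAL_of_set (R := R) (ι := ι) (κ := κ ⊕ Fin V.1)
    {p | ∃ φ ∈ V.2, p = (fun (M : Type) [AddCommGroup M] [AfS R M]
      (z : ι ⊕ (κ ⊕ Fin V.1) → M) => ASat φ M (z ∘ (Equiv.sumAssoc ι κ (Fin V.1))),
      fun (M : Type) [AddCommGroup M] [MoS R M] (z : ι ⊕ (κ ⊕ Fin V.1) → M) =>
      Sat φ M (z ∘ (Equiv.sumAssoc ι κ (Fin V.1))))} ?_).congr ?_ ?_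
  · rintro p ⟨φ, hφ, rfl⟩
    exact (isAP_sat φ).comap _
  · intro M _ _ x
    have h1 : ∀ (y : κ → M) (t : Fin V.1 → M), Sum.elim x (Sum.elim y t) ∘
        (Equiv.sumAssoc ι κ (Fin V.1)) = Sum.elim (Sum.elim x y) t := by
      intro y t
      funext i
      rcases i with (i | i) | i <;> rfl
    constructor
    · rintro ⟨t, ht⟩
      refine ⟨t ∘ Sum.inl, ?_⟩
      rw [hV]
      refine ⟨t ∘ Sum.inr, fun φ hφ => ?_⟩
      rw [← h1]
      have := ht _ ⟨φ, hφ, rfl⟩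
      rwa [← Sum.elim_comp_inl_inr t] at this
    · rintro ⟨y, hy⟩
      rw [hV] at hy
      obtain ⟨t, ht⟩ := hy
      refine ⟨Sum.elim y t, ?_⟩
      rintro p ⟨φ, hφ, rfl⟩
      show ASat φ M (Sum.elim x (Sum.elim y t) ∘ (Equiv.sumAssoc ι κ (Fin V.1)))
      rw [h1]
      exact ht φ hφ
  · intro M _ _ x
    have h1 : ∀ (y : κ → M) (t : Fin V.1 → M), Sum.elim x (Sum.elim y t) ∘
        (Equiv.sumAssoc ι κ (Fin V.1)) = Sum.elim (Sum.elim x y) t := by
      intro y t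
      funext i
      rcases i with (i | i) | i <;> rfl
    constructor
    · rintro ⟨t, ht⟩
      refine ⟨t ∘ Sum.inl, ?_⟩
      rw [hV']
      refine ⟨t ∘ Sum.inr, fun φ hφ => ?_⟩
      rw [← h1]
      have := ht _ ⟨φ, hφ, rfl⟩
      rwa [← Sum.elim_comp_inl_inr t] at this
    · rintro ⟨y, hy⟩
      rw [hV'] at hy
      obtain ⟨t, ht⟩ := hy
      refine ⟨Sum.elim y t, ?_⟩
      rintro p ⟨φ, hφ, rfl⟩
      show Sat φ M (Sum.elim x (Sum.elim y t) ∘ (Equiv.sumAssoc ι κ (Fin V.1)))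
      rw [h1]
      exact ht φ hφ

/-- sum of an affine and a homogeneous level-one relation -/
theorem IsAL.add [Finite ι] {F : AFam R ι} {F₀ G : HFam R ι} (hF : IsAL F F₀)
    (hG : IsL0 (R := R) (fun M _ _ x => G M x)) :
    IsAL (R := R) (fun M _ _ x => ∃ y : ι → M, F M y ∧ G M (x - y))
      (fun M _ _ x => ∃ y : ι → M, F₀ M y ∧ G M (x - y)) := by
  have h1 : IsAL (R := R) (ι := ι ⊕ ι) (fun M _ _ z => F M (z ∘ Sum.inr))
      (fun M _ _ z => F₀ M (z ∘ Sum.inr)) := hF.comap Sum.inr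
  have h2 : IsAL (R := R) (ι := ι ⊕ ι) (fun M _ _ z => G M (fun i => z (Sum.inl i) - z (Sum.inr i)))
      (fun M _ _ z => G M (fun i => z (Sum.inl i) - z (Sum.inr i))) := by
    refine ((isAL_hom hG).subst (fun i : ι => Finsupp.single (Sum.inl i) (1 : R) -
      Finsupp.single (Sum.inr i) 1)).congr (fun M _ _ x => ?_) (fun M _ _ x => ?_)
    · simp [map_sub]
    · simp [map_sub]
  exact (h1.and h2).ex.congr (fun M _ _ x => Iff.rfl) (fun M _ _ x => Iff.rfl)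

/-- the pair consists of an affine family and its direction -/
theorem IsAL.iff {F : AFam R ι} {F₀ : HFam R ι} (hF : IsAL F F₀) {M : Type} [AddCommGroup M]
    [AfS R M] {x y : ι → M} (h : F M x) : F M y ↔ F₀ M (y - x) := by
  obtain ⟨φ, h1, h2⟩ := hF
  rw [h1] at h
  rw [h1, h2]
  exact ASat1.iff h

end Pool.Agent.AVC
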