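import Pool.Agent.AVC.Defs

/-!
# Positive primitive formulas: closure properties
-/

set_option autoImplicit false
set_option linter.unusedSectionVars false
set_option linter.unusedVariables false

namespace Pool.Agent.AVC

open Set

variable {R : Type} [RSig R] {ι κ : Type}
variable {M N : Type} [AddCommGroup M] [MoS R M] [AddCommGroup N] [MoS R N]

/-! ### Atomic formulas -/

section hold

variable {α β : Type}

/-- renaming of the variables of an atomic formula -/
noncomputable def amap (f : α → β) : Atm R α → Atm R β :=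
  Sum.map (Finsupp.mapDomain f) (fun p => ⟨p.1, p.2.1, fun j => (p.2.2 j).mapDomain f⟩)

/-- linear substitution in an atomic formula -/
noncomputable def asub (w : α → (β →₀ R)) : Atm R α → Atm R β :=
  Sum.map (fun e => Finsupp.linearCombination R w e)
    (fun p => ⟨p.1, p.2.1, fun j => Finsupp.linearCombination R w (p.2.2 j)⟩)

theorem hold_amap (f : α → β) (a : Atm R α) (x : β → M) :
    Hold (amap f a) M x ↔ Hold a M (x ∘ f) := by
  rcases a with e | ⟨i, b, t⟩
  · show Finsupp.linearCombination R x (e.mapDomain f) = 0 ↔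
      Finsupp.linearCombination R (x ∘ f) e = 0
    rw [Finsupp.linearCombination_mapDomain]
  · show (fun j => Finsupp.linearCombination R x ((t j).mapDomain f)) ∈ MoS.P i ↔
      (fun j => Finsupp.linearCombination R (x ∘ f) (t j)) ∈ MoS.P i
    have h1 : (fun j => Finsupp.linearCombination R x ((t j).mapDomain f)) =
        fun j => Finsupp.linearCombination R (x ∘ f) (t j) := by
      funext j
      rw [Finsupp.linearCombination_mapDomain]
    rw [h1]

theorem lc_lc (w : α → (β →₀ R)) (x : β → M) (e : α →₀ R) :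
    Finsupp.linearCombination R x (Finsupp.linearCombination R w e) =
      Finsupp.linearCombination R (fun i => Finsupp.linearCombination R x (w i)) e := by
  rw [LinearMap.map_finsupp_linearCombination]
  rfl

theorem hold_asub (w : α → (β →₀ R)) (a : Atm R α) (x : β → M) :
    Hold (asub w a) M x ↔ Hold a M (fun i => Finsupp.linearCombination R x (w i)) := by
  rcases a with e | ⟨i, b, t⟩
  · show Finsupp.linearCombination R x (Finsupp.linearCombination R w e) = 0 ↔
      Finsupp.linearCombination R (fun i => Finsupp.linearCombination R x (w i)) e = 0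
    rw [lc_lc]
  · show (fun j => Finsupp.linearCombination R x (Finsupp.linearCombination R w (t j))) ∈
        MoS.P i ↔ (fun j => Finsupp.linearCombination R
          (fun i => Finsupp.linearCombination R x (w i)) (t j)) ∈ MoS.P i
    have h1 : (fun j => Finsupp.linearCombination R x (Finsupp.linearCombination R w (t j))) =
        fun j => Finsupp.linearCombination R
          (fun i => Finsupp.linearCombination R x (w i)) (t j) := by
      funext j
      rw [lc_lc]
    rw [h1]

theorem lc_hm (u : Hm R M N) (x : α → M) (e : α →₀ R) :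
    Finsupp.linearCombination R (u ∘ x) e = u (Finsupp.linearCombination R x e) := by
  have h1 := LinearMap.map_finsupp_linearCombination u.toLinearMap (g := x) (l := e)
  exact h1.symm

theorem Hold.map {a : Atm R α} {x : α → M} (h : Hold a M x) (u : Hm R M N) : Hold a N (u ∘ x) := by
  rcases a with e | ⟨i, b, t⟩
  · show Finsupp.linearCombination R (u ∘ x) e = 0
    rw [lc_hm]
    have h1 : Finsupp.linearCombination R x e = 0 := h
    rw [h1, map_zero]
  · show (fun j => Finsupp.linearCombination R (u ∘ x) (t j)) ∈ MoS.P i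
    have h1 : (fun j => Finsupp.linearCombination R (u ∘ x) (t j)) =
        fun j => u (Finsupp.linearCombination R x (t j)) := by
      funext j
      rw [lc_hm]
    rw [h1]
    exact u.pres i _ h

theorem lc_add (x y : α → M) (e : α →₀ R) : Finsupp.linearCombination R (x + y) e =
    Finsupp.linearCombination R x e + Finsupp.linearCombination R y e := by
  simp [Finsupp.linearCombination_apply, Finsupp.sum, smul_add, Finset.sum_add_distrib]

theorem lc_neg (x : α → M) (e : α →₀ R) : Finsupp.linearCombination R (-x) e =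
    - Finsupp.linearCombination R x e := by
  simp [Finsupp.linearCombination_apply, Finsupp.sum, smul_neg, Finset.sum_neg_distrib]

theorem lc_zero (e : α →₀ R) : Finsupp.linearCombination R (0 : α → M) e = 0 := by
  simp [Finsupp.linearCombination_apply, Finsupp.sum]

theorem Hold.zero (a : Atm R α) : Hold a M (0 : α → M) := by
  rcases a with e | ⟨i, b, t⟩
  · exact lc_zero e
  · show (fun j => Finsupp.linearCombination R (0 : α → M) (t j)) ∈ MoS.P i
    have h1 : (fun j => Finsupp.linearCombination R (0 : α → M) (t j)) = 0 := by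
      funext j
      exact lc_zero (t j)
    rw [h1]
    exact (MoS.P i).zero_mem

theorem Hold.add {a : Atm R α} {x y : α → M} (h : Hold a M x) (h' : Hold a M y) :
    Hold a M (x + y) := by
  rcases a with e | ⟨i, b, t⟩
  · show Finsupp.linearCombination R (x + y) e = 0
    have h1 : Finsupp.linearCombination R x e = 0 := h
    have h2 : Finsupp.linearCombination R y e = 0 := h'
    rw [lc_add, h1, h2, add_zero]
  · show (fun j => Finsupp.linearCombination R (x + y) (t j)) ∈ MoS.P i
    have h1 : (fun j => Finsupp.linearCombination R (x + y) (t j)) =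
        (fun j => Finsupp.linearCombination R x (t j)) +
          fun j => Finsupp.linearCombination R y (t j) := by
      funext j
      exact lc_add x y (t j)
    rw [h1]
    exact (MoS.P i).add_mem h h'

theorem Hold.neg {a : Atm R α} {x : α → M} (h : Hold a M x) : Hold a M (-x) := by
  rcases a with e | ⟨i, b, t⟩
  · show Finsupp.linearCombination R (-x) e = 0
    have h1 : Finsupp.linearCombination R x e = 0 := h
    rw [lc_neg, h1, neg_zero]
  · show (fun j => Finsupp.linearCombination R (-x) (t j)) ∈ MoS.P i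
    have h1 : (fun j => Finsupp.linearCombination R (-x) (t j)) =
        -(fun j => Finsupp.linearCombination R x (t j)) := by
      funext j
      exact lc_neg x (t j)
    rw [h1]
    exact (MoS.P i).neg_mem h

theorem lc_fst (x : α → M × N) (e : α →₀ R) :
    (Finsupp.linearCombination R x e).1 = Finsupp.linearCombination R (fun i => (x i).1) e :=
  LinearMap.map_finsupp_linearCombination (LinearMap.fst R M N) (g := x) (l := e)

theorem lc_snd (x : α → M × N) (e : α →₀ R) :
    (Finsupp.linearCombination R x e).2 = Finsupp.linearCombination R (fun i => (x i).2) e :=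
  LinearMap.map_finsupp_linearCombination (LinearMap.snd R M N) (g := x) (l := e)

theorem hold_prod {a : Atm R α} {x : α → M × N} :
    Hold a (M × N) x ↔ Hold a M (fun i => (x i).1) ∧ Hold a N (fun i => (x i).2) := by
  rcases a with e | ⟨i, b, t⟩
  · show Finsupp.linearCombination R x e = 0 ↔
      Finsupp.linearCombination R (fun i => (x i).1) e = 0 ∧
        Finsupp.linearCombination R (fun i => (x i).2) e = 0
    rw [← lc_fst, ← lc_snd, Prod.ext_iff]
    exact Iff.rfl
  · show ((fun j => (Finsupp.linearCombination R x (t j)).1) ∈ MoS.P (R := R) (M := M) i ∧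
      (fun j => (Finsupp.linearCombination R x (t j)).2) ∈ MoS.P (R := R) (M := N) i) ↔
      (fun j => Finsupp.linearCombination R (fun i => (x i).1) (t j)) ∈ MoS.P i ∧
        (fun j => Finsupp.linearCombination R (fun i => (x i).2) (t j)) ∈ MoS.P i
    have h1 : (fun j => (Finsupp.linearCombination R x (t j)).1) =
        fun j => Finsupp.linearCombination R (fun i => (x i).1) (t j) := by
      funext j
      exact lc_fst x (t j)
    have h2 : (fun j => (Finsupp.linearCombination R x (t j)).2) =
        fun j => Finsupp.linearCombination R (fun i => (x i).2) (t j) := by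
      funext j
      exact lc_snd x (t j)
    rw [h1, h2]

theorem lc_proj {A : Type} {Q : A → Type} [∀ a, AddCommGroup (Q a)] [∀ a, MoS R (Q a)]
    (x : α → ∀ a, Q a) (e : α →₀ R) (a : A) :
    (Finsupp.linearCombination R x e) a = Finsupp.linearCombination R (fun i => x i a) e :=
  LinearMap.map_finsupp_linearCombination (LinearMap.proj (R := R) (φ := Q) a) (g := x) (l := e)

theorem hold_pi {A : Type} {Q : A → Type} [∀ a, AddCommGroup (Q a)] [∀ a, MoS R (Q a)]
    {e : Atm R α} {x : α → ∀ a, Q a} :
    Hold e (∀ a, Q a) x ↔ ∀ a, Hold e (Q a) (fun i => x i a) := by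
  rcases e with e | ⟨i, b, t⟩
  · show Finsupp.linearCombination R x e = 0 ↔
      ∀ a, Finsupp.linearCombination R (fun i => x i a) e = 0
    constructor
    · intro h a
      rw [← lc_proj, h]
      rfl
    · intro h
      funext a
      rw [lc_proj, h a]
      rfl
  · show (∀ a, (fun j => (Finsupp.linearCombination R x (t j)) a) ∈
      MoS.P (R := R) (M := Q a) i) ↔
      ∀ a, (fun j => Finsupp.linearCombination R (fun i => x i a) (t j)) ∈ MoS.P i
    refine forall_congr' fun a => ?_
    have h1 : (fun j => (Finsupp.linearCombination R x (t j)) a) =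
        fun j => Finsupp.linearCombination R (fun i => x i a) (t j) := by
      funext j
      exact lc_proj x (t j) a
    rw [h1]

theorem lc_dfin {A : Type} {Q : A → Type} [∀ a, AddCommGroup (Q a)] [∀ a, MoS R (Q a)]
    (x : α → Π₀ a, Q a) (e : α →₀ R) (a : A) :
    (Finsupp.linearCombination R x e) a = Finsupp.linearCombination R (fun i => x i a) e :=
  (lc_hm (Hm.dproj (R := R) (Q := Q) a) x e).symm

theorem hold_dfin {A : Type} {Q : A → Type} [∀ a, AddCommGroup (Q a)] [∀ a, MoS R (Q a)]
    {e : Atm R α} {x : α → Π₀ a, Q a} :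
    Hold e (Π₀ a, Q a) x ↔ ∀ a, Hold e (Q a) (fun i => x i a) := by
  rcases e with e | ⟨i, b, t⟩
  · show Finsupp.linearCombination R x e = 0 ↔
      ∀ a, Finsupp.linearCombination R (fun i => x i a) e = 0
    constructor
    · intro h a
      rw [← lc_dfin, h]
      rfl
    · intro h
      refine DFinsupp.ext fun a => ?_
      rw [lc_dfin, h a]
      rfl
  · show (∀ a, (fun j => (Finsupp.linearCombination R x (t j)) a) ∈
      MoS.P (R := R) (M := Q a) i) ↔
      ∀ a, (fun j => Finsupp.linearCombination R (fun i => x i a) (t j)) ∈ MoS.P i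
    refine forall_congr' fun a => ?_
    have h1 : (fun j => (Finsupp.linearCombination R x (t j)) a) =
        fun j => Finsupp.linearCombination R (fun i => x i a) (t j) := by
      funext j
      exact lc_dfin x (t j) a
    rw [h1]

/-- the variables which occur in an atomic formula -/
noncomputable def asup (a : Atm R α) : Finset α := by
  classical
  exact match a with
  | Sum.inl e => e.support
  | Sum.inr ⟨_, _, t⟩ => Finset.univ.biUnion fun j => (t j).support

theorem lc_congr {x x' : α → M} {e : α →₀ R} (h : ∀ s ∈ e.support, x s = x' s) :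
    Finsupp.linearCombination R x e = Finsupp.linearCombination R x' e := by
  rw [Finsupp.linearCombination_apply, Finsupp.linearCombination_apply]
  exact Finset.sum_congr rfl fun s hs => by
    show e s • x s = e s • x' s
    rw [h s hs]

/-- an atomic formula depends only on the variables which occur in it -/
theorem hold_congr {a : Atm R α} {x x' : α → M} (h : ∀ s ∈ asup a, x s = x' s) :
    Hold a M x ↔ Hold a M x' := by
  classical
  rcases a with e | ⟨i, b, t⟩
  · show Finsupp.linearCombination R x e = 0 ↔ Finsupp.linearCombination R x' e = 0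
    rw [lc_congr (x := x) (x' := x') h]
  · show (fun j => Finsupp.linearCombination R x (t j)) ∈ MoS.P i ↔
      (fun j => Finsupp.linearCombination R x' (t j)) ∈ MoS.P i
    have h1 : (fun j => Finsupp.linearCombination R x (t j)) =
        fun j => Finsupp.linearCombination R x' (t j) := by
      funext j
      refine lc_congr fun s hs => h s ?_
      exact Finset.mem_biUnion.mpr ⟨j, Finset.mem_univ j, hs⟩
    rw [h1]

end hold

/-- a bound for the bound variables of a formula -/
theorem pp_bd (φ : PP R ι) : ∃ B : ℕ, ∀ e ∈ φ, ∀ n, Sum.inr n ∈ asup e → n < B := by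
  induction φ with
  | nil => exact ⟨0, fun e he => absurd he List.not_mem_nil⟩
  | cons a l ih =>
    obtain ⟨B, hB⟩ := ih
    refine ⟨max B ((asup a).sup (Sum.elim (fun _ => 0) (fun n => n + 1))), fun e he n hn => ?_⟩
    rcases List.mem_cons.1 he with rfl | he
    · have h1 := Finset.le_sup (f := (Sum.elim (fun _ => 0) (fun n => n + 1) : ι ⊕ ℕ → ℕ)) hn
      have h2 : n + 1 ≤ (asup e).sup (Sum.elim (fun _ => 0) (fun n => n + 1)) := h1
      exact lt_of_lt_of_le (Nat.lt_of_succ_le h2) (le_max_right _ _)
    · exact lt_of_lt_of_le (hB e he n hn) (le_max_left _ _)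

theorem Sat.map {φ : PP R ι} {x : ι → M} (h : Sat φ M x) (u : Hm R M N) : Sat φ N (u ∘ x) := by
  obtain ⟨y, hy⟩ := h
  refine ⟨u ∘ y, fun e he => ?_⟩
  have h1 := (hy e he).map u
  rw [Sum.comp_elim] at h1
  exact h1

theorem Sat.zero (φ : PP R ι) : Sat φ M (0 : ι → M) := by
  refine ⟨0, fun e he => ?_⟩
  have : (Sum.elim (0 : ι → M) (0 : ℕ → M)) = 0 := by
    funext i
    cases i <;> rfl
  rw [this]
  exact Hold.zero e

theorem Sat.add {φ : PP R ι} {x y : ι → M} (h : Sat φ M x) (h' : Sat φ M y) :
    Sat φ M (x + y) := by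
  obtain ⟨u, hu⟩ := h
  obtain ⟨v, hv⟩ := h'
  refine ⟨u + v, fun e he => ?_⟩
  have h1 : Sum.elim (x + y) (u + v) = Sum.elim x u + Sum.elim y v := by
    funext i
    cases i <;> rfl
  rw [h1]
  exact (hu e he).add (hv e he)

theorem Sat.neg {φ : PP R ι} {x : ι → M} (h : Sat φ M x) : Sat φ M (-x) := by
  obtain ⟨u, hu⟩ := h
  refine ⟨-u, fun e he => ?_⟩
  have h1 : Sum.elim (-x) (-u) = -Sum.elim x u := by
    funext i
    cases i <;> rfl
  rw [h1]
  exact (hu e he).neg

theorem Sat.sub {φ : PP R ι} {x y : ι → M} (h : Sat φ M x) (h' : Sat φ M y) :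
    Sat φ M (x - y) := by
  rw [sub_eq_add_neg]
  exact h.add h'.neg

/-- the subgroup defined by a formula -/
def satGroup (φ : PP R ι) (M : Type) [AddCommGroup M] [MoS R M] : AddSubgroup (ι → M) where
  carrier := {x | Sat φ M x}
  add_mem' := Sat.add
  zero_mem' := Sat.zero φ
  neg_mem' := Sat.neg

theorem mem_satGroup {φ : PP R ι} {x : ι → M} : x ∈ satGroup φ M ↔ Sat φ M x := Iff.rfl

theorem sat_prod {φ : PP R ι} {x : ι → M × N} :
    Sat φ (M × N) x ↔ Sat φ M (fun i => (x i).1) ∧ Sat φ N (fun i => (x i).2) := by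
  constructor
  · intro h
    exact ⟨h.map (Hm.fst R M N), h.map (Hm.snd R M N)⟩
  · rintro ⟨⟨y, hy⟩, ⟨z, hz⟩⟩
    refine ⟨fun n => (y n, z n), fun e he => ?_⟩
    rw [hold_prod]
    have h1 : (fun i => ((Sum.elim x fun n => (y n, z n)) i).1) =
        Sum.elim (fun i => (x i).1) y := by
      funext i
      cases i <;> rfl
    have h2 : (fun i => ((Sum.elim x fun n => (y n, z n)) i).2) =
        Sum.elim (fun i => (x i).2) z := by
      funext i
      cases i <;> rfl
    rw [h1, h2]
    exact ⟨hy e he, hz e he⟩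

theorem sat_pi {A : Type} {Q : A → Type} [∀ a, AddCommGroup (Q a)] [∀ a, MoS R (Q a)]
    {φ : PP R ι} {x : ι → ∀ a, Q a} :
    Sat φ (∀ a, Q a) x ↔ ∀ a, Sat φ (Q a) (fun i => x i a) := by
  constructor
  · intro h a
    exact h.map (Hm.proj a)
  · intro h
    choose y hy using h
    refine ⟨fun n a => y a n, fun e he => ?_⟩
    rw [hold_pi]
    intro a
    have h1 : (fun i => (Sum.elim x fun n a => y a n) i a) =
        Sum.elim (fun i => x i a) (y a) := by
      funext i
      cases i <;> rfl
    rw [h1]
    exact hy a e he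

/-! ### Closure properties of `IsPP` -/

theorem isPP_sat (φ : PP R ι) : IsPP (R := R) (fun M _ _ x => Sat φ M x) :=
  ⟨φ, fun M _ _ x => Iff.rfl⟩

theorem IsPP.congr {F G : ∀ (M : Type) [AddCommGroup M] [MoS R M], (ι → M) → Prop}
    (hF : IsPP F) (h : ∀ (M : Type) [AddCommGroup M] [MoS R M] (x : ι → M), F M x ↔ G M x) :
    IsPP G := by
  obtain ⟨φ, hφ⟩ := hF
  exact ⟨φ, fun M _ _ x => (h M x).symm.trans (hφ M x)⟩

theorem isPP_true : IsPP (R := R) (ι := ι) (fun M _ _ x => True) :=
  ⟨[], fun M _ _ x => by simp [Sat]⟩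

theorem isPP_lin (e : ι →₀ R) :
    IsPP (R := R) (fun M _ _ x => Finsupp.linearCombination R x e = 0) := by
  refine ⟨[amap Sum.inl (Sum.inl e)], fun M _ _ x => ?_⟩
  constructor
  · intro h
    refine ⟨0, fun e' he' => ?_⟩
    rw [List.mem_singleton] at he'
    subst he'
    rw [hold_amap]
    exact h
  · rintro ⟨y, hy⟩
    have := hy _ (List.mem_singleton_self _)
    rw [hold_amap] at this
    exact this

/-- atomic formulas -/
theorem isPP_hold (a : Atm R ι) : IsPP (R := R) (fun M _ _ x => Hold a M x) := by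
  refine ⟨[amap Sum.inl a], fun M _ _ x => ?_⟩
  constructor
  · intro h
    refine ⟨0, fun e' he' => ?_⟩
    rw [List.mem_singleton] at he'
    subst he'
    rw [hold_amap]
    exact h
  · rintro ⟨y, hy⟩
    have := hy _ (List.mem_singleton_self _)
    rw [hold_amap] at this
    exact this

/-- renaming of variables -/
theorem IsPP.comap {F : ∀ (M : Type) [AddCommGroup M] [MoS R M], (κ → M) → Prop}
    (hF : IsPP F) (f : κ → ι) : IsPP (R := R) (fun M _ _ (x : ι → M) => F M (x ∘ f)) := by
  obtain ⟨φ, hφ⟩ := hF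
  refine ⟨φ.map (amap (Sum.map f id)), fun M _ _ x => (hφ M _).trans ?_⟩
  unfold Sat
  refine exists_congr fun y => ?_
  have h1 : ∀ e : Atm R (κ ⊕ ℕ), Hold (amap (Sum.map f id) e) M (Sum.elim x y) ↔
      Hold e M (Sum.elim (x ∘ f) y) := by
    intro e
    rw [hold_amap]
    have h2 : (Sum.elim x y : ι ⊕ ℕ → M) ∘ Sum.map f id = Sum.elim (x ∘ f) y := by
      funext i
      cases i <;> rfl
    rw [h2]
  constructor
  · intro h e' he'
    obtain ⟨e, he, rfl⟩ := List.mem_map.mp he'
    rw [h1]
    exact h e he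
  · intro h e he
    rw [← h1]
    exact h _ (List.mem_map_of_mem he)

/-- linear substitution -/
theorem IsPP.subst {F : ∀ (M : Type) [AddCommGroup M] [MoS R M], (κ → M) → Prop}
    (hF : IsPP F) (f : κ → (ι →₀ R)) :
    IsPP (R := R) (fun M _ _ (x : ι → M) =>
      F M (fun i => Finsupp.linearCombination R x (f i))) := by
  obtain ⟨φ, hφ⟩ := hF
  let w : κ ⊕ ℕ → ((ι ⊕ ℕ) →₀ R) :=
    Sum.elim (fun k => (f k).mapDomain Sum.inl) (fun n => Finsupp.single (Sum.inr n) 1)
  refine ⟨φ.map (asub w), fun M _ _ x => (hφ M _).trans ?_⟩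
  unfold Sat
  refine exists_congr fun y => ?_
  have h1 : ∀ e : Atm R (κ ⊕ ℕ), Hold (asub w e) M (Sum.elim x y) ↔
      Hold e M (Sum.elim (fun i => Finsupp.linearCombination R x (f i)) y) := by
    intro e
    rw [hold_asub]
    have h2 : (fun i => Finsupp.linearCombination R (Sum.elim x y) (w i)) =
        Sum.elim (fun i => Finsupp.linearCombination R x (f i)) y := by
      funext i
      cases i with
      | inl i =>
        simp only [w, Sum.elim_inl]
        rw [Finsupp.linearCombination_mapDomain]
        rfl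
      | inr n => simp [w]
    rw [h2]
  constructor
  · intro h e' he'
    obtain ⟨e, he, rfl⟩ := List.mem_map.mp he'
    rw [h1]
    exact h e he
  · intro h e he
    rw [← h1]
    exact h _ (List.mem_map_of_mem he)

theorem IsPP.and {F G : ∀ (M : Type) [AddCommGroup M] [MoS R M], (ι → M) → Prop}
    (hF : IsPP F) (hG : IsPP G) : IsPP (R := R) (fun M _ _ x => F M x ∧ G M x) := by
  obtain ⟨φ, hφ⟩ := hF
  obtain ⟨ψ, hψ⟩ := hG
  let r1 : ι ⊕ ℕ → ι ⊕ ℕ := Sum.map id (fun n => 2 * n)
  let r2 : ι ⊕ ℕ → ι ⊕ ℕ := Sum.map id (fun n => 2 * n + 1)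
  refine ⟨φ.map (amap r1) ++ ψ.map (amap r2),
    fun M _ _ x => (and_congr (hφ M x) (hψ M x)).trans ?_⟩
  have h1 : ∀ (y : ℕ → M) (e : Atm R (ι ⊕ ℕ)), Hold (amap r1 e) M (Sum.elim x y) ↔
      Hold e M (Sum.elim x (fun n => y (2 * n))) := by
    intro y e
    rw [hold_amap]
    have h3 : (Sum.elim x y : ι ⊕ ℕ → M) ∘ r1 = Sum.elim x (fun n => y (2 * n)) := by
      funext i
      cases i <;> rfl
    rw [h3]
  have h2 : ∀ (y : ℕ → M) (e : Atm R (ι ⊕ ℕ)), Hold (amap r2 e) M (Sum.elim x y) ↔
      Hold e M (Sum.elim x (fun n => y (2 * n + 1))) := by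
    intro y e
    rw [hold_amap]
    have h3 : (Sum.elim x y : ι ⊕ ℕ → M) ∘ r2 = Sum.elim x (fun n => y (2 * n + 1)) := by
      funext i
      cases i <;> rfl
    rw [h3]
  constructor
  · rintro ⟨⟨y, hy⟩, ⟨z, hz⟩⟩
    refine ⟨fun n => if n % 2 = 0 then y (n / 2) else z (n / 2), fun e' he' => ?_⟩
    rcases List.mem_append.mp he' with he' | he'
    · obtain ⟨e, he, rfl⟩ := List.mem_map.mp he'
      rw [h1]
      have : (fun n => if (2 * n) % 2 = 0 then y (2 * n / 2) else z (2 * n / 2)) = y := by
        funext n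
        simp
      rw [this]
      exact hy e he
    · obtain ⟨e, he, rfl⟩ := List.mem_map.mp he'
      rw [h2]
      have : (fun n => if (2 * n + 1) % 2 = 0 then y ((2 * n + 1) / 2)
          else z ((2 * n + 1) / 2)) = z := by
        funext n
        have h3 : (2 * n + 1) % 2 = 1 := by omega
        have h4 : (2 * n + 1) / 2 = n := by omega
        rw [h3, h4]
        simp
      rw [this]
      exact hz e he
  · rintro ⟨y, hy⟩
    refine ⟨⟨fun n => y (2 * n), fun e he => ?_⟩, ⟨fun n => y (2 * n + 1), fun e he => ?_⟩⟩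
    · rw [← h1]
      exact hy _ (List.mem_append_left _ (List.mem_map_of_mem he))
    · rw [← h2]
      exact hy _ (List.mem_append_right _ (List.mem_map_of_mem he))

theorem IsPP.ex [Countable κ] {F : ∀ (M : Type) [AddCommGroup M] [MoS R M], (ι ⊕ κ → M) → Prop}
    (hF : IsPP F) :
    IsPP (R := R) (fun M _ _ (x : ι → M) => ∃ y : κ → M, F M (Sum.elim x y)) := by
  obtain ⟨φ, hφ⟩ := hF
  obtain ⟨g, hg⟩ := Countable.exists_injective_nat (κ ⊕ ℕ)
  let r : (ι ⊕ κ) ⊕ ℕ → ι ⊕ ℕ :=
    Sum.elim (Sum.elim Sum.inl (fun k => Sum.inr (g (Sum.inl k)))) (fun n => Sum.inr (g (Sum.inr n)))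
  refine ⟨φ.map (amap r), fun M _ _ x => ?_⟩
  have h1 : ∀ (y : ℕ → M) (e : Atm R ((ι ⊕ κ) ⊕ ℕ)), Hold (amap r e) M (Sum.elim x y) ↔
      Hold e M (Sum.elim (Sum.elim x (fun k => y (g (Sum.inl k))))
        (fun n => y (g (Sum.inr n)))) := by
    intro y e
    rw [hold_amap]
    have h3 : (Sum.elim x y : ι ⊕ ℕ → M) ∘ r =
        Sum.elim (Sum.elim x (fun k => y (g (Sum.inl k)))) (fun n => y (g (Sum.inr n))) := by
      funext i
      rcases i with (i | i) | i <;> rfl
    rw [h3]
  constructor
  · rintro ⟨y, hy⟩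
    rw [hφ] at hy
    obtain ⟨z, hz⟩ := hy
    refine ⟨Function.extend g (Sum.elim y z) 0, fun e' he' => ?_⟩
    obtain ⟨e, he, rfl⟩ := List.mem_map.mp he'
    rw [h1]
    simp only [hg.extend_apply, Sum.elim_inl, Sum.elim_inr]
    exact hz e he
  · rintro ⟨y, hy⟩
    refine ⟨fun k => y (g (Sum.inl k)), ?_⟩
    rw [hφ]
    refine ⟨fun n => y (g (Sum.inr n)), fun e he => ?_⟩
    rw [← h1]
    exact hy _ (List.mem_map_of_mem he)

/-- finite conjunctions -/
theorem isPP_list (l : List (PP R ι)) : IsPP (R := R) (fun M _ _ x => ∀ φ ∈ l, Sat φ M x) := by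
  induction l with
  | nil => exact isPP_true.congr (fun M _ _ x => by simp)
  | cons φ l ih => exact ((isPP_sat φ).and ih).congr (fun M _ _ x => by simp)

theorem isPP_finset (s : Finset (PP R ι)) :
    IsPP (R := R) (fun M _ _ x => ∀ φ ∈ s, Sat φ M x) := by
  classical
  exact (isPP_list s.toList).congr (fun M _ _ x => by simp)

/-- sums of formulas -/
theorem IsPP.sum {F G : ∀ (M : Type) [AddCommGroup M] [MoS R M], (ι → M) → Prop}
    [Countable ι] (hF : IsPP F) (hG : IsPP G) :
    IsPP (R := R) (fun M _ _ x => ∃ y : ι → M, F M y ∧ G M (x - y)) := by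
  have h1 : IsPP (R := R) (ι := ι ⊕ ι) (fun M _ _ z => F M (z ∘ Sum.inr)) := hF.comap Sum.inr
  have h2 : IsPP (R := R) (ι := ι ⊕ ι) (fun M _ _ z => G M (fun i => z (Sum.inl i) - z (Sum.inr i))) := by
    refine (hG.subst (fun i : ι => Finsupp.single (Sum.inl i) (1 : R) -
      Finsupp.single (Sum.inr i) 1)).congr (fun M _ _ x => ?_)
    simp [map_sub]
  exact (h1.and h2).ex.congr (fun M _ _ x => Iff.rfl)

/-- images of a formula under a relation -/
theorem IsPP.image [Countable ι] {F : ∀ (M : Type) [AddCommGroup M] [MoS R M], (ι → M) → Prop}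
    {G : ∀ (M : Type) [AddCommGroup M] [MoS R M], (ι ⊕ κ → M) → Prop}
    (hF : IsPP F) (hG : IsPP G) :
    IsPP (R := R) (fun M _ _ (y : κ → M) => ∃ x : ι → M, F M x ∧ G M (Sum.elim x y)) := by
  have h1 : IsPP (R := R) (ι := κ ⊕ ι) (fun M _ _ z => F M (z ∘ Sum.inr)) := hF.comap Sum.inr
  have h2 : IsPP (R := R) (ι := κ ⊕ ι) (fun M _ _ z => G M (z ∘ Sum.elim Sum.inr Sum.inl)) :=
    hG.comap (Sum.elim Sum.inr Sum.inl)
  refine (h1.and h2).ex.congr (fun M _ _ y => ?_)
  refine exists_congr fun x => and_congr Iff.rfl (iff_of_eq ?_)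
  congr 1
  funext i
  cases i <;> rfl

instance [Countable R] [Countable ι] : Countable (PP R ι) := by
  have _ : Countable ((i : RSig.Ix R) × (Bool × (Fin (RSig.ar i) → ((ι ⊕ ℕ) →₀ R)))) := inferInstance
  unfold PP Atm
  infer_instance

end Pool.Agent.AVC
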