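import Pool.Agent.AVC.Api

/-!
# The class, entailment, principal parts, null maps
-/

set_option autoImplicit false
set_option linter.unusedSectionVars false
set_option linter.unusedVariables false

namespace Pool.Agent.AVC

open Set Ax

variable {R : Type} [RSig R] {ι κ : Type} {X : Ax R}
variable {M N K : Type} [AddCommGroup M] [MoS R M] [AddCommGroup N] [MoS R N]
  [AddCommGroup K] [MoS R K]

/-! ### The class -/

theorem Ax.In.prod (hM : X.In M) (hN : X.In N) : X.In (M × N) := by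
  intro a ha x hx
  rw [sat_prod] at hx ⊢
  exact ⟨hM a ha _ hx.1, hN a ha _ hx.2⟩

theorem Ax.In.pi {A : Type} {Q : A → Type} [∀ a, AddCommGroup (Q a)] [∀ a, MoS R (Q a)]
    (h : ∀ a, X.In (Q a)) : X.In (∀ a, Q a) := by
  intro a ha x hx
  rw [sat_pi] at hx ⊢
  exact fun b => h b a ha _ (hx b)

theorem Ax.In.punit : X.In PUnit.{1} := by
  intro a ha x hx
  have : x = 0 := by
    funext i
    rfl
  rw [this]
  exact Sat.zero _

theorem Ax.In.of_equiv (e : Ie R M N) (h : X.In M) : X.In N := by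
  intro a ha x hx
  have h1 := h a ha _ (hx.map (e.symm : Hm R N M))
  have h2 := h1.map (e : Hm R M N)
  have h3 : (e : Hm R M N) ∘ ((e.symm : Hm R N M) ∘ x) = x := by
    funext i
    simp
  rw [h3] at h2
  exact h2

theorem Ax.Le.refl (φ : PP R ι) : X.Le φ φ := fun M _ _ _ x h => h

theorem Ax.Le.trans {φ ψ χ : PP R ι} (h : X.Le φ ψ) (h' : X.Le ψ χ) : X.Le φ χ :=
  fun M _ _ hM x hx => h' M hM x (h M hM x hx)

/-! ### Realisations -/

theorem Re.map {S : Set (PP R ι)} {x : ι → M} (h : Re S M x) (u : Hm R M N) : Re S N (u ∘ x) :=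
  fun φ hφ => (h φ hφ).map u

theorem Re.zero (S : Set (PP R ι)) : Re S M (0 : ι → M) := fun φ _ => Sat.zero φ

theorem Re.add {S : Set (PP R ι)} {x y : ι → M} (h : Re S M x) (h' : Re S M y) :
    Re S M (x + y) := fun φ hφ => (h φ hφ).add (h' φ hφ)

theorem Re.neg {S : Set (PP R ι)} {x : ι → M} (h : Re S M x) : Re S M (-x) :=
  fun φ hφ => (h φ hφ).neg

theorem Re.sub {S : Set (PP R ι)} {x y : ι → M} (h : Re S M x) (h' : Re S M y) :
    Re S M (x - y) := fun φ hφ => (h φ hφ).sub (h' φ hφ)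

theorem Re.mono {S T : Set (PP R ι)} (hST : S ⊆ T) {x : ι → M} (h : Re T M x) : Re S M x :=
  fun φ hφ => h φ (hST hφ)

theorem re_union {S T : Set (PP R ι)} {x : ι → M} : Re (S ∪ T) M x ↔ Re S M x ∧ Re T M x := by
  constructor
  · intro h
    exact ⟨fun φ hφ => h φ (Or.inl hφ), fun φ hφ => h φ (Or.inr hφ)⟩
  · rintro ⟨h1, h2⟩ φ (hφ | hφ)
    · exact h1 φ hφ
    · exact h2 φ hφ

theorem re_prod {S : Set (PP R ι)} {x : ι → M × N} :
    Re S (M × N) x ↔ Re S M (fun i => (x i).1) ∧ Re S N (fun i => (x i).2) := by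
  constructor
  · intro h
    exact ⟨fun φ hφ => (sat_prod.mp (h φ hφ)).1, fun φ hφ => (sat_prod.mp (h φ hφ)).2⟩
  · rintro ⟨h1, h2⟩ φ hφ
    exact sat_prod.mpr ⟨h1 φ hφ, h2 φ hφ⟩

/-! ### Entailment -/

theorem ent_of_mem {S : Set (PP R ι)} {ψ : PP R ι} (h : ψ ∈ S) : X.Ent S ψ :=
  ⟨{ψ}, by simpa using h, fun M _ _ _ x hx => hx ψ (Finset.mem_singleton_self ψ)⟩

theorem Ax.Ent.mono {S T : Set (PP R ι)} (hST : S ⊆ T) {ψ : PP R ι} (h : X.Ent S ψ) :
    X.Ent T ψ := by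
  obtain ⟨s, hs, h⟩ := h
  exact ⟨s, hs.trans hST, h⟩

theorem Ax.Ent.sat {S : Set (PP R ι)} {ψ : PP R ι} (h : X.Ent S ψ) (hM : X.In M) {x : ι → M}
    (hx : Re S M x) : Sat ψ M x := by
  obtain ⟨s, hs, h⟩ := h
  exact h M hM x fun φ hφ => hx φ (hs hφ)

theorem Ax.Ent.le {S : Set (PP R ι)} {φ ψ : PP R ι} (h : X.Ent S φ) (h' : X.Le φ ψ) :
    X.Ent S ψ := by
  obtain ⟨s, hs, h⟩ := h
  exact ⟨s, hs, fun M _ _ hM x hx => h' M hM x (h M hM x hx)⟩

/-- finitely many consequences have one finite premise set -/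
theorem ent_finset {S : Set (PP R ι)} (t : Finset (PP R ι)) (h : ∀ ψ ∈ t, X.Ent S ψ) :
    ∃ s : Finset (PP R ι), ↑s ⊆ S ∧ ∀ (M : Type) [AddCommGroup M] [MoS R M], X.In M →
      ∀ x : ι → M, (∀ φ ∈ s, Sat φ M x) → ∀ ψ ∈ t, Sat ψ M x := by
  classical
  induction t using Finset.induction_on with
  | empty => exact ⟨∅, by simp, fun M _ _ _ x _ ψ hψ => absurd hψ (Finset.notMem_empty ψ)⟩
  | insert ψ t hψ ih =>
    obtain ⟨s1, hs1, h1⟩ := ih fun ψ hψ => h ψ (Finset.mem_insert_of_mem hψ)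
    obtain ⟨s2, hs2, h2⟩ := h ψ (Finset.mem_insert_self ψ t)
    refine ⟨s1 ∪ s2, by
      rw [Finset.coe_union]
      exact union_subset hs1 hs2, fun M _ _ hM x hx χ hχ => ?_⟩
    rcases Finset.mem_insert.mp hχ with rfl | hχ
    · exact h2 M hM x fun φ hφ => hx φ (Finset.mem_union_right _ hφ)
    · exact h1 M hM x (fun φ hφ => hx φ (Finset.mem_union_left _ hφ)) χ hχ

theorem Ax.Ent.trans {S T : Set (PP R ι)} {ψ : PP R ι} (h : X.Ent T ψ) (hT : ∀ φ ∈ T, X.Ent S φ) :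
    X.Ent S ψ := by
  obtain ⟨t, ht, h⟩ := h
  obtain ⟨s, hs, h'⟩ := ent_finset t fun φ hφ => hT φ (ht hφ)
  exact ⟨s, hs, fun M _ _ hM x hx => h M hM x (h' M hM x hx)⟩

theorem subset_cl (S : Set (PP R ι)) : S ⊆ X.Cl S := fun _ h => ent_of_mem h

theorem cl_cl (S : Set (PP R ι)) : X.Cl (X.Cl S) = X.Cl S :=
  Subset.antisymm (fun _ h => Ent.trans h fun _ h => h) (subset_cl _)

theorem cl_mono {S T : Set (PP R ι)} (h : S ⊆ T) : X.Cl S ⊆ X.Cl T := fun _ h' => Ent.mono h h'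

theorem re_cl (hM : X.In M) {S : Set (PP R ι)} {x : ι → M} : Re (X.Cl S) M x ↔ Re S M x :=
  ⟨fun h => h.mono (subset_cl S), fun h φ hφ => Ent.sat hφ hM h⟩

theorem cl_pp (hM : X.In M) (x : ι → M) : X.Cl (pp M x) = pp M x :=
  Subset.antisymm (fun _ h => Ent.sat h hM fun _ h => h) (subset_cl _)

/-- A set of formulas has a cofinal decreasing sequence of consequences. -/
theorem exists_chain [Countable R] [Countable ι] (S : Set (PP R ι)) :
    ∃ φ : ℕ → PP R ι, (∀ n, X.Ent S (φ n)) ∧ (∀ n, X.Le (φ (n + 1)) (φ n)) ∧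
      ∀ ψ, X.Ent S ψ → ∃ n, X.Le (φ n) ψ := by
  classical
  obtain ⟨g, hg⟩ := exists_surjective_nat (PP R ι)
  let s : ℕ → Finset (PP R ι) := fun n => ((Finset.range n).image g).filter (· ∈ X.Cl S)
  choose φ hφ using fun n => isPP_finset (R := R) (s n)
  refine ⟨φ, fun n => ?_, fun n => ?_, fun ψ hψ => ?_⟩
  · have h1 : ∀ χ ∈ s n, X.Ent S χ := fun χ hχ => (Finset.mem_filter.mp hχ).2
    obtain ⟨t, ht, h2⟩ := ent_finset (s n) h1
    exact ⟨t, ht, fun M _ _ hM x hx => (hφ n M x).mp (h2 M hM x hx)⟩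
  · intro M _ _ hM x hx
    rw [← hφ] at hx ⊢
    intro χ hχ
    refine hx χ ?_
    have h1 := Finset.mem_filter.mp hχ
    refine Finset.mem_filter.mpr ⟨?_, h1.2⟩
    obtain ⟨k, hk, rfl⟩ := Finset.mem_image.mp h1.1
    exact Finset.mem_image.mpr ⟨k, Finset.mem_range.mpr
      ((Finset.mem_range.mp hk).trans (Nat.lt_succ_self n)), rfl⟩
  · obtain ⟨k, rfl⟩ := hg ψ
    refine ⟨k + 1, fun M _ _ hM x hx => ?_⟩
    rw [← hφ] at hx
    exact hx _ (Finset.mem_filter.mpr ⟨Finset.mem_image.mpr ⟨k, Finset.mem_range.mpr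
      (Nat.lt_succ_self k), rfl⟩, hψ⟩)

/-! ### Principal parts -/

theorem Ax.P.mono {S T : Set (PP R ι)} (hST : S ⊆ T) {x : ι → M} (h : X.P T M x) : X.P S M x := by
  obtain ⟨χ, h1, h2⟩ := h
  exact ⟨χ, fun ψ hψ => h1 ψ (hST hψ), h2⟩

theorem Ax.P.of_ent {S T : Set (PP R ι)} (hST : ∀ ψ ∈ S, X.Ent T ψ) {x : ι → M} (h : X.P T M x) :
    X.P S M x := by
  obtain ⟨χ, h1, h2⟩ := h
  refine ⟨χ, fun ψ hψ K _ _ hK y hy => ?_, h2⟩
  exact Ent.sat (hST ψ hψ) hK fun φ hφ => h1 φ hφ K hK y hy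

theorem p_cl {S : Set (PP R ι)} {x : ι → M} : X.P (X.Cl S) M x ↔ X.P S M x :=
  ⟨fun h => P.mono (subset_cl S) h, fun h => P.of_ent (fun ψ hψ => hψ) h⟩

theorem isPP_zero [Finite ι] : IsPP (R := R) (ι := ι) (fun M _ _ x => x = 0) := by
  classical
  cases nonempty_fintype ι
  suffices H : ∀ s : Finset ι, IsPP (R := R) (ι := ι) (fun M _ _ x => ∀ i ∈ s, x i = 0) from
    (H Finset.univ).congr (fun M _ _ x => ⟨fun h => funext fun i => h i (Finset.mem_univ i),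
      fun h i _ => congrFun h i⟩)
  intro s
  induction s using Finset.induction_on with
  | empty => exact isPP_true.congr (fun M _ _ x => by simp)
  | insert i s hi ih =>
    refine ((isPP_lin (Finsupp.single i (1 : R))).and ih).congr (fun M _ _ x => ?_)
    simp

theorem Ax.P.zero [Finite ι] (S : Set (PP R ι)) : X.P S M (0 : ι → M) := by
  obtain ⟨χ, hχ⟩ := isPP_zero (R := R) (ι := ι)
  refine ⟨χ, fun ψ _ K _ _ _ y hy => ?_, (hχ M 0).mp rfl⟩
  rw [← hχ] at hy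
  rw [hy]
  exact Sat.zero ψ

theorem Ax.P.add [Countable ι] {S : Set (PP R ι)} {x y : ι → M} (h : X.P S M x) (h' : X.P S M y) :
    X.P S M (x + y) := by
  obtain ⟨χ, h1, h2⟩ := h
  obtain ⟨χ', h1', h2'⟩ := h'
  obtain ⟨ρ, hρ⟩ := (isPP_sat χ).sum (isPP_sat χ')
  refine ⟨ρ, fun ψ hψ K _ _ hK z hz => ?_, (hρ M _).mp ⟨x, h2, by simpa using h2'⟩⟩
  rw [← hρ] at hz
  obtain ⟨v, hv, hv'⟩ := hz
  have := (h1 ψ hψ K hK v hv).add (h1' ψ hψ K hK _ hv')
  simpa using this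

theorem Ax.P.neg {S : Set (PP R ι)} {x : ι → M} (h : X.P S M x) : X.P S M (-x) := by
  obtain ⟨χ, h1, h2⟩ := h
  exact ⟨χ, h1, h2.neg⟩

theorem Ax.P.sub [Countable ι] {S : Set (PP R ι)} {x y : ι → M} (h : X.P S M x)
    (h' : X.P S M y) : X.P S M (x - y) := by
  rw [sub_eq_add_neg]
  exact P.add h (P.neg h')

theorem Ax.P.map {S : Set (PP R ι)} {x : ι → M} (h : X.P S M x) (u : Hm R M N) :
    X.P S N (u ∘ x) := by
  obtain ⟨χ, h1, h2⟩ := h
  exact ⟨χ, h1, h2.map u⟩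

theorem Ax.P.re {S : Set (PP R ι)} {x : ι → M} (h : X.P S M x) (hM : X.In M) : Re S M x := by
  obtain ⟨χ, h1, h2⟩ := h
  exact fun ψ hψ => h1 ψ hψ M hM x h2

/-! ### Null maps -/

theorem pp_comp_subset (u : Hm R M N) (b : ι → M) :
    pp (R := R) M b ⊆ pp (R := R) N (u ∘ b) :=
  fun φ (h : Sat φ M b) => h.map u

theorem Ax.Null.zero : X.Null (0 : Hm R M N) := fun k b => by
  have : ((0 : Hm R M N) ∘ b) = 0 := by
    funext i
    rfl
  rw [this]
  exact P.zero _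

theorem Ax.Null.add {u v : Hm R M N} (hu : X.Null u) (hv : X.Null v) : X.Null (u + v) :=
  fun k b => P.add (hu k b) (hv k b)

theorem Ax.Null.neg {u : Hm R M N} (hu : X.Null u) : X.Null (-u) := fun k b => P.neg (hu k b)

theorem Ax.Null.sub {u v : Hm R M N} (hu : X.Null u) (hv : X.Null v) : X.Null (u - v) := by
  rw [sub_eq_add_neg]
  exact Null.add hu (Null.neg hv)

theorem Ax.Null.comp_left {u : Hm R M N} (hu : X.Null u) (v : Hm R N K) : X.Null (Hm.comp v u) :=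
  fun k b => P.map (hu k b) v

theorem Ax.Null.comp_right {u : Hm R M N} (hu : X.Null u) (v : Hm R K M) : X.Null (Hm.comp u v) :=
  fun k b => P.mono (pp_comp_subset v b) (hu k (v ∘ b))

theorem Ax.Eqv.refl (u : Hm R M N) : X.Eqv u u := by
  unfold Ax.Eqv
  rw [sub_self]
  exact Null.zero

theorem Ax.Eqv.symm {u v : Hm R M N} (h : X.Eqv u v) : X.Eqv v u := by
  unfold Ax.Eqv at h ⊢
  rw [← neg_sub]
  exact Null.neg h

theorem Ax.Eqv.trans {u v w : Hm R M N} (h : X.Eqv u v) (h' : X.Eqv v w) : X.Eqv u w := by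
  unfold Ax.Eqv at h h' ⊢
  rw [← sub_add_sub_cancel u v w]
  exact Null.add h h'

theorem Ax.Eqv.comp {u u' : Hm R M N} {v v' : Hm R N K} (h : X.Eqv u u') (h' : X.Eqv v v') :
    X.Eqv (Hm.comp v u) (Hm.comp v' u') := by
  unfold Ax.Eqv at h h' ⊢
  have : Hm.comp v u - Hm.comp v' u' = Hm.comp v (u - u') + Hm.comp (v - v') u' := by
    ext x
    simp
  rw [this]
  exact Null.add (Null.comp_left h v) (Null.comp_right h' u')

theorem Ax.Eqv.add {u u' v v' : Hm R M N} (h : X.Eqv u u') (h' : X.Eqv v v') :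
    X.Eqv (u + v) (u' + v') := by
  unfold Ax.Eqv at h h' ⊢
  rw [add_sub_add_comm]
  exact Null.add h h'

theorem Ax.Null.of_eqv {u v : Hm R M N} (h : X.Eqv u v) (hv : X.Null v) : X.Null u := by
  have := Null.add h hv
  rwa [sub_add_cancel] at this

/-! ### Level-one formulas -/

theorem Sat1.map {V : L1 R ι} {x : ι → M} (h : Sat1 V M x) (u : Hm R M N) :
    Sat1 V N (u ∘ x) := by
  obtain ⟨t, ht⟩ := h
  refine ⟨u ∘ t, ?_⟩
  have := ht.map u
  rw [Sum.comp_elim] at this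
  exact this

theorem Sat1.zero (V : L1 R ι) : Sat1 V M (0 : ι → M) := by
  refine ⟨0, ?_⟩
  have : (Sum.elim (0 : ι → M) (0 : Fin V.1 → M)) = 0 := by
    funext i
    cases i <;> rfl
  rw [this]
  exact Re.zero _

theorem elim_add {A B : Type} (x y : A → M) (s t : B → M) :
    Sum.elim (x + y) (s + t) = Sum.elim x s + Sum.elim y t := by
  funext i
  cases i <;> rfl

theorem elim_neg {A B : Type} (x : A → M) (s : B → M) :
    Sum.elim (-x) (-s) = -Sum.elim x s := by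
  funext i
  cases i <;> rfl

theorem elim_sub {A B : Type} (x y : A → M) (s t : B → M) :
    Sum.elim (x - y) (s - t) = Sum.elim x s - Sum.elim y t := by
  funext i
  cases i <;> rfl

theorem Sat1.add {V : L1 R ι} {x y : ι → M} (h : Sat1 V M x) (h' : Sat1 V M y) :
    Sat1 V M (x + y) := by
  obtain ⟨s, hs⟩ := h
  obtain ⟨t, ht⟩ := h'
  exact ⟨s + t, by
    rw [elim_add]
    exact hs.add ht⟩

theorem Sat1.neg {V : L1 R ι} {x : ι → M} (h : Sat1 V M x) : Sat1 V M (-x) := by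
  obtain ⟨s, hs⟩ := h
  exact ⟨-s, by
    rw [elim_neg]
    exact hs.neg⟩

theorem Sat1.sub {V : L1 R ι} {x y : ι → M} (h : Sat1 V M x) (h' : Sat1 V M y) :
    Sat1 V M (x - y) := by
  rw [sub_eq_add_neg]
  exact h.add h'.neg

theorem sat1_prod {V : L1 R ι} {x : ι → M × N} :
    Sat1 V (M × N) x ↔ Sat1 V M (fun i => (x i).1) ∧ Sat1 V N (fun i => (x i).2) := by
  constructor
  · intro h
    exact ⟨h.map (Hm.fst R M N), h.map (Hm.snd R M N)⟩
  · rintro ⟨⟨s, hs⟩, ⟨t, ht⟩⟩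
    refine ⟨fun i => (s i, t i), re_prod.mpr ⟨?_, ?_⟩⟩
    · have : (fun i => (Sum.elim x (fun i => (s i, t i)) i : M × N).1) =
          Sum.elim (fun i => (x i).1) s := by
        funext i
        cases i <;> rfl
      rw [this]
      exact hs
    · have : (fun i => (Sum.elim x (fun i => (s i, t i)) i : M × N).2) =
          Sum.elim (fun i => (x i).2) t := by
        funext i
        cases i <;> rfl
      rw [this]
      exact ht

theorem Ax.Le1.refl (V : L1 R ι) : X.Le1 V V := fun M _ _ _ _ x h => h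

theorem Ax.Le1.trans {U V W : L1 R ι} (h : X.Le1 U V) (h' : X.Le1 V W) : X.Le1 U W :=
  fun M _ _ hc hM x hx => h' M hc hM x (h M hc hM x hx)

end Pool.Agent.AVC
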