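import Pool.Agent.AVC.H31_St2

/-!
# MVC: the chain condition for the endomorphisms modulo null maps; decomposition into local modules
-/

set_option autoImplicit false
set_option linter.unusedVariables false

namespace Pool.Agent.AVC

open Set Ax

/-- 5.3 (a) -/
theorem thm_DCQ : St_DCQ := by
  intro hDCC R _ _ X B hB C f
  choose a ha using fun i => qm_surjective (X := X) (N := C.N) (f i)
  let w : ℕ → (Hm R C.N C.N) := fun j => cmp (G := fun _ => C.N) a j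
  have key : ∀ j, prs f j = qm X C.N (w j) := by
    intro j
    induction j with
    | zero => exact (map_one (qm X C.N)).symm
    | succ j ih =>
      have h1 : w (j + 1) = a j * w j := rfl
      rw [h1, map_mul, ha, ← ih]
      rfl
  obtain ⟨j₀, hj⟩ := hDCC R X B hB (fun _ => C.n) (fun _ => C.S) (fun _ => C.N) (fun _ => C.g)
    a C.n C.S C.N C.g (fun _ => C.hon) C.hon
  obtain ⟨c', hc'⟩ : ∃ c' : (Hm R C.N C.N), X.Eqv (w j₀) (c' * w (j₀ + 1)) :=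
    hj j₀ le_rfl Hm.id
  refine ⟨j₀, qm X C.N c', ?_⟩
  rw [key, key, ← map_mul]
  exact qm_eq.2 hc'

/-- a left inverse of `ι v ρ` in the corner of `ι ρ` gives a left inverse of `v` -/
private theorem DEC_inv {R : Type} [RSig R] {X : Ax R} {N A : Type} [AddCommGroup N] [MoS R N]
    [AddCommGroup A] [MoS R A] {ρ : Hm R N A} {ι : Hm R A N}
    (h : X.Eqv (Hm.comp ρ ι) Hm.id) (v : Hm R A A) (y : EndQ X N)
    (hy : y * qm X N (Hm.comp ι (Hm.comp v ρ)) = qm X N (Hm.comp ι ρ)) :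
    ∃ g : Hm R A A, X.Eqv (Hm.comp g v) Hm.id := by
  obtain ⟨z, rfl⟩ := qm_surjective (X := X) (N := N) y
  rw [← map_mul] at hy
  have h1 : X.Eqv (Hm.comp z (Hm.comp ι (Hm.comp v ρ))) (Hm.comp ι ρ) := qm_eq.1 hy
  have h2 : X.Eqv (Hm.comp ρ (Hm.comp (Hm.comp z (Hm.comp ι (Hm.comp v ρ))) ι)) (Hm.comp ρ (Hm.comp (Hm.comp ι ρ) ι)) :=
    Eqv.comp (Eqv.comp (Eqv.refl ι) h1) (Eqv.refl ρ)
  have h3' : X.Eqv (Hm.comp (Hm.comp ρ ι) (Hm.comp ρ ι)) (Hm.comp Hm.id Hm.id) := Eqv.comp h h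
  have h6 : Hm.comp (Hm.comp ρ ι) (Hm.comp ρ ι) = Hm.comp ρ (Hm.comp (Hm.comp ι ρ) ι) := rfl
  rw [Hm.comp_id, h6] at h3'
  have h4 : X.Eqv (Hm.comp (Hm.comp ρ (Hm.comp z (Hm.comp ι v))) (Hm.comp ρ ι)) (Hm.comp (Hm.comp ρ (Hm.comp z (Hm.comp ι v))) Hm.id) :=
    Eqv.comp h (Eqv.refl _)
  rw [Hm.comp_id] at h4
  have h5 : Hm.comp (Hm.comp ρ (Hm.comp z (Hm.comp ι v))) (Hm.comp ρ ι) = Hm.comp ρ (Hm.comp (Hm.comp z (Hm.comp ι (Hm.comp v ρ))) ι) := rfl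
  rw [h5] at h4
  exact ⟨Hm.comp ρ (Hm.comp z ι), Eqv.trans (Eqv.symm h4) (Eqv.trans h2 h3')⟩

/-- 5.3 (b) -/
theorem thm_DEC : St_DEC := by
  intro hS hR R _ _ X C hD
  obtain ⟨m, e, he, hloc⟩ := hR (EndQ X C.N) hD
  choose f hf using fun i => qm_surjective (X := X) (N := C.N) (e i)
  have hff : ∀ i, X.Eqv (Hm.comp (f i) (f i)) (f i) := by
    intro i
    have h1 : qm X C.N (f i * f i) = qm X C.N (f i) := by
      rw [map_mul, hf]
      exact he.idem i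
    exact qm_eq.1 h1
  choose A ρ ι h1 h2 using fun i => hS R X C (f i) (hff i)
  have h3 : ∀ i, qm X C.N (Hm.comp (ι i) (ρ i)) = e i := by
    intro i
    rw [← hf]
    exact qm_eq.2 (h1 i)
  refine ⟨m, A, ρ, ι, ?_, h2, ?_⟩
  · intro i u
    have h4 : ∀ v : Hm R ((A i).N) ((A i).N), qm X C.N (Hm.comp (ι i) (Hm.comp v (ρ i))) =
        e i * qm X C.N (Hm.comp (ι i) (Hm.comp v (ρ i))) * e i := by
      intro v
      have h5 : X.Eqv (Hm.comp (ι i) (Hm.comp (Hm.comp (Hm.comp (Hm.comp (ρ i) (ι i)) v) (Hm.comp (ρ i) (ι i))) (ρ i)))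
          (Hm.comp (ι i) (Hm.comp (Hm.comp (Hm.comp Hm.id v) Hm.id) (ρ i))) :=
        Eqv.comp (Eqv.comp (Eqv.refl _) (Eqv.comp (h2 i) (Eqv.comp (Eqv.refl v) (h2 i))))
          (Eqv.refl _)
      rw [Hm.id_comp, Hm.comp_id] at h5
      have h6 : qm X C.N (Hm.comp (ι i) (Hm.comp (Hm.comp (Hm.comp (Hm.comp (ρ i) (ι i)) v) (Hm.comp (ρ i) (ι i))) (ρ i))) =
          qm X C.N (Hm.comp (ι i) (Hm.comp v (ρ i))) := qm_eq.2 h5
      have h7 : (Hm.comp (ι i) (Hm.comp (Hm.comp (Hm.comp (Hm.comp (ρ i) (ι i)) v) (Hm.comp (ρ i) (ι i))) (ρ i)) : (Hm R C.N C.N)) =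
          (Hm.comp (ι i) (ρ i)) * (Hm.comp (ι i) (Hm.comp v (ρ i))) * (Hm.comp (ι i) (ρ i)) := rfl
      rw [← h3 i, ← map_mul, ← map_mul, ← h7, h6]
    rcases hloc i _ (h4 u) with ⟨y, -, -, hy⟩ | ⟨y, -, -, hy⟩
    · left
      rw [← h3 i] at hy
      exact DEC_inv (h2 i) u y hy
    · right
      rw [← h3 i, ← map_sub] at hy
      refine DEC_inv (h2 i) (Hm.id - u) y ?_
      rw [← hy]
      congr 2
      ext x
      simp
  · have h8 : qm X C.N (∑ i, Hm.comp (ι i) (ρ i)) = ∑ i, qm X C.N (Hm.comp (ι i) (ρ i)) := map_sum _ _ _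
    rw [Finset.sum_congr rfl fun i _ => h3 i, he.complete, ← map_one (qm X C.N)] at h8
    exact qm_eq.1 h8

end Pool.Agent.AVC
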