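import Mathlib

/-!
# Modules with distinguished subgroups of their powers: positive primitive formulas, classes, types

`RSig R`: a ring together with a countable signature (arities of predicates). `MoS R M`: a module in which
each predicate of arity `n` is a subgroup of `M ^ n`.  This is the port of `MVC/Defs.lean`.
-/

set_option autoImplicit false
set_option linter.unusedSectionVars false
set_option linter.unusedVariables false

namespace Pool.Agent.AVC

open Set

/-- a ring and a countable family of predicates -/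
class RSig (R : Type) extends Ring R where
  Ix : Type
  ar : Ix → ℕ
  ctb : Countable Ix

instance (R : Type) [RSig R] : Countable (RSig.Ix R) := RSig.ctb

/-- a module with subgroups of powers -/
class MoS (R : Type) [RSig R] (M : Type) [AddCommGroup M] extends Module R M where
  P : ∀ i : RSig.Ix R, AddSubgroup (Fin (RSig.ar i) → M)

/-- atomic formulas: linear equations and predicates applied to linear forms. The Boolean value is not
used here; in `Aff.lean` the formulas have a second (affine) reading, in which `true` means the named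
coset of the subgroup. -/
abbrev Atm (R : Type) [RSig R] (α : Type) : Type :=
  (α →₀ R) ⊕ ((i : RSig.Ix R) × (Bool × (Fin (RSig.ar i) → (α →₀ R))))

/-- the atomic formula holds -/
def Hold {R : Type} [RSig R] {α : Type} (a : Atm R α) (M : Type) [AddCommGroup M] [MoS R M]
    (x : α → M) : Prop :=
  match a with
  | Sum.inl e => Finsupp.linearCombination R x e = 0
  | Sum.inr ⟨i, _, t⟩ => (fun j => Finsupp.linearCombination R x (t j)) ∈ MoS.P (R := R) (M := M) i

/-- A positive primitive formula with free variables `ι`: finitely many atomic formulas in the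
free variables and in bound variables `ℕ`. -/
abbrev PP (R : Type) [RSig R] (ι : Type) : Type := List (Atm R (ι ⊕ ℕ))

/-! ### Homomorphisms -/

/-- linear maps which preserve the predicates -/
structure Hm (R : Type) [RSig R] (M N : Type) [AddCommGroup M] [MoS R M] [AddCommGroup N]
    [MoS R N] extends M →ₗ[R] N where
  pres : ∀ (i : RSig.Ix R) (x : Fin (RSig.ar i) → M), x ∈ MoS.P (R := R) (M := M) i →
    (fun j => toLinearMap (x j)) ∈ MoS.P (R := R) (M := N) i

namespace Hm

variable {R : Type} [RSig R] {M N K L : Type} [AddCommGroup M] [MoS R M] [AddCommGroup N] [MoS R N]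
  [AddCommGroup K] [MoS R K] [AddCommGroup L] [MoS R L]

instance : FunLike (Hm R M N) M N where
  coe f := f.toLinearMap
  coe_injective := by
    rintro ⟨f, hf⟩ ⟨g, hg⟩ h
    have h1 : f = g := DFunLike.coe_injective h
    subst h1
    rfl

instance : AddMonoidHomClass (Hm R M N) M N where
  map_add f := map_add f.toLinearMap
  map_zero f := map_zero f.toLinearMap

instance : MulActionSemiHomClass (Hm R M N) (id : R → R) M N where
  map_smulₛₗ f r x := map_smul f.toLinearMap r x

theorem map_sm (f : Hm R M N) (r : R) (x : M) : f (r • x) = r • f x :=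
  map_smul f.toLinearMap r x

@[ext] theorem ext {f g : Hm R M N} (h : ∀ x, f x = g x) : f = g := DFunLike.ext f g h

theorem coe_lin (f : Hm R M N) (x : M) : f.toLinearMap x = f x := rfl

theorem mem (f : Hm R M N) (i : RSig.Ix R) (x : Fin (RSig.ar i) → M)
    (h : x ∈ MoS.P (R := R) (M := M) i) : (f ∘ x) ∈ MoS.P (R := R) (M := N) i := f.pres i x h

instance : Zero (Hm R M N) := ⟨⟨0, fun i x _ => (MoS.P i).zero_mem⟩⟩

instance : Add (Hm R M N) := ⟨fun f g => ⟨f.toLinearMap + g.toLinearMap,
  fun i x h => (MoS.P i).add_mem (f.pres i x h) (g.pres i x h)⟩⟩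

instance : Neg (Hm R M N) := ⟨fun f => ⟨-f.toLinearMap,
  fun i x h => (MoS.P i).neg_mem (f.pres i x h)⟩⟩

instance : Sub (Hm R M N) := ⟨fun f g => ⟨f.toLinearMap - g.toLinearMap,
  fun i x h => (MoS.P i).sub_mem (f.pres i x h) (g.pres i x h)⟩⟩

@[simp] theorem zero_apply (x : M) : (0 : Hm R M N) x = 0 := rfl

@[simp] theorem add_apply (f g : Hm R M N) (x : M) : (f + g) x = f x + g x := rfl

@[simp] theorem neg_apply (f : Hm R M N) (x : M) : (-f) x = -f x := rfl

@[simp] theorem sub_apply (f g : Hm R M N) (x : M) : (f - g) x = f x - g x := rfl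

instance : AddCommGroup (Hm R M N) where
  add_assoc f g h := by
    ext x
    exact add_assoc (f x) (g x) (h x)
  zero_add f := by
    ext x
    exact zero_add (f x)
  add_zero f := by
    ext x
    exact add_zero (f x)
  nsmul := nsmulRec
  zsmul := zsmulRec
  neg_add_cancel f := by
    ext x
    exact neg_add_cancel (f x)
  add_comm f g := by
    ext x
    exact add_comm (f x) (g x)
  sub_eq_add_neg f g := by
    ext x
    exact sub_eq_add_neg (f x) (g x)

/-- the identity -/
def id : Hm R M M := ⟨LinearMap.id, fun i x h => h⟩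

@[simp] theorem id_apply (x : M) : (id : Hm R M M) x = x := rfl

/-- composition -/
def comp (g : Hm R N K) (f : Hm R M N) : Hm R M K :=
  ⟨g.toLinearMap ∘ₗ f.toLinearMap, fun i x h => g.pres i _ (f.pres i x h)⟩

@[simp] theorem comp_apply (g : Hm R N K) (f : Hm R M N) (x : M) : g.comp f x = g (f x) := rfl

theorem coe_comp (g : Hm R N K) (f : Hm R M N) : ⇑(g.comp f) = g ∘ f := rfl

theorem comp_assoc (h : Hm R K L) (g : Hm R N K) (f : Hm R M N) :
    (h.comp g).comp f = h.comp (g.comp f) := rfl

theorem id_comp (f : Hm R M N) : id.comp f = f := rfl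

theorem comp_id (f : Hm R M N) : f.comp id = f := rfl

theorem comp_zero (g : Hm R N K) : g.comp (0 : Hm R M N) = 0 := by
  ext x
  exact map_zero g

theorem zero_comp (f : Hm R M N) : (0 : Hm R N K).comp f = 0 := rfl

theorem comp_add (g : Hm R N K) (f f' : Hm R M N) : g.comp (f + f') = g.comp f + g.comp f' := by
  ext x
  exact map_add g _ _

theorem add_comp (f : Hm R M N) (g g' : Hm R N K) : (g + g').comp f = g.comp f + g'.comp f := rfl

theorem comp_sub (g : Hm R N K) (f f' : Hm R M N) : g.comp (f - f') = g.comp f - g.comp f' := by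
  ext x
  exact map_sub g _ _

theorem sub_comp (f : Hm R M N) (g g' : Hm R N K) : (g - g').comp f = g.comp f - g'.comp f := rfl

theorem comp_neg (g : Hm R N K) (f : Hm R M N) : g.comp (-f) = -g.comp f := by
  ext x
  exact map_neg g _

theorem neg_comp (f : Hm R M N) (g : Hm R N K) : (-g).comp f = -g.comp f := rfl

instance : One (Hm R M M) := ⟨id⟩

instance : Mul (Hm R M M) := ⟨fun g f => g.comp f⟩

theorem mul_eq (g f : Hm R M M) : g * f = g.comp f := rfl

theorem one_eq : (1 : Hm R M M) = id := rfl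

@[simp] theorem mul_apply (g f : Hm R M M) (x : M) : (g * f) x = g (f x) := rfl

@[simp] theorem one_apply (x : M) : (1 : Hm R M M) x = x := rfl

instance : Ring (Hm R M M) where
  mul_assoc f g h := rfl
  one_mul f := rfl
  mul_one f := rfl
  zero_mul f := rfl
  mul_zero f := comp_zero f
  left_distrib f g h := comp_add f g h
  right_distrib f g h := rfl
  zsmul := zsmulRec
  neg_add_cancel f := neg_add_cancel f
  sub_eq_add_neg f g := sub_eq_add_neg f g

end Hm

/-! ### Equivalences -/

/-- isomorphisms of structures -/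
structure Ie (R : Type) [RSig R] (M N : Type) [AddCommGroup M] [MoS R M] [AddCommGroup N]
    [MoS R N] extends M ≃ₗ[R] N where
  pres : ∀ (i : RSig.Ix R) (x : Fin (RSig.ar i) → M), x ∈ MoS.P (R := R) (M := M) i ↔
    (fun j => toLinearEquiv (x j)) ∈ MoS.P (R := R) (M := N) i

namespace Ie

variable {R : Type} [RSig R] {M N K : Type} [AddCommGroup M] [MoS R M] [AddCommGroup N] [MoS R N]
  [AddCommGroup K] [MoS R K]

instance : FunLike (Ie R M N) M N where
  coe f := f.toLinearEquiv
  coe_injective := by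
    rintro ⟨f, hf⟩ ⟨g, hg⟩ h
    have h1 : f = g := DFunLike.coe_injective h
    subst h1
    rfl

instance : EquivLike (Ie R M N) M N where
  coe f := f.toLinearEquiv
  inv f := f.toLinearEquiv.symm
  left_inv f := f.toLinearEquiv.left_inv
  right_inv f := f.toLinearEquiv.right_inv
  coe_injective' := by
    rintro f g h _
    exact DFunLike.coe_injective h

instance : AddEquivClass (Ie R M N) M N where
  map_add f := map_add f.toLinearEquiv

instance : MulActionSemiHomClass (Ie R M N) (_root_.id : R → R) M N where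
  map_smulₛₗ f r x := map_smul f.toLinearEquiv r x

theorem map_sm (f : Ie R M N) (r : R) (x : M) : f (r • x) = r • f x :=
  map_smul f.toLinearEquiv r x

/-- the homomorphism -/
def hm (e : Ie R M N) : Hm R M N := ⟨e.toLinearEquiv, fun i x h => (e.pres i x).1 h⟩

@[simp] theorem hm_apply (e : Ie R M N) (x : M) : e.hm x = e x := rfl

@[simp] theorem coe_hm (e : Ie R M N) : ⇑e.hm = e := rfl

instance : Coe (Ie R M N) (Hm R M N) := ⟨hm⟩

/-- the inverse -/
def symm (e : Ie R M N) : Ie R N M := ⟨e.toLinearEquiv.symm, fun i x => by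
  rw [e.pres]
  have h1 : (fun j => e.toLinearEquiv (e.toLinearEquiv.symm (x j))) = x := by
    funext j
    exact e.toLinearEquiv.apply_symm_apply (x j)
  rw [h1]⟩

@[simp] theorem apply_symm_apply (e : Ie R M N) (x : N) : e (e.symm x) = x :=
  e.toLinearEquiv.apply_symm_apply x

@[simp] theorem symm_apply_apply (e : Ie R M N) (x : M) : e.symm (e x) = x :=
  e.toLinearEquiv.symm_apply_apply x

@[simp] theorem symm_symm (e : Ie R M N) : e.symm.symm = e := rfl

theorem symm_apply_eq (e : Ie R M N) {x : N} {y : M} : e.symm x = y ↔ x = e y :=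
  e.toLinearEquiv.symm_apply_eq

theorem injective (e : Ie R M N) : Function.Injective e := e.toLinearEquiv.injective

theorem surjective (e : Ie R M N) : Function.Surjective e := e.toLinearEquiv.surjective

theorem mem (e : Ie R M N) (i : RSig.Ix R) (x : Fin (RSig.ar i) → M) :
    (e ∘ x) ∈ MoS.P (R := R) (M := N) i ↔ x ∈ MoS.P (R := R) (M := M) i := (e.pres i x).symm

/-- the identity -/
def refl (R : Type) [RSig R] (M : Type) [AddCommGroup M] [MoS R M] : Ie R M M :=
  ⟨LinearEquiv.refl R M, fun i x => Iff.rfl⟩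

/-- composition -/
def trans (e : Ie R M N) (e' : Ie R N K) : Ie R M K :=
  ⟨e.toLinearEquiv.trans e'.toLinearEquiv, fun i x => (e.pres i x).trans (e'.pres i _)⟩

@[simp] theorem trans_apply (e : Ie R M N) (e' : Ie R N K) (x : M) : e.trans e' x = e' (e x) := rfl

end Ie

/-! ### Instances -/

section

variable {R : Type} [RSig R] {M N : Type} [AddCommGroup M] [MoS R M] [AddCommGroup N] [MoS R N]

instance : MoS R (M × N) where
  P i :=
    { carrier := {x | (fun j => (x j).1) ∈ MoS.P (R := R) (M := M) i ∧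
        (fun j => (x j).2) ∈ MoS.P (R := R) (M := N) i}
      add_mem' := fun h h' => ⟨(MoS.P i).add_mem h.1 h'.1, (MoS.P i).add_mem h.2 h'.2⟩
      zero_mem' := ⟨(MoS.P i).zero_mem, (MoS.P i).zero_mem⟩
      neg_mem' := fun h => ⟨(MoS.P i).neg_mem h.1, (MoS.P i).neg_mem h.2⟩ }

instance {A : Type} {Q : A → Type} [∀ a, AddCommGroup (Q a)] [∀ a, MoS R (Q a)] :
    MoS R (∀ a, Q a) where
  P i :=
    { carrier := {x | ∀ a, (fun j => x j a) ∈ MoS.P (R := R) (M := Q a) i}
      add_mem' := fun h h' a => (MoS.P i).add_mem (h a) (h' a)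
      zero_mem' := fun a => (MoS.P i).zero_mem
      neg_mem' := fun h a => (MoS.P i).neg_mem (h a) }

instance : MoS R PUnit.{1} where
  P i := ⊤

/-- the induced predicates on a submodule -/
instance (S : Submodule R M) : MoS R S where
  P i := (MoS.P (R := R) (M := M) i).comap
    ({ toFun := fun x j => (x j : M)
       map_zero' := rfl
       map_add' := fun x y => rfl } : (Fin (RSig.ar i) → S) →+ (Fin (RSig.ar i) → M))

/-- the inclusion of a submodule -/
def Hm.subtype (S : Submodule R M) : Hm R S M := ⟨S.subtype, fun i x h => h⟩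

@[simp] theorem Hm.subtype_apply (S : Submodule R M) (x : S) : Hm.subtype S x = x := rfl

/-- the projections and inclusions of a product -/
def Hm.fst (R : Type) [RSig R] (M N : Type) [AddCommGroup M] [MoS R M] [AddCommGroup N] [MoS R N] :
    Hm R (M × N) M := ⟨LinearMap.fst R M N, fun i x h => h.1⟩

def Hm.snd (R : Type) [RSig R] (M N : Type) [AddCommGroup M] [MoS R M] [AddCommGroup N] [MoS R N] :
    Hm R (M × N) N := ⟨LinearMap.snd R M N, fun i x h => h.2⟩

def Hm.inl (R : Type) [RSig R] (M N : Type) [AddCommGroup M] [MoS R M] [AddCommGroup N] [MoS R N] :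
    Hm R M (M × N) := ⟨LinearMap.inl R M N, fun i x h => ⟨h, (MoS.P i).zero_mem⟩⟩

def Hm.inr (R : Type) [RSig R] (M N : Type) [AddCommGroup M] [MoS R M] [AddCommGroup N] [MoS R N] :
    Hm R N (M × N) := ⟨LinearMap.inr R M N, fun i x h => ⟨(MoS.P i).zero_mem, h⟩⟩

def Hm.coprod {K : Type} [AddCommGroup K] [MoS R K] (f : Hm R M K) (g : Hm R N K) :
    Hm R (M × N) K := ⟨f.toLinearMap.coprod g.toLinearMap,
  fun i x h => (MoS.P i).add_mem (f.pres i _ h.1) (g.pres i _ h.2)⟩

def Hm.prod {K : Type} [AddCommGroup K] [MoS R K] (f : Hm R K M) (g : Hm R K N) :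
    Hm R K (M × N) := ⟨f.toLinearMap.prod g.toLinearMap,
  fun i x h => ⟨f.pres i _ h, g.pres i _ h⟩⟩

def Hm.proj {A : Type} {Q : A → Type} [∀ a, AddCommGroup (Q a)] [∀ a, MoS R (Q a)] (a : A) :
    Hm R (∀ a, Q a) (Q a) := ⟨LinearMap.proj a, fun i x h => h a⟩

def Hm.pi {K : Type} [AddCommGroup K] [MoS R K] {A : Type} {Q : A → Type}
    [∀ a, AddCommGroup (Q a)] [∀ a, MoS R (Q a)] (f : ∀ a, Hm R K (Q a)) : Hm R K (∀ a, Q a) :=
  ⟨LinearMap.pi fun a => (f a).toLinearMap, fun i x h a => (f a).pres i x h⟩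

/-- direct sums -/
instance {A : Type} {Q : A → Type} [∀ a, AddCommGroup (Q a)] [∀ a, MoS R (Q a)] :
    MoS R (Π₀ a, Q a) where
  P i :=
    { carrier := {x | ∀ a, (fun j => x j a) ∈ MoS.P (R := R) (M := Q a) i}
      add_mem' := fun h h' a => (MoS.P i).add_mem (h a) (h' a)
      zero_mem' := fun a => (MoS.P i).zero_mem
      neg_mem' := fun h a => (MoS.P i).neg_mem (h a) }

theorem dfin_mem {A : Type} {Q : A → Type} [∀ a, AddCommGroup (Q a)] [∀ a, MoS R (Q a)]
    (i : RSig.Ix R) (x : Fin (RSig.ar i) → Π₀ a, Q a) :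
    x ∈ MoS.P (R := R) (M := Π₀ a, Q a) i ↔
      ∀ a, (fun j => x j a) ∈ MoS.P (R := R) (M := Q a) i := Iff.rfl

/-- the inclusion of a summand -/
def Hm.single {A : Type} [DecidableEq A] (Q : A → Type) [∀ a, AddCommGroup (Q a)]
    [∀ a, MoS R (Q a)] (a : A) : Hm R (Q a) (Π₀ a, Q a) :=
  ⟨DFinsupp.lsingle a, fun i x h b => by
    by_cases hb : a = b
    · subst hb
      have h1 : (fun j => (DFinsupp.lsingle (R := R) (M := Q) a (x j)) a) = x := by
        funext j
        exact DFinsupp.single_eq_same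
      rw [h1]
      exact h
    · have h1 : (fun j => (DFinsupp.lsingle (R := R) (M := Q) a (x j)) b) = 0 := by
        funext j
        exact DFinsupp.single_eq_of_ne (Ne.symm hb)
      rw [h1]
      exact (MoS.P i).zero_mem⟩

@[simp] theorem Hm.single_apply {A : Type} [DecidableEq A] (Q : A → Type)
    [∀ a, AddCommGroup (Q a)] [∀ a, MoS R (Q a)] (a : A) (x : Q a) :
    Hm.single (R := R) Q a x = DFinsupp.single a x := rfl

/-- the projection to a summand -/
def Hm.dproj {A : Type} {Q : A → Type} [∀ a, AddCommGroup (Q a)] [∀ a, MoS R (Q a)] (a : A) :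
    Hm R (Π₀ a, Q a) (Q a) := ⟨DFinsupp.lapply a, fun i x h => h a⟩

@[simp] theorem Hm.dproj_apply {A : Type} {Q : A → Type} [∀ a, AddCommGroup (Q a)]
    [∀ a, MoS R (Q a)] (a : A) (x : Π₀ a, Q a) : Hm.dproj (R := R) a x = x a := rfl

/-- the map from a direct sum given by maps of the summands -/
noncomputable def Hm.dsum {A : Type} [DecidableEq A] {Q : A → Type} [∀ a, AddCommGroup (Q a)]
    [∀ a, MoS R (Q a)] {K : Type} [AddCommGroup K] [MoS R K] (f : ∀ a, Hm R (Q a) K) :
    Hm R (Π₀ a, Q a) K :=
  ⟨DFinsupp.lsum ℕ (fun a => (f a).toLinearMap), fun i x h => by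
    classical
    have h1 : (fun j => DFinsupp.lsum ℕ (fun a => (f a).toLinearMap) (x j)) =
        ∑ a ∈ Finset.univ.biUnion (fun j => (x j).support), fun j => f a (x j a) := by
      funext j
      rw [Finset.sum_apply]
      show DFinsupp.sumAddHom (fun a => (f a).toLinearMap.toAddMonoidHom) (x j) = _
      rw [DFinsupp.sumAddHom_apply, DFinsupp.sum]
      refine Finset.sum_subset (Finset.subset_biUnion_of_mem (fun j => (x j).support)
        (Finset.mem_univ j)) fun a _ ha => ?_
      rw [DFinsupp.notMem_support_iff] at ha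
      show f a (x j a) = 0
      rw [ha, map_zero]
    rw [h1]
    exact AddSubgroup.sum_mem _ fun a _ => (f a).pres i _ (h a)⟩

theorem Hm.dsum_single {A : Type} [DecidableEq A] {Q : A → Type} [∀ a, AddCommGroup (Q a)]
    [∀ a, MoS R (Q a)] {K : Type} [AddCommGroup K] [MoS R K] (f : ∀ a, Hm R (Q a) K) (a : A)
    (x : Q a) : Hm.dsum f (DFinsupp.single a x) = f a x :=
  DFinsupp.lsum_single ℕ (fun a => (f a).toLinearMap) a x

end

section

variable {R : Type} [RSig R] {ι κ : Type}

/-- satisfaction of a positive primitive formula -/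
def Sat (φ : PP R ι) (M : Type) [AddCommGroup M] [MoS R M] (x : ι → M) : Prop :=
  ∃ y : ℕ → M, ∀ e ∈ φ, Hold e M (Sum.elim x y)

/-- bundled modules -/
structure Md (R : Type) [RSig R] : Type 1 where
  car : Type
  [grp : AddCommGroup car]
  [mod : MoS R car]

instance : CoeSort (Md R) Type := ⟨Md.car⟩

attribute [instance] Md.grp Md.mod

/-- A family of relations which is given by a positive primitive formula. -/
def IsPP (F : ∀ (M : Type) [AddCommGroup M] [MoS R M], (ι → M) → Prop) : Prop :=
  ∃ φ : PP R ι, ∀ (M : Type) [AddCommGroup M] [MoS R M] (x : ι → M), F M x ↔ Sat φ M x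

/-- Axioms of a definable class: implications between positive primitive formulas. -/
abbrev Ax (R : Type) [RSig R] : Type := Set ((n : ℕ) × (PP R (Fin n) × PP R (Fin n)))

/-- the modules of the class -/
def Ax.In (X : Ax R) (M : Type) [AddCommGroup M] [MoS R M] : Prop :=
  ∀ a ∈ X, ∀ x : Fin a.1 → M, Sat a.2.1 M x → Sat a.2.2 M x

/-- implication in the class -/
def Ax.Le (X : Ax R) (φ ψ : PP R ι) : Prop :=
  ∀ (M : Type) [AddCommGroup M] [MoS R M], X.In M → ∀ x : ι → M, Sat φ M x → Sat ψ M x

/-- realisation of a set of formulas -/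
def Re (S : Set (PP R ι)) (M : Type) [AddCommGroup M] [MoS R M] (x : ι → M) : Prop :=
  ∀ φ ∈ S, Sat φ M x

/-- the positive primitive type of a tuple -/
def pp (M : Type) [AddCommGroup M] [MoS R M] (x : ι → M) : Set (PP R ι) := {φ | Sat φ M x}

/-- entailment in the class: finitely many members of `S` imply `ψ` -/
def Ax.Ent (X : Ax R) (S : Set (PP R ι)) (ψ : PP R ι) : Prop :=
  ∃ s : Finset (PP R ι), ↑s ⊆ S ∧ ∀ (M : Type) [AddCommGroup M] [MoS R M], X.In M →
    ∀ x : ι → M, (∀ φ ∈ s, Sat φ M x) → Sat ψ M x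

/-- closure of a set of formulas -/
def Ax.Cl (X : Ax R) (S : Set (PP R ι)) : Set (PP R ι) := {ψ | X.Ent S ψ}

/-- `(N, g)` is honest for `S`: the type of `g` is generated by `S`, and the type of each finite
tuple over `g` is generated by `S` and one formula. -/
structure Ax.Honest (X : Ax R) (S : Set (PP R ι)) (N : Type) [AddCommGroup N] [MoS R N]
    (g : ι → N) : Prop where
  mem : X.In N
  ctbl : Countable N
  sat : Re S N g
  gen0 : ∀ ψ : PP R ι, Sat ψ N g → X.Ent S ψ
  gen : ∀ (k : ℕ) (b : Fin k → N), ∃ θ : PP R (ι ⊕ Fin k), Sat θ N (Sum.elim g b) ∧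
    ∀ ψ : PP R (ι ⊕ Fin k), Sat ψ N (Sum.elim g b) → ∃ s : Finset (PP R ι), ↑s ⊆ S ∧
      ∀ (M : Type) [AddCommGroup M] [MoS R M], X.In M → ∀ (x : ι → M) (y : Fin k → M),
        (∀ φ ∈ s, Sat φ M x) → Sat θ M (Sum.elim x y) → Sat ψ M (Sum.elim x y)

/-- the tuples satisfying one formula which implies all of `S` -/
def Ax.P (X : Ax R) (S : Set (PP R ι)) (M : Type) [AddCommGroup M] [MoS R M] (x : ι → M) :
    Prop :=
  ∃ χ : PP R ι, (∀ ψ ∈ S, X.Le χ ψ) ∧ Sat χ M x

/-- null maps -/
def Ax.Null (X : Ax R) {N M : Type} [AddCommGroup N] [MoS R N] [AddCommGroup M] [MoS R M]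
    (u : Hm R N M) : Prop :=
  ∀ (k : ℕ) (b : Fin k → N), X.P (pp N b) M (u ∘ b)

/-- equality of maps modulo null maps -/
def Ax.Eqv (X : Ax R) {N M : Type} [AddCommGroup N] [MoS R N] [AddCommGroup M] [MoS R M]
    (u v : Hm R N M) : Prop := X.Null (u - v)

/-- `N` is a retract of `M` modulo null maps -/
def Ax.Retr (X : Ax R) (N M : Type) [AddCommGroup N] [MoS R N] [AddCommGroup M] [MoS R M] :
    Prop := ∃ (α : Hm R N M) (β : Hm R M N), X.Eqv (β.comp α) Hm.id

/-- all types of finite tuples are principal -/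
def Ax.Atomic (X : Ax R) (B : Type) [AddCommGroup B] [MoS R B] : Prop :=
  ∀ (k : ℕ) (b : Fin k → B), ∃ β : PP R (Fin k), Sat β B b ∧ ∀ ψ, Sat ψ B b → X.Le β ψ

/-- Level-one formulas: `∃ t, V(x, t)`, where `V` is a set of positive primitive formulas. -/
abbrev L1 (R : Type) [RSig R] (ι : Type) : Type := (k : ℕ) × Set (PP R (ι ⊕ Fin k))

/-- satisfaction of a level-one formula -/
def Sat1 (V : L1 R ι) (M : Type) [AddCommGroup M] [MoS R M] (x : ι → M) : Prop :=
  ∃ t : Fin V.1 → M, Re V.2 M (Sum.elim x t)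

/-- A family of relations given by a level-one formula (for the countable modules of the class). -/
def Ax.IsL1 (X : Ax R) (F : ∀ (M : Type) [AddCommGroup M] [MoS R M], (ι → M) → Prop) : Prop :=
  ∃ V : L1 R ι, ∀ (M : Type) [AddCommGroup M] [MoS R M], Countable M → X.In M →
    ∀ x : ι → M, F M x ↔ Sat1 V M x

/-- implication between level-one formulas -/
def Ax.Le1 (X : Ax R) (V W : L1 R ι) : Prop :=
  ∀ (M : Type) [AddCommGroup M] [MoS R M], Countable M → X.In M → ∀ x : ι → M,
    Sat1 V M x → Sat1 W M x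

/-- the level-one type of a tuple -/
def tp1 (M : Type) [AddCommGroup M] [MoS R M] (x : ι → M) : Set (L1 R ι) := {V | Sat1 V M x}

/-- `x` is exact for `V`: `V` is the least level-one formula which `x` satisfies -/
def Ax.Exact (X : Ax R) (V : L1 R ι) (M : Type) [AddCommGroup M] [MoS R M] (x : ι → M) : Prop :=
  Sat1 V M x ∧ ∀ W : L1 R ι, Sat1 W M x → X.Le1 V W

/-- the level-one types realised in a module -/
def real1 (M : Type) [AddCommGroup M] [MoS R M] : Set ((n : ℕ) × Set (L1 R (Fin n))) :=
  {τ | ∃ x : Fin τ.1 → M, tp1 M x = τ.2}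

/-- countably many level-one types in the class, with an atomic module `B` -/
structure Ax.Few (X : Ax R) (B : Type) [AddCommGroup B] [MoS R B] : Prop where
  mem : X.In B
  ctbl : Countable B
  atomic : X.Atomic B
  few1 : ∀ n : ℕ, {τ : Set (L1 R (Fin n)) | ∃ N : Md R, Countable N ∧ X.In N ∧
    ∃ x : Fin n → N, tp1 N x = τ}.Countable
  few2 : {Θ : Set ((n : ℕ) × Set (L1 R (Fin n))) | ∃ N : Md R, Countable N ∧ X.In N ∧
    real1 (B × N) = Θ}.Countable

end

end Pool.Agent.AVC
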