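import Pool.Agent.AVC.Api3

/-!
# The stable endomorphism ring, reduced powers, the groups `e_q(M)`
-/

set_option autoImplicit false
set_option linter.unusedSectionVars false
set_option linter.unusedVariables false

namespace Pool.Agent.AVC

open Set Ax

variable {R : Type} [RSig R]

/-! ### The stable endomorphism ring -/

/-- the null endomorphisms -/
def Ax.nullIdeal (X : Ax R) (N : Type) [AddCommGroup N] [MoS R N] : Ideal ((Hm R N N)) where
  carrier := {u | X.Null u}
  add_mem' := fun h h' => Null.add h h'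
  zero_mem' := Null.zero
  smul_mem' := fun f u hu => Null.comp_left hu f

instance (X : Ax R) (N : Type) [AddCommGroup N] [MoS R N] : (X.nullIdeal N).IsTwoSided :=
  ⟨fun {u} f hu => Null.comp_right hu f⟩

/-- the stable endomorphism ring -/
abbrev Ax.Q (X : Ax R) (N : Type) [AddCommGroup N] [MoS R N] : Type :=
  (Hm R N N) ⧸ X.nullIdeal N

/-! ### Reduced powers -/

/-- sequences which are eventually zero -/
def fin0 (R : Type) [RSig R] (M : Type) [AddCommGroup M] [MoS R M] : Submodule R (ℕ → M) where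
  carrier := {s | ∃ n, ∀ m ≥ n, s m = 0}
  add_mem' := by
    rintro s t ⟨n, hn⟩ ⟨k, hk⟩
    exact ⟨max n k, fun m hm => by
      rw [Pi.add_apply, hn m (le_trans (le_max_left _ _) hm), hk m (le_trans (le_max_right _ _) hm),
        add_zero]⟩
  zero_mem' := ⟨0, fun m _ => rfl⟩
  smul_mem' := by
    rintro r s ⟨n, hn⟩
    exact ⟨n, fun m hm => by rw [Pi.smul_apply, hn m hm, smul_zero]⟩

/-- the predicates of the reduced power: sequences which are eventually in the predicate -/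
def miP {R : Type} [RSig R] (M : Md R) (i : RSig.Ix R) :
    AddSubgroup (Fin (RSig.ar i) → ((ℕ → M) ⧸ fin0 R M)) where
  carrier := {z | ∃ s : Fin (RSig.ar i) → ℕ → M, (∀ j, (fin0 R M).mkQ (s j) = z j) ∧
    ∃ n, ∀ m ≥ n, (fun j => s j m) ∈ MoS.P (R := R) (M := M) i}
  add_mem' := by
    rintro z z' ⟨s, hs, n, hn⟩ ⟨s', hs', n', hn'⟩
    refine ⟨s + s', fun j => ?_, max n n', fun m hm => ?_⟩
    · show (fin0 R M).mkQ (s j + s' j) = z j + z' j
      rw [map_add, hs, hs']
    · exact (MoS.P i).add_mem (hn m (le_trans (le_max_left _ _) hm))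
        (hn' m (le_trans (le_max_right _ _) hm))
  zero_mem' := ⟨0, fun j => map_zero _, 0, fun m _ => (MoS.P i).zero_mem⟩
  neg_mem' := by
    rintro z ⟨s, hs, n, hn⟩
    refine ⟨-s, fun j => ?_, n, fun m hm => (MoS.P i).neg_mem (hn m hm)⟩
    show (fin0 R M).mkQ (-s j) = -z j
    rw [map_neg, hs]

/-- the reduced power -/
def MI (M : Md R) : Md R :=
  @Md.mk R _ ((ℕ → M) ⧸ fin0 R M) _ { toModule := inferInstance, P := miP M }

/-- the class of a sequence -/
def MI.mk (M : Md R) : Hm R (ℕ → M) (MI M) :=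
  ⟨(fin0 R M).mkQ, fun i x h => ⟨x, fun j => rfl, 0, fun m _ => h m⟩⟩

/-- membership in a predicate of the reduced power -/
theorem MI.mem_P (M : Md R) (i : RSig.Ix R) (s : Fin (RSig.ar i) → ℕ → M) :
    (fun j => MI.mk M (s j)) ∈ MoS.P (R := R) (M := MI M) i ↔
      ∃ n, ∀ m ≥ n, (fun j => s j m) ∈ MoS.P (R := R) (M := M) i := by
  constructor
  · rintro ⟨t, ht, n, hn⟩
    have h1 : ∀ j, ∃ k, ∀ m ≥ k, s j m = t j m := by
      intro j
      have h2 : t j - s j ∈ fin0 R M := (Submodule.Quotient.eq _).mp (ht j)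
      obtain ⟨k, hk⟩ := h2
      refine ⟨k, fun m hm => ?_⟩
      have h3 := hk m hm
      rw [Pi.sub_apply, sub_eq_zero] at h3
      exact h3.symm
    choose k hk using h1
    refine ⟨max n (Finset.univ.sup k), fun m hm => ?_⟩
    have h4 : (fun j => s j m) = fun j => t j m := by
      funext j
      refine hk j m (le_trans ?_ hm)
      exact le_trans (Finset.le_sup (Finset.mem_univ j)) (le_max_right _ _)
    rw [h4]
    exact hn m (le_trans (le_max_left _ _) hm)
  · rintro ⟨n, hn⟩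
    exact ⟨s, fun j => rfl, n, hn⟩

/-- constant sequences -/
def MI.cst (M : Md R) : Hm R M (MI M) :=
  Hm.comp (MI.mk M) (Hm.pi (fun _ => Hm.id))

/-- the shift -/
def MI.sh (M : Md R) : Hm R (MI M) (MI M) :=
  ⟨(fin0 R M).mapQ (fin0 R M) (LinearMap.funLeft R M Nat.succ) (by
    rintro s ⟨n, hn⟩
    exact ⟨n, fun m hm => hn (m + 1) (le_trans hm (Nat.le_succ m))⟩), by
    rintro i z ⟨s, hs, n, hn⟩
    refine ⟨fun j m => s j (m + 1), fun j => ?_, n,
      fun m hm => hn (m + 1) (le_trans hm (Nat.le_succ m))⟩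
    obtain rfl : (fun j => (fin0 R M).mkQ (s j)) = z := funext hs
    rfl⟩

theorem MI.sh_mk (M : Md R) (s : ℕ → M) : MI.sh M (MI.mk M s) = MI.mk M (fun n => s (n + 1)) := rfl

theorem MI.mk_surj (M : Md R) : Function.Surjective (MI.mk M) := Submodule.mkQ_surjective _

theorem MI.mk_eq (M : Md R) (s t : ℕ → M) :
    MI.mk M s = MI.mk M t ↔ ∃ n, ∀ m ≥ n, s m = t m := by
  have h1 : MI.mk M s = MI.mk M t ↔ s - t ∈ fin0 R M := Submodule.Quotient.eq _
  rw [h1]
  exact exists_congr fun n => forall_congr' fun m => imp_congr Iff.rfl (by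
    rw [Pi.sub_apply, sub_eq_zero])

/-! ### The groups `e_q(M)` -/

/-- the maps `N → M^∞` which represent zero -/
def Ax.exSub (X : Ax R) (N M : Md R) : AddSubgroup (Hm R N (MI M)) where
  carrier := {f | ∃ h u : Hm R N (MI M), X.Null u ∧ f = (Hm.comp (MI.sh M) h - h) + u}
  add_mem' := by
    rintro f f' ⟨h, u, hu, rfl⟩ ⟨h', u', hu', rfl⟩
    refine ⟨h + h', u + u', Null.add hu hu', ?_⟩
    rw [Hm.comp_add]
    abel
  zero_mem' := ⟨0, 0, Null.zero, by rw [Hm.comp_zero, sub_zero, add_zero]⟩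
  neg_mem' := by
    rintro f ⟨h, u, hu, rfl⟩
    refine ⟨-h, -u, Null.neg hu, ?_⟩
    rw [Hm.comp_neg]
    abel

/-- the group `e_q(M)`, where `N` is honest for `q` -/
def Ax.ex (X : Ax R) (N M : Md R) : Type := (Hm R N (MI M)) ⧸ X.exSub N M

instance (X : Ax R) (N M : Md R) : AddCommGroup (X.ex N M) :=
  inferInstanceAs (AddCommGroup ((Hm R N (MI M)) ⧸ X.exSub N M))

/-- the class of a map -/
def Ax.exMk (X : Ax R) (N M : Md R) : (Hm R N (MI M)) →+ X.ex N M := QuotientAddGroup.mk' _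

theorem exMk_surj (X : Ax R) (N M : Md R) : Function.Surjective (X.exMk N M) :=
  QuotientAddGroup.mk'_surjective _

theorem exMk_eq_zero (X : Ax R) (N M : Md R) (f : Hm R N (MI M)) :
    X.exMk N M f = 0 ↔ ∃ h u : Hm R N (MI M), X.Null u ∧ f = (Hm.comp (MI.sh M) h - h) + u :=
  QuotientAddGroup.eq_zero_iff _

/-- pulling back along a map -/
def Ax.exMap (X : Ax R) {N N' : Md R} (v : Hm R N N') (M : Md R) : X.ex N' M →+ X.ex N M :=
  QuotientAddGroup.map (X.exSub N' M) (X.exSub N M)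
    ({ toFun := fun f => Hm.comp f v, map_zero' := Hm.zero_comp v,
       map_add' := fun f f' => Hm.add_comp v f f' } : (Hm R N' (MI M)) →+ (Hm R N (MI M))) (by
    rintro f ⟨h, u, hu, rfl⟩
    refine ⟨Hm.comp h v, Hm.comp u v, Null.comp_right hu v, ?_⟩
    show Hm.comp ((Hm.comp (MI.sh M) h - h) + u) v = _
    rw [Hm.add_comp, Hm.sub_comp, Hm.comp_assoc])

theorem exMap_mk (X : Ax R) {N N' : Md R} (v : Hm R N N') (M : Md R) (f : Hm R N' (MI M)) :
    X.exMap v M (X.exMk N' M f) = X.exMk N M (Hm.comp f v) := rfl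

theorem exMap_eqv (X : Ax R) {N N' : Md R} {v w : Hm R N N'} (h : X.Eqv v w) (M : Md R) :
    X.exMap v M = X.exMap w M := by
  ext e
  obtain ⟨f, rfl⟩ := exMk_surj X N' M e
  rw [exMap_mk, exMap_mk, ← sub_eq_zero, ← map_sub, exMk_eq_zero]
  refine ⟨0, Hm.comp f (v - w), Null.comp_left h f, ?_⟩
  rw [Hm.comp_zero, sub_zero, zero_add, Hm.comp_sub]

theorem exMap_add (X : Ax R) {N N' : Md R} (v w : Hm R N N') (M : Md R) (e : X.ex N' M) :
    X.exMap (v + w) M e = X.exMap v M e + X.exMap w M e := by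
  obtain ⟨f, rfl⟩ := exMk_surj X N' M e
  rw [exMap_mk, exMap_mk, exMap_mk, ← map_add, Hm.comp_add]

theorem exMap_zero (X : Ax R) {N N' : Md R} (M : Md R) (e : X.ex N' M) :
    X.exMap (0 : Hm R N N') M e = 0 := by
  obtain ⟨f, rfl⟩ := exMk_surj X N' M e
  rw [exMap_mk, Hm.comp_zero, map_zero]

theorem exMap_comp (X : Ax R) {N N' N'' : Md R} (v : Hm R N N') (w : Hm R N' N'') (M : Md R)
    (e : X.ex N'' M) : X.exMap v M (X.exMap w M e) = X.exMap (Hm.comp w v) M e := by
  obtain ⟨f, rfl⟩ := exMk_surj X N'' M e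
  rfl

theorem exMap_id (X : Ax R) (N M : Md R) (e : X.ex N M) :
    X.exMap (Hm.id : Hm R N N) M e = e := by
  obtain ⟨f, rfl⟩ := exMk_surj X N M e
  rfl

/-- the action of the stable endomorphism ring as additive maps -/
def Ax.exAct (X : Ax R) (N M : Md R) : X.Q N →+ (X.ex N M →+ X.ex N M) :=
  QuotientAddGroup.lift (X.nullIdeal N).toAddSubgroup
    ({ toFun := fun v => X.exMap v M
       map_zero' := by
         ext e
         exact exMap_zero X M e
       map_add' := fun v w => by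
         ext e
         exact exMap_add X v w M e } : (Hm R N N) →+ (X.ex N M →+ X.ex N M)) (by
    intro v hv
    have h1 : X.Eqv v (0 : Hm R N N) := by
      unfold Ax.Eqv
      rw [sub_zero]
      exact hv
    have h2 := exMap_eqv X h1 M
    show X.exMap v M = 0
    rw [h2]
    ext e
    exact exMap_zero X M e)

instance (X : Ax R) (N M : Md R) : SMul (X.Q N)ᵐᵒᵖ (X.ex N M) :=
  ⟨fun q e => X.exAct N M (MulOpposite.unop q) e⟩

theorem smul_mk_ex (X : Ax R) (N M : Md R) (v : (Hm R N N)) (e : X.ex N M) :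
    MulOpposite.op (Ideal.Quotient.mk (X.nullIdeal N) v) • e = X.exMap v M e := rfl

/-- `e_q(M)` is a right module over the stable endomorphism ring. -/
instance (X : Ax R) (N M : Md R) : Module (X.Q N)ᵐᵒᵖ (X.ex N M) where
  one_smul := fun e => exMap_id X N M e
  mul_smul := by
    intro p q e
    obtain ⟨v, hv⟩ := Ideal.Quotient.mk_surjective (MulOpposite.unop p)
    obtain ⟨w, hw⟩ := Ideal.Quotient.mk_surjective (MulOpposite.unop q)
    have hp : p = MulOpposite.op (Ideal.Quotient.mk (X.nullIdeal N) v) := by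
      rw [hv, MulOpposite.op_unop]
    have hq : q = MulOpposite.op (Ideal.Quotient.mk (X.nullIdeal N) w) := by
      rw [hw, MulOpposite.op_unop]
    rw [hp, hq, ← MulOpposite.op_mul, ← map_mul, smul_mk_ex, smul_mk_ex, smul_mk_ex, exMap_comp]
    rfl
  smul_zero := fun q => map_zero _
  smul_add := fun q e e' => map_add _ e e'
  add_smul := by
    intro p q e
    show X.exAct N M (MulOpposite.unop (p + q)) e = _
    rw [MulOpposite.unop_add, map_add]
    rfl
  zero_smul := by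
    intro e
    show X.exAct N M (MulOpposite.unop 0) e = 0
    rw [MulOpposite.unop_zero, map_zero]
    rfl

/-- the product of all `e_Y(M)` over all modules `M` and all `n`-tuples -/
abbrev Ax.EE (X : Ax R) (n : ℕ) (Y : Md R) : Type 1 := ∀ (M : Md R), (Fin n → M) → X.ex Y M

/-! ### Types over a type -/

/-- `V(x, t)` is a conservative extension of `S(x)` -/
def Ax.Over {ι κ : Type} (X : Ax R) (S : Set (PP R ι)) (V : Set (PP R (ι ⊕ κ))) : Prop :=
  (∀ φ ∈ S, X.Ent V (ren Sum.inl φ)) ∧ ∀ s : Finset (PP R (ι ⊕ κ)), ↑s ⊆ V →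
    ∃ s' : Finset (PP R ι), ↑s' ⊆ S ∧ ∀ (M : Type) [AddCommGroup M] [MoS R M], X.In M →
      ∀ x : ι → M, (∀ φ ∈ s', Sat φ M x) → ∃ t : κ → M, ∀ φ ∈ s, Sat φ M (Sum.elim x t)

/-- the element `e` of `e_{q_V}(M)` belongs to the tuple `a`: for some `T` in `M^∞` with `V(a, T)`
it is the class of the map `g ↦ (sh - 1)T`. -/
def Ax.IsDel (X : Ax R) {n k : ℕ} (V : Set (PP R (Fin n ⊕ Fin k))) (N : Md R) (g : Fin k → N)
    (M : Md R) (a : Fin n → M) (e : X.ex N M) : Prop :=
  ∃ (T : Fin k → MI M) (f : Hm R N (MI M)), Re V (MI M) (Sum.elim (fun i => MI.cst M (a i)) T) ∧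
    (∀ i, f (g i) = MI.sh M (T i) - T i) ∧ e = X.exMk N M f

/-- the module and the tuple are admissible -/
def Ax.Adm {n : ℕ} (X : Ax R) (S : Set (PP R (Fin n))) (M : Md R) (a : Fin n → M) : Prop :=
  X.In M ∧ Countable M ∧ Re S M a

/-- the submodule of all `δ_V λ`, `λ : Y → N_{q_V}`, in the product of all `e_Y(M)` -/
def Ax.DS (X : Ax R) {n k : ℕ} (S : Set (PP R (Fin n))) (V : Set (PP R (Fin n ⊕ Fin k)))
    (N : Md R) (g : Fin k → N) (Y : Md R) : Submodule (X.Q Y)ᵐᵒᵖ (X.EE n Y) where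
  carrier := {d | ∃ v : Hm R Y N, ∀ (M : Md R) (a : Fin n → M),
    (X.Adm S M a → ∀ e, X.IsDel V N g M a e → d M a = X.exMap v M e) ∧ (¬ X.Adm S M a → d M a = 0)}
  add_mem' := by
    rintro d d' ⟨v, hv⟩ ⟨v', hv'⟩
    refine ⟨v + v', fun M a => ⟨fun h e he => ?_, fun h => ?_⟩⟩
    · rw [exMap_add, ← (hv M a).1 h e he, ← (hv' M a).1 h e he]
      rfl
    · have h1 := (hv M a).2 h
      have h2 := (hv' M a).2 h
      show d M a + d' M a = 0
      rw [h1, h2, add_zero]
  zero_mem' := ⟨0, fun M a => ⟨fun h e he => (exMap_zero X M e).symm, fun h => rfl⟩⟩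
  smul_mem' := by
    rintro q d ⟨v, hv⟩
    obtain ⟨w, hw⟩ := Ideal.Quotient.mk_surjective (MulOpposite.unop q)
    have hq : q = MulOpposite.op (Ideal.Quotient.mk (X.nullIdeal Y) w) := by
      rw [hw, MulOpposite.op_unop]
    refine ⟨Hm.comp v w, fun M a => ⟨fun h e he => ?_, fun h => ?_⟩⟩
    · show q • d M a = _
      rw [hq, smul_mk_ex, (hv M a).1 h e he, exMap_comp]
    · show q • d M a = 0
      rw [(hv M a).2 h, smul_zero]

end Pool.Agent.AVC
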