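import Pool.Agent.AVC.Api3
import Pool.Agent.VB.B

/-!
# The language of modules, relational coding
-/

set_option autoImplicit false
set_option linter.unusedSectionVars false
set_option linter.unusedVariables false

namespace Pool.Agent.AVC

open Set Ax FirstOrder

/-- the function symbols of the language of modules: `0`, multiplication by `r`, `+` -/
inductive ModFn (R : Type) : ℕ → Type
  | zero : ModFn R 0
  | smul (r : R) : ModFn R 1
  | add : ModFn R 2

/-- the language of `R`-modules with the predicates of the signature -/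
def LMod (R : Type) [RSig R] : FirstOrder.Language.{0, 0} :=
  ⟨ModFn R, fun n => {i : RSig.Ix R // RSig.ar i = n}⟩

/-- the structure of a module with predicates -/
@[instance_reducible]
def modStr (R : Type) [RSig R] (M : Type) [AddCommGroup M] [MoS R M] :
    (LMod R).Structure M where
  funMap := fun {n} f => match n, f with
    | _, ModFn.zero => fun _ => 0
    | _, ModFn.smul r => fun v => r • v 0
    | _, ModFn.add => fun v => v 0 + v 1
  RelMap := fun {n} r v => (fun j => v (Fin.cast r.2 j)) ∈ MoS.P (R := R) (M := M) r.1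

/-- `S` is the structure of a module -/
def IsMod {R : Type} [RSig R] {M : Type} (S : (LMod R).Structure M) : Prop :=
  ∃ (g : AddCommGroup M) (m : MoS R M), S = @modStr R _ M g m

/-- `M` is a model of `T` -/
def Mods {R : Type} [RSig R] (T : (LMod R).Theory) (M : Type) [AddCommGroup M] [MoS R M] :
    Prop :=
  @FirstOrder.Language.Theory.Model (LMod R) M (modStr R M) T

/-- the relation symbols of the relational language of modules -/
inductive ModRel (R : Type) [RSig R] : ℕ → Type
  | zero : ModRel R 1
  | smul (r : R) : ModRel R 2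
  | add : ModRel R 3
  | prd {n : ℕ} (i : {i : RSig.Ix R // RSig.ar i = n}) : ModRel R n

/-- the relational language of modules -/
def LR (R : Type) [RSig R] : FirstOrder.Language.{0, 0} := ⟨fun _ => Empty, ModRel R⟩

instance (R : Type) [RSig R] (n : ℕ) : IsEmpty ((LR R).Functions n) :=
  inferInstanceAs (IsEmpty Empty)

/-- the graph of a structure -/
@[instance_reducible]
def grph {R M : Type} [RSig R] (S : (LMod R).Structure M) : (LR R).Structure M where
  funMap := fun {n} f => nomatch f
  RelMap := fun {n} r => match n, r with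
    | _, ModRel.zero => fun v => S.funMap (ModFn.zero : (LMod R).Functions 0) ![] = v 0
    | _, ModRel.smul r => fun v => S.funMap (ModFn.smul r : (LMod R).Functions 1) ![v 0] = v 1
    | _, ModRel.add => fun v =>
        S.funMap (ModFn.add : (LMod R).Functions 2) ![v 0, v 1] = v 2
    | _, ModRel.prd i => fun v => S.RelMap (i : (LMod R).Relations _) v

/-- the graphs of the models of `T` on `ℕ` -/
def Kof {R : Type} [RSig R] (T : (LMod R).Theory) : Set ((LR R).Structure ℕ) :=
  {S' | ∃ S : (LMod R).Structure ℕ, @FirstOrder.Language.Theory.Model (LMod R) ℕ S T ∧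
    S' = grph S}

/-- the first alternative of Vaught's conjecture -/
def CtblMod {R : Type} [RSig R] (T : (LMod R).Theory) : Prop :=
  ∃ g : ℕ → (LMod R).Structure ℕ, ∀ S : (LMod R).Structure ℕ,
    @FirstOrder.Language.Theory.Model (LMod R) ℕ S T →
      ∃ n : ℕ, Nonempty (@FirstOrder.Language.Equiv (LMod R) ℕ ℕ S (g n))

/-- the second alternative of Vaught's conjecture -/
def PerfMod {R : Type} [RSig R] (T : (LMod R).Theory) : Prop :=
  ∃ f : (ℕ → Bool) → (LMod R).Structure ℕ,
    (∀ x : ℕ → Bool, @FirstOrder.Language.Theory.Model (LMod R) ℕ (f x) T) ∧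
    (∀ x y : ℕ → Bool,
      Nonempty (@FirstOrder.Language.Equiv (LMod R) ℕ ℕ (f x) (f y)) → x = y) ∧
    (∀ (n : ℕ) (F : (LMod R).Functions n) (a : Fin n → ℕ) (b : ℕ),
      IsClopen {x : ℕ → Bool | @FirstOrder.Language.Structure.funMap (LMod R) ℕ (f x) n F a = b}) ∧
    (∀ (n : ℕ) (r : (LMod R).Relations n) (a : Fin n → ℕ),
      IsClopen {x : ℕ → Bool | @FirstOrder.Language.Structure.RelMap (LMod R) ℕ (f x) n r a})

/-- the property `P` of tuples of modules, for a structure of the relational language on `ℕ` -/
def AtM {R : Type} [RSig R] {n : ℕ} (S' : (LR R).Structure ℕ)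
    (P : ∀ (M : Type) [AddCommGroup M] [MoS R M], (Fin n → M) → Prop) (v : Fin n → ℕ) : Prop :=
  ∃ (g : AddCommGroup ℕ) (m : @MoS R _ ℕ g), S' = grph (@modStr R _ ℕ g m) ∧
    @P ℕ g m v

/-- all implications between positive primitive formulas which hold in the models of `T` -/
def AxT {R : Type} [RSig R] (T : (LMod R).Theory) : Ax R :=
  {a | ∀ (M : Type) [AddCommGroup M] [MoS R M], Mods T M → ∀ x : Fin a.1 → M,
    Sat a.2.1 M x → Sat a.2.2 M x}

/-- a generic module of the class: each implication which fails in the class fails infinitely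
often -/
def Ax.Generic {R : Type} [RSig R] (X : Ax R) (M : Type) [AddCommGroup M] [MoS R M] : Prop :=
  X.In M ∧ ∀ (n : ℕ) (φ ψ : PP R (Fin n)), ¬ X.Le φ ψ →
    ∃ x : ℕ → Fin n → M, (∀ i, Sat φ M (x i)) ∧ ∀ i j, i ≠ j → ¬ Sat ψ M (x i - x j)

end Pool.Agent.AVC
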