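import Pool.Agent.AVC.St5

/-!
# Positive primitive formulas are first-order formulas (helper73)
-/

set_option autoImplicit false
set_option linter.unusedSectionVars false
set_option linter.unusedVariables false

namespace Pool.Agent.AVC

open Set Ax FirstOrder

private theorem FOR_term (R : Type) [RSig R] {α : Type} (e : α →₀ R) :
    ∃ t : (LMod R).Term α, ∀ (M : Type) [AddCommGroup M] [MoS R M] (v : α → M),
      @FirstOrder.Language.Term.realize (LMod R) M (modStr R M) α v t =
        Finsupp.linearCombination R v e := by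
  induction e using Finsupp.induction_linear with
  | zero =>
    refine ⟨FirstOrder.Language.Term.func (L := LMod R) (ModFn.zero : ModFn R 0)
      (fun i => i.elim0), fun M _ _ v => ?_⟩
    rw [map_zero]
    rfl
  | add f g hf hg =>
    obtain ⟨t, ht⟩ := hf
    obtain ⟨s, hs⟩ := hg
    refine ⟨FirstOrder.Language.Term.func (L := LMod R) (ModFn.add : ModFn R 2) ![t, s],
      fun M _ _ v => ?_⟩
    rw [map_add, ← ht M v, ← hs M v]
    rfl
  | single a b =>
    refine ⟨FirstOrder.Language.Term.func (L := LMod R) (ModFn.smul b : ModFn R 1)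
      (fun _ => FirstOrder.Language.Term.var a), fun M _ _ v => ?_⟩
    rw [Finsupp.linearCombination_single]
    rfl

/-- atomic formulas -/
private theorem FOR_atom (R : Type) [RSig R] {α : Type} (e : Atm R α) :
    ∃ ψ : (LMod R).Formula α, ∀ (M : Type) [AddCommGroup M] [MoS R M] (v : α → M),
      @FirstOrder.Language.Formula.Realize (LMod R) M (modStr R M) α ψ v ↔ Hold e M v := by
  rcases e with e | ⟨i, b, p⟩
  · obtain ⟨t, ht⟩ := FOR_term R e
    obtain ⟨s, hs⟩ := FOR_term R (0 : α →₀ R)
    refine ⟨t.equal s, fun M _ _ v => ?_⟩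
    rw [@FirstOrder.Language.Formula.realize_equal (LMod R) M (modStr R M), ht, hs, map_zero]
    exact Iff.rfl
  · choose t ht using fun j => FOR_term R (p j)
    refine ⟨FirstOrder.Language.Relations.formula
      (⟨i, rfl⟩ : (LMod R).Relations (RSig.ar i)) t, fun M _ _ v => ?_⟩
    rw [@FirstOrder.Language.Formula.realize_rel (LMod R) M (modStr R M)]
    show (fun j => @FirstOrder.Language.Term.realize (LMod R) M (modStr R M) α v (t j)) ∈
      MoS.P (R := R) (M := M) i ↔ (fun j => Finsupp.linearCombination R v (p j)) ∈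
      MoS.P (R := R) (M := M) i
    have h1 : (fun j => @FirstOrder.Language.Term.realize (LMod R) M (modStr R M) α v (t j)) =
        fun j => Finsupp.linearCombination R v (p j) := by
      funext j
      exact ht j M v
    rw [h1]

private theorem FOR_conj (R : Type) [RSig R] {α : Type} (φ : List (Atm R α)) :
    ∃ ψ : (LMod R).Formula α, ∀ (M : Type) [AddCommGroup M] [MoS R M] (v : α → M),
      @FirstOrder.Language.Formula.Realize (LMod R) M (modStr R M) α ψ v ↔
        ∀ e ∈ φ, Hold e M v := by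
  induction φ with
  | nil =>
    refine ⟨⊤, fun M _ _ v => ?_⟩
    rw [@FirstOrder.Language.Formula.realize_top (LMod R) M (modStr R M)]
    exact ⟨fun _ e he => absurd he List.not_mem_nil, fun _ => trivial⟩
  | cons e l ih =>
    obtain ⟨ψ, hψ⟩ := ih
    obtain ⟨t, ht⟩ := FOR_atom R e
    refine ⟨t ⊓ ψ, fun M _ _ v => ?_⟩
    rw [@FirstOrder.Language.Formula.realize_inf (LMod R) M (modStr R M), hψ, ht,
      List.forall_mem_cons]

theorem thm_FOR : St_FOR := by
  intro R _ n φ
  obtain ⟨K, hK'⟩ := pp_bd φ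
  have hK : ∀ e ∈ φ, ∀ m : ℕ, (Sum.inr m : Fin n ⊕ ℕ) ∈ asup e → m ≤ K :=
    fun e he m hm => (hK' e he m hm).le
  let f : ℕ → Fin (K + 1) := fun m => Fin.ofNat (K + 1) m
  have hf : ∀ m, m ≤ K → (f m).1 = m := fun m hm => Nat.mod_eq_of_lt (Nat.lt_succ_of_le hm)
  obtain ⟨ψ, hψ⟩ := FOR_conj R (φ.map (amap
    (Sum.map id f : Fin n ⊕ ℕ → Fin n ⊕ Fin (K + 1))))
  refine ⟨ψ.iExs (Fin (K + 1)), fun M _ _ x => ?_⟩
  have h1 : ∀ (y : Fin (K + 1) → M) (e : Atm R (Fin n ⊕ ℕ)),
      Hold (amap (Sum.map id f) e) M (Sum.elim x y) ↔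
        Hold e M (Sum.elim x (y ∘ f)) := by
    intro y e
    rw [hold_amap]
    have h2 : (Sum.elim x y : Fin n ⊕ Fin (K + 1) → M) ∘ Sum.map id f = Sum.elim x (y ∘ f) := by
      funext i
      cases i <;> rfl
    rw [h2]
  rw [@FirstOrder.Language.Formula.realize_iExs (LMod R) M (modStr R M)]
  constructor
  · rintro ⟨y, hy⟩
    rw [hψ] at hy
    refine ⟨y ∘ f, fun e he => ?_⟩
    rw [← h1]
    exact hy _ (List.mem_map_of_mem he)
  · rintro ⟨y, hy⟩
    refine ⟨fun k => y k.1, ?_⟩
    rw [hψ]
    intro e' he'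
    obtain ⟨e, he, rfl⟩ := List.mem_map.1 he'
    rw [h1]
    refine (hold_congr fun s hs => ?_).1 (hy e he)
    rcases s with i | m
    · rfl
    · show y m = y (f m).1
      rw [hf m (hK e he m hs)]

end Pool.Agent.AVC
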