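import Pool.Agent.AVC.St5

/-!
# Vaught's conjecture for modules: genericity is an elementary property (module GEQ)

The sentence `idx φ ψ m` says that there are `m` elements of `φ` which are pairwise different modulo `ψ`
(`HasM`, `realize_idx`).
-/

set_option autoImplicit false
set_option linter.unusedSectionVars false
set_option linter.unusedVariables false

namespace Pool.Agent.AVC

open Set Ax FirstOrder

/-- there are `m` elements of `φ` which are pairwise different modulo `ψ` -/
def HasM {R : Type} [RSig R] {n : ℕ} (φ ψ : PP R (Fin n)) (m : ℕ) (M : Type) [AddCommGroup M]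
    [MoS R M] : Prop :=
  ∃ x : Fin m → Fin n → M, (∀ i, Sat φ M (x i)) ∧ ∀ i j, i ≠ j → ¬ Sat ψ M (x i - x j)

/-- there is a sentence for `HasM` -/
theorem exists_idx (h : St_FOR) {R : Type} [RSig R] {n : ℕ} (φ ψ : PP R (Fin n)) (m : ℕ) :
    ∃ θ : (LMod R).Sentence, ∀ (M : Type) [AddCommGroup M] [MoS R M],
      @FirstOrder.Language.Sentence.Realize (LMod R) M (modStr R M) θ ↔ HasM φ ψ m M := by
  classical
  obtain ⟨φ', hφ'⟩ := h R n φ
  obtain ⟨ψ', hψ'⟩ := h R n ψ
  let tA : Fin m → Fin n → (LMod R).Term (Empty ⊕ (Fin m × Fin n)) := fun i a =>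
    FirstOrder.Language.Term.var (Sum.inr (i, a))
  let tB : Fin m → Fin m → Fin n → (LMod R).Term (Empty ⊕ (Fin m × Fin n)) := fun i j a =>
    FirstOrder.Language.Term.func (ModFn.add : (LMod R).Functions 2)
      ![tA i a, FirstOrder.Language.Term.func (ModFn.smul (-1) : (LMod R).Functions 1) (fun _ => tA j a)]
  let A : Fin m → (LMod R).Formula (Empty ⊕ (Fin m × Fin n)) := fun i =>
    FirstOrder.Language.BoundedFormula.subst φ' (tA i)
  let B : Fin m → Fin m → (LMod R).Formula (Empty ⊕ (Fin m × Fin n)) := fun i j =>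
    FirstOrder.Language.BoundedFormula.subst ψ' (tB i j)
  refine ⟨FirstOrder.Language.Formula.iExs (Fin m × Fin n)
    (FirstOrder.Language.Formula.iInf A ⊓ FirstOrder.Language.Formula.iInf
      (fun p : {p : Fin m × Fin m // p.1 ≠ p.2} => (B p.1.1 p.1.2).not)), fun M _ _ => ?_⟩
  letI : (LMod R).Structure M := modStr R M
  have hA : ∀ (i : Fin m) (v : Empty ⊕ (Fin m × Fin n) → M),
      (A i).Realize v ↔ Sat φ M (fun a => v (Sum.inr (i, a))) := by
    intro i v
    rw [← hφ' M]
    exact FirstOrder.Language.BoundedFormula.realize_subst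
  have hB : ∀ (i j : Fin m) (v : Empty ⊕ (Fin m × Fin n) → M),
      (B i j).Realize v ↔ Sat ψ M ((fun a => v (Sum.inr (i, a))) - fun a => v (Sum.inr (j, a))) := by
    intro i j v
    rw [← hψ' M]
    have h1 : (fun a => (tB i j a).realize v) =
        ((fun a => v (Sum.inr (i, a))) - fun a => v (Sum.inr (j, a))) := by
      funext a
      show v (Sum.inr (i, a)) + (-1 : R) • v (Sum.inr (j, a)) = _
      rw [neg_one_smul, ← sub_eq_add_neg]
      rfl
    rw [← h1]
    exact FirstOrder.Language.BoundedFormula.realize_subst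
  show FirstOrder.Language.Formula.Realize _ _ ↔ _
  rw [FirstOrder.Language.Formula.realize_iExs]
  constructor
  · rintro ⟨x, hx⟩
    rw [FirstOrder.Language.Formula.realize_inf, FirstOrder.Language.Formula.realize_iInf,
      FirstOrder.Language.Formula.realize_iInf] at hx
    refine ⟨fun i a => x (i, a), fun i => (hA i _).1 (hx.1 i), fun i j hij hs => ?_⟩
    have h2 := hx.2 ⟨(i, j), hij⟩
    rw [FirstOrder.Language.Formula.realize_not] at h2
    exact h2 ((hB i j _).2 hs)
  · rintro ⟨x, hx1, hx2⟩
    refine ⟨fun p => x p.1 p.2, ?_⟩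
    rw [FirstOrder.Language.Formula.realize_inf, FirstOrder.Language.Formula.realize_iInf,
      FirstOrder.Language.Formula.realize_iInf]
    refine ⟨fun i => (hA i _).2 (hx1 i), fun p => ?_⟩
    rw [FirstOrder.Language.Formula.realize_not]
    exact fun hs => hx2 p.1.1 p.1.2 p.2 ((hB _ _ _).1 hs)

/-- the sentence: there are `m` elements of `φ` which are pairwise different modulo `ψ` -/
noncomputable def idx (h : St_FOR) {R : Type} [RSig R] {n : ℕ} (φ ψ : PP R (Fin n)) (m : ℕ) :
    (LMod R).Sentence := Classical.choose (exists_idx h φ ψ m)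

theorem realize_idx (h : St_FOR) {R : Type} [RSig R] {n : ℕ} (φ ψ : PP R (Fin n)) (m : ℕ)
    (M : Type) [AddCommGroup M] [MoS R M] :
    @FirstOrder.Language.Sentence.Realize (LMod R) M (modStr R M) (idx h φ ψ m) ↔ HasM φ ψ m M :=
  Classical.choose_spec (exists_idx h φ ψ m) M

/-- elementary equivalence is symmetric in the form needed here -/
theorem realize_iff_of_mods {R : Type} [RSig R] {M N : Type} [AddCommGroup M] [MoS R M]
    [AddCommGroup N] [MoS R N] (h : Mods (Th R M) N) (θ : (LMod R).Sentence) :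
    @FirstOrder.Language.Sentence.Realize (LMod R) N (modStr R N) θ ↔
      @FirstOrder.Language.Sentence.Realize (LMod R) M (modStr R M) θ := by
  have key : ∀ θ : (LMod R).Sentence,
      @FirstOrder.Language.Sentence.Realize (LMod R) M (modStr R M) θ →
      @FirstOrder.Language.Sentence.Realize (LMod R) N (modStr R N) θ := fun θ hθ =>
    (@FirstOrder.Language.Theory.model_iff (LMod R) N (modStr R N) (Th R M)).1 h θ hθ
  refine ⟨fun hN => ?_, key θ⟩
  by_contra hM
  have h1 : @FirstOrder.Language.Sentence.Realize (LMod R) M (modStr R M) θ.not :=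
    (@FirstOrder.Language.Sentence.realize_not (LMod R) M (modStr R M) θ).2 hM
  exact (@FirstOrder.Language.Sentence.realize_not (LMod R) N (modStr R N) θ).1 (key _ h1) hN

/-- `HasM` is elementary -/
theorem hasM_iff_of_mods (h : St_FOR) {R : Type} [RSig R] {M N : Type} [AddCommGroup M]
    [MoS R M] [AddCommGroup N] [MoS R N] (hN : Mods (Th R M) N) {n : ℕ}
    (φ ψ : PP R (Fin n)) (m : ℕ) : HasM φ ψ m N ↔ HasM φ ψ m M := by
  rw [← realize_idx h, ← realize_idx h]
  exact realize_iff_of_mods hN _

/-- infinitely many elements of `φ` which are different modulo `ψ` -/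
theorem exists_seq_iff_hasM {R : Type} [RSig R] {M : Type} [AddCommGroup M] [MoS R M] {n : ℕ}
    (φ ψ : PP R (Fin n)) :
    (∃ x : ℕ → Fin n → M, (∀ i, Sat φ M (x i)) ∧ ∀ i j, i ≠ j → ¬ Sat ψ M (x i - x j)) ↔
      ∀ m, HasM φ ψ m M := by
  classical
  constructor
  · rintro ⟨x, hx1, hx2⟩ m
    exact ⟨fun i => x i, fun i => hx1 i, fun i j hij => hx2 i j fun h => hij (Fin.ext h)⟩
  · intro h
    -- the set of the cosets
    let S : Set ((Fin n → M) ⧸ satGroup ψ M) := (QuotientAddGroup.mk) '' {x | Sat φ M x}
    have hS : S.Infinite := by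
      intro hfin
      obtain ⟨x, hx1, hx2⟩ := h (hfin.toFinset.card + 1)
      have hinj : Function.Injective
          (fun i => (QuotientAddGroup.mk (x i) : (Fin n → M) ⧸ satGroup ψ M)) := by
        intro i j hij
        by_contra hne
        have h1 : -x j + x i ∈ satGroup ψ M := QuotientAddGroup.eq.1 hij.symm
        refine hx2 i j hne ?_
        rw [sub_eq_add_neg, add_comm]
        exact h1
      have h2 : (Finset.univ.image
          (fun i => (QuotientAddGroup.mk (x i) : (Fin n → M) ⧸ satGroup ψ M))) ⊆ hfin.toFinset := by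
        intro z hz
        obtain ⟨i, -, rfl⟩ := Finset.mem_image.1 hz
        exact hfin.mem_toFinset.2 ⟨x i, hx1 i, rfl⟩
      have h3 := Finset.card_le_card h2
      rw [Finset.card_image_of_injective _ hinj, Finset.card_univ, Fintype.card_fin] at h3
      omega
    have hc : ∀ i : ℕ, ∃ x : Fin n → M, Sat φ M x ∧
        (QuotientAddGroup.mk x : (Fin n → M) ⧸ satGroup ψ M) = (hS.natEmbedding S i : S).1 := by
      intro i
      obtain ⟨x, hx, hx'⟩ := (hS.natEmbedding S i : S).2
      exact ⟨x, hx, hx'⟩
    choose x hx1 hx2 using hc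
    refine ⟨x, hx1, fun i j hij hs => hij ?_⟩
    refine (hS.natEmbedding S).injective (Subtype.ext ?_)
    rw [← hx2 i, ← hx2 j]
    refine (QuotientAddGroup.eq.2 ?_).symm
    show Sat ψ M (-x j + x i)
    rw [add_comm, ← sub_eq_add_neg]
    exact hs

theorem thm_GEQ (h : St_FOR) : St_GEQ := by
  classical
  intro R _ M N _ _ _ _ hM hN
  refine ⟨?_, fun n φ ψ hle => ?_⟩
  · -- the implications: no element of `φ` outside `ψ`
    intro a ha x hx
    by_contra hc
    have h1 : HasM a.2.1 a.2.2 2 N := by
      refine ⟨![x, 0], ?_, ?_⟩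
      · intro i
        match i with
        | 0 => exact hx
        | 1 => exact Sat.zero _
      · intro i j hij
        match i, j with
        | 0, 0 => exact absurd rfl hij
        | 1, 1 => exact absurd rfl hij
        | 0, 1 =>
          show ¬ Sat a.2.2 N (x - 0)
          rw [sub_zero]
          exact hc
        | 1, 0 =>
          show ¬ Sat a.2.2 N (0 - x)
          rw [zero_sub]
          intro h2
          have h3 := h2.neg
          rw [neg_neg] at h3
          exact hc h3
    obtain ⟨y, hy1, hy2⟩ := (hasM_iff_of_mods h hN a.2.1 a.2.2 2).1 h1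
    refine hy2 0 1 (by decide) ?_
    exact Sat.sub (ha _ (hy1 0)) (ha _ (hy1 1))
  · rw [exists_seq_iff_hasM]
    intro m
    rw [hasM_iff_of_mods h hN]
    exact (exists_seq_iff_hasM φ ψ).1 (hM.2 n φ ψ hle) m

end Pool.Agent.AVC
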