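import Pool.Agent.AVC.Aff

/-!
# Automorphism groups, isomorphisms given by pairs of maps, ranges, sums of homomorphisms
-/

set_option autoImplicit false
set_option linter.unusedSectionVars false
set_option linter.unusedVariables false

namespace Pool.Agent.AVC

open Set

section

variable {R : Type} [RSig R] {M N K L : Type} [AddCommGroup M] [MoS R M] [AddCommGroup N] [MoS R N]
  [AddCommGroup K] [MoS R K] [AddCommGroup L] [MoS R L]

/-! ### Sums and products -/

/-- evaluation as an additive map -/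
def Hm.ev (x : M) : Hm R M N →+ N where
  toFun f := f x
  map_zero' := rfl
  map_add' f g := rfl

@[simp] theorem Hm.ev_apply (x : M) (f : Hm R M N) : Hm.ev x f = f x := rfl

theorem Hm.sum_apply {A : Type} (s : Finset A) (f : A → Hm R M N) (x : M) :
    (∑ a ∈ s, f a) x = ∑ a ∈ s, f a x :=
  map_sum (Hm.ev x) f s

@[simp] theorem Hm.fst_apply (z : M × N) : Hm.fst R M N z = z.1 := rfl

@[simp] theorem Hm.snd_apply (z : M × N) : Hm.snd R M N z = z.2 := rfl

@[simp] theorem Hm.inl_apply (x : M) : Hm.inl R M N x = (x, 0) := rfl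

@[simp] theorem Hm.inr_apply (y : N) : Hm.inr R M N y = (0, y) := rfl

@[simp] theorem Hm.prod_apply (f : Hm R K M) (g : Hm R K N) (x : K) :
    Hm.prod f g x = (f x, g x) := rfl

@[simp] theorem Hm.coprod_apply (f : Hm R M K) (g : Hm R N K) (z : M × N) :
    Hm.coprod f g z = f z.1 + g z.2 := rfl

@[simp] theorem Hm.proj_apply {A : Type} {Q : A → Type} [∀ a, AddCommGroup (Q a)]
    [∀ a, MoS R (Q a)] (a : A) (x : ∀ a, Q a) : Hm.proj (R := R) a x = x a := rfl

@[simp] theorem Hm.pi_apply {A : Type} {Q : A → Type} [∀ a, AddCommGroup (Q a)]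
    [∀ a, MoS R (Q a)] (f : ∀ a, Hm R K (Q a)) (x : K) (a : A) : Hm.pi f x a = f a x := rfl

/-- the inclusion of a factor in a product -/
def Hm.psingle {A : Type} [DecidableEq A] (Q : A → Type) [∀ a, AddCommGroup (Q a)]
    [∀ a, MoS R (Q a)] (a : A) : Hm R (Q a) (∀ a, Q a) :=
  ⟨LinearMap.single R Q a, fun i x h b => by
    by_cases hb : b = a
    · subst hb
      have h1 : (fun j => (LinearMap.single R Q b (x j)) b) = x := by
        funext j
        exact Pi.single_eq_same b (x j)
      rw [h1]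
      exact h
    · have h1 : (fun j => (LinearMap.single R Q a (x j)) b) = 0 := by
        funext j
        exact Pi.single_eq_of_ne hb (x j)
      rw [h1]
      exact (MoS.P i).zero_mem⟩

@[simp] theorem Hm.psingle_apply {A : Type} [DecidableEq A] (Q : A → Type)
    [∀ a, AddCommGroup (Q a)] [∀ a, MoS R (Q a)] (a : A) (x : Q a) :
    Hm.psingle (R := R) Q a x = Pi.single a x := rfl

/-! ### Isomorphisms -/

/-- an isomorphism given by two maps which are inverse to each other -/
def Ie.ofHm (f : Hm R M N) (g : Hm R N M) (h1 : ∀ x, g (f x) = x) (h2 : ∀ x, f (g x) = x) :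
    Ie R M N :=
  ⟨LinearEquiv.ofLinearMap f.toLinearMap g.toLinearMap (LinearMap.ext h2) (LinearMap.ext h1),
    fun i x => ⟨fun h => f.pres i x h, fun h => by
      have h3 := g.pres i _ h
      refine (iff_of_eq ?_).mp h3
      congr 1
      funext j
      exact h1 (x j)⟩⟩

@[simp] theorem Ie.ofHm_apply (f : Hm R M N) (g : Hm R N M) (h1 : ∀ x, g (f x) = x)
    (h2 : ∀ x, f (g x) = x) (x : M) : Ie.ofHm f g h1 h2 x = f x := rfl

@[simp] theorem Ie.ofHm_symm_apply (f : Hm R M N) (g : Hm R N M) (h1 : ∀ x, g (f x) = x)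
    (h2 : ∀ x, f (g x) = x) (x : N) : (Ie.ofHm f g h1 h2).symm x = g x := rfl

theorem Ie.ext' {e e' : Ie R M N} (h : ∀ x, e x = e' x) : e = e' := DFunLike.ext e e' h

instance : Group (Ie R M M) where
  mul e f := f.trans e
  mul_assoc e f g := rfl
  one := Ie.refl R M
  one_mul e := rfl
  mul_one e := rfl
  inv e := e.symm
  inv_mul_cancel e := by
    refine Ie.ext' fun x => ?_
    exact e.symm_apply_apply x

@[simp] theorem Ie.mul_apply (e f : Ie R M M) (x : M) : (e * f) x = e (f x) := rfl

@[simp] theorem Ie.one_apply (x : M) : (1 : Ie R M M) x = x := rfl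

theorem Ie.inv_eq (e : Ie R M M) : e⁻¹ = e.symm := rfl

@[simp] theorem Ie.inv_apply (e : Ie R M M) (x : M) : e⁻¹ x = e.symm x := rfl

@[simp] theorem Ie.refl_apply (x : M) : Ie.refl R M x = x := rfl

theorem Ie.map_eq_zero (e : Ie R M N) {x : M} : e x = 0 ↔ x = 0 :=
  ⟨fun h => e.injective (h.trans (map_zero e).symm), fun h => by rw [h, map_zero]⟩

/-- products of isomorphisms -/
def Ie.prodCongr (e : Ie R M K) (f : Ie R N L) : Ie R (M × N) (K × L) :=
  Ie.ofHm (Hm.prod (e.hm.comp (Hm.fst R M N)) (f.hm.comp (Hm.snd R M N)))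
    (Hm.prod (e.symm.hm.comp (Hm.fst R K L)) (f.symm.hm.comp (Hm.snd R K L)))
    (fun x => Prod.ext (e.symm_apply_apply x.1) (f.symm_apply_apply x.2))
    (fun x => Prod.ext (e.apply_symm_apply x.1) (f.apply_symm_apply x.2))

@[simp] theorem Ie.prodCongr_apply (e : Ie R M K) (f : Ie R N L) (z : M × N) :
    Ie.prodCongr e f z = (e z.1, f z.2) := rfl

theorem Ie.toLinearMap_eq (e : Ie R M N) (x : M) : e.toLinearEquiv x = e x := rfl

/-- an injective map which reflects the predicates is an isomorphism onto its range -/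
noncomputable def Ie.ofInjective (e : Hm R M N) (hinj : Function.Injective e)
    (hP : ∀ (i : RSig.Ix R) (x : Fin (RSig.ar i) → M),
      (fun j => e (x j)) ∈ MoS.P (R := R) (M := N) i → x ∈ MoS.P (R := R) (M := M) i) :
    Ie R M (LinearMap.range e.toLinearMap) :=
  ⟨LinearEquiv.ofInjective e.toLinearMap hinj, fun i x => ⟨fun h => e.pres i x h, hP i x⟩⟩

@[simp] theorem Ie.ofInjective_coe (e : Hm R M N) (hinj : Function.Injective e)
    (hP : ∀ (i : RSig.Ix R) (x : Fin (RSig.ar i) → M),
      (fun j => e (x j)) ∈ MoS.P (R := R) (M := N) i → x ∈ MoS.P (R := R) (M := M) i) (x : M) :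
    ((Ie.ofInjective e hinj hP x : LinearMap.range e.toLinearMap) : N) = e x := rfl

/-- a bijective map which reflects the predicates is an isomorphism -/
noncomputable def Ie.ofBijective (e : Hm R M N) (h : Function.Bijective e)
    (hP : ∀ (i : RSig.Ix R) (x : Fin (RSig.ar i) → M),
      (fun j => e (x j)) ∈ MoS.P (R := R) (M := N) i → x ∈ MoS.P (R := R) (M := M) i) :
    Ie R M N :=
  ⟨LinearEquiv.ofBijective e.toLinearMap h, fun i x => ⟨fun h => e.pres i x h, hP i x⟩⟩

@[simp] theorem Ie.ofBijective_apply (e : Hm R M N) (h : Function.Bijective e)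
    (hP : ∀ (i : RSig.Ix R) (x : Fin (RSig.ar i) → M),
      (fun j => e (x j)) ∈ MoS.P (R := R) (M := N) i → x ∈ MoS.P (R := R) (M := M) i) (x : M) :
    Ie.ofBijective e h hP x = e x := rfl

end

section

variable {R : Type} [RSig R] {M N K L : Type} [AddCommGroup M] [AfS R M] [AddCommGroup N]
  [AfS R N] [AddCommGroup K] [AfS R K]

/-- an affine isomorphism given by two maps which are inverse to each other -/
def AIe.ofHm (f : Hm R M N) (g : Hm R N M) (h1 : ∀ x, g (f x) = x) (h2 : ∀ x, f (g x) = x)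
    (hf : f.PrQ) (hg : g.PrQ) : AIe R M N :=
  ⟨Ie.ofHm f g h1 h2, fun i x => ⟨fun h => hf i x h, fun h => by
    have h3 := hg i _ h
    refine (iff_of_eq ?_).mp h3
    congr 1
    funext j
    exact h1 (x j)⟩⟩

@[simp] theorem AIe.ofHm_apply (f : Hm R M N) (g : Hm R N M) (h1 : ∀ x, g (f x) = x)
    (h2 : ∀ x, f (g x) = x) (hf : f.PrQ) (hg : g.PrQ) (x : M) :
    AIe.ofHm f g h1 h2 hf hg x = f x := rfl

theorem AIe.ext' {e e' : AIe R M N} (h : ∀ x, e x = e' x) : e = e' := DFunLike.ext e e' h

instance : Group (AIe R M M) where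
  mul e f := f.trans e
  mul_assoc e f g := rfl
  one := AIe.refl R M
  one_mul e := rfl
  mul_one e := rfl
  inv e := e.symm
  inv_mul_cancel e := by
    refine AIe.ext' fun x => ?_
    exact e.symm_apply_apply x

@[simp] theorem AIe.mul_apply (e f : AIe R M M) (x : M) : (e * f) x = e (f x) := rfl

@[simp] theorem AIe.one_apply (x : M) : (1 : AIe R M M) x = x := rfl

theorem AIe.inv_eq (e : AIe R M M) : e⁻¹ = e.symm := rfl

@[simp] theorem AIe.inv_apply (e : AIe R M M) (x : M) : e⁻¹ x = e.symm x := rfl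

theorem AIe.symm_apply_eq (e : AIe R M N) {x : N} {y : M} : e.symm x = y ↔ x = e y :=
  e.toIe.symm_apply_eq

instance : Coe (AIe R M N) (Ie R M N) := ⟨AIe.toIe⟩

instance : Coe (AIe R M N) (Hm R M N) := ⟨AIe.hm⟩

/-- the homogeneous reduct of an automorphism -/
def AIe.toIeHom : AIe R M M →* Ie R M M where
  toFun e := e.toIe
  map_one' := rfl
  map_mul' e f := rfl

/-- products with homogeneous isomorphisms -/
def AIe.prodCongr [AddCommGroup L] [MoS R L] {L' : Type} [AddCommGroup L'] [MoS R L']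
    (e : AIe R M N) (f : Ie R L L') : AIe R (M × L) (N × L') :=
  AIe.ofHm (Hm.prod (e.hm.comp (Hm.fst R M L)) (f.hm.comp (Hm.snd R M L)))
    (Hm.prod (e.symm.hm.comp (Hm.fst R N L')) (f.symm.hm.comp (Hm.snd R N L')))
    (fun x => Prod.ext (e.symm_apply_apply x.1) (f.symm_apply_apply x.2))
    (fun x => Prod.ext (e.apply_symm_apply x.1) (f.apply_symm_apply x.2))
    (fun i x h => ⟨e.prQ i _ h.1, f.hm.mem i _ h.2⟩)
    (fun i x h => ⟨e.symm.prQ i _ h.1, f.symm.hm.mem i _ h.2⟩)

/-- an injective map which preserves and reflects the predicates is an isomorphism onto its range -/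
noncomputable def AIe.ofInjective (e : Hm R M N) (hinj : Function.Injective e)
    (hP : ∀ (i : RSig.Ix R) (x : Fin (RSig.ar i) → M),
      (fun j => e (x j)) ∈ MoS.P (R := R) (M := N) i → x ∈ MoS.P (R := R) (M := M) i)
    (hQ : ∀ (i : RSig.Ix R) (x : Fin (RSig.ar i) → M), x ∈ AfS.Q (R := R) (M := M) i ↔
      (fun j => e (x j)) ∈ AfS.Q (R := R) (M := N) i) :
    AIe R M (LinearMap.range e.toLinearMap) :=
  ⟨Ie.ofInjective e hinj hP, hQ⟩

@[simp] theorem AIe.ofInjective_coe (e : Hm R M N) (hinj : Function.Injective e)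
    (hP : ∀ (i : RSig.Ix R) (x : Fin (RSig.ar i) → M),
      (fun j => e (x j)) ∈ MoS.P (R := R) (M := N) i → x ∈ MoS.P (R := R) (M := M) i)
    (hQ : ∀ (i : RSig.Ix R) (x : Fin (RSig.ar i) → M), x ∈ AfS.Q (R := R) (M := M) i ↔
      (fun j => e (x j)) ∈ AfS.Q (R := R) (M := N) i) (x : M) :
    ((AIe.ofInjective e hinj hP hQ x : LinearMap.range e.toLinearMap) : N) = e x := rfl

/-- the inclusion of a substructure -/
theorem Hm.subtype_prQ (S : Submodule R M) : (Hm.subtype S).PrQ := fun i x h => h

/-- tuples of a substructure: the affine reading of atomic formulas -/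
theorem ahold_sub (S : Submodule R M) {α : Type} (a : Atm R α) (x : α → S) :
    AHold a S x ↔ AHold a M (fun i => (x i : M)) := by
  have key : ∀ e : α →₀ R, ((Finsupp.linearCombination R x e : S) : M) =
      Finsupp.linearCombination R (fun i => (x i : M)) e := fun e =>
    (lc_hm (Hm.subtype S) x e).symm
  rcases a with e | ⟨i, b, t⟩
  · show Finsupp.linearCombination R x e = 0 ↔ Finsupp.linearCombination R (fun i => (x i : M)) e = 0
    rw [← key]
    exact (ZeroMemClass.coe_eq_zero).symm
  · have h1 : (fun j => ((Finsupp.linearCombination R x (t j) : S) : M)) =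
        fun j => Finsupp.linearCombination R (fun i => (x i : M)) (t j) := by
      funext j
      exact key (t j)
    cases b
    · show (fun j => ((Finsupp.linearCombination R x (t j) : S) : M)) ∈
        MoS.P (R := R) (M := M) i ↔ (fun j => Finsupp.linearCombination R (fun i => (x i : M))
          (t j)) ∈ MoS.P (R := R) (M := M) i
      rw [h1]
    · show (fun j => ((Finsupp.linearCombination R x (t j) : S) : M)) ∈
        AfS.Q (R := R) (M := M) i ↔ (fun j => Finsupp.linearCombination R (fun i => (x i : M))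
          (t j)) ∈ AfS.Q (R := R) (M := M) i
      rw [h1]

end

end Pool.Agent.AVC
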