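import Pool.Agent.AVC.St

/-!
# Existence of honest modules (Henkin construction)
-/

set_option autoImplicit false
set_option linter.unusedSectionVars false
set_option linter.unusedVariables false

namespace Pool.Agent.AVC

open Set

variable {R : Type} [RSig R] {ι : Type}

private theorem lc_rank {W : Type} (h : W → ℕ) (e : W →₀ R) :
    ∃ n : ℕ, ∀ (M : Type) [AddCommGroup M] [MoS R M] (z z' : W → M),
      (∀ w, h w < n → z w = z' w) →
      Finsupp.linearCombination R z e = Finsupp.linearCombination R z' e := by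
  refine ⟨e.support.sup h + 1, fun M _ _ z z' hz => ?_⟩
  rw [Finsupp.linearCombination_apply, Finsupp.linearCombination_apply]
  refine Finsupp.sum_congr fun w hw => ?_
  rw [hz w (Nat.lt_succ_of_le (Finset.le_sup hw))]

private theorem list_rank {W : Type} (h : W → ℕ) (l : List (W →₀ R)) :
    ∃ n : ℕ, ∀ e ∈ l, ∀ (M : Type) [AddCommGroup M] [MoS R M] (z z' : W → M),
      (∀ w, h w < n → z w = z' w) →
      Finsupp.linearCombination R z e = Finsupp.linearCombination R z' e := by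
  induction l with
  | nil => exact ⟨0, fun e he => absurd he List.not_mem_nil⟩
  | cons e l ih =>
    obtain ⟨n, hn⟩ := ih
    obtain ⟨m, hm⟩ := lc_rank h e
    refine ⟨max n m, fun e' he' M _ _ z z' hz => ?_⟩
    rcases List.mem_cons.mp he' with rfl | he'
    · exact hm M z z' fun w hw => hz w (lt_of_lt_of_le hw (le_max_right _ _))
    · exact hn e' he' M z z' fun w hw => hz w (lt_of_lt_of_le hw (le_max_left _ _))

private theorem hlist_rank {W : Type} (h : W → ℕ) (l : List (Atm R W)) :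
    ∃ n : ℕ, ∀ e ∈ l, ∀ (M : Type) [AddCommGroup M] [MoS R M] (z z' : W → M),
      (∀ w, h w < n → z w = z' w) → (Hold e M z ↔ Hold e M z') := by
  induction l with
  | nil => exact ⟨0, fun e he => absurd he List.not_mem_nil⟩
  | cons e l ih =>
    obtain ⟨n, hn⟩ := ih
    refine ⟨max n ((asup e).sup h + 1), fun e' he' M _ _ z z' hz => ?_⟩
    rcases List.mem_cons.mp he' with rfl | he'
    · exact hold_congr fun w hw => hz w (lt_of_lt_of_le
        (Nat.lt_succ_of_le (Finset.le_sup hw)) (le_max_right _ _))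
    · exact hn e' he' M z z' fun w hw => hz w (lt_of_lt_of_le hw (le_max_left _ _))

/-- the free variables of a formula which lie in `ℕ` are bounded -/
private theorem fm_bound (ψ : PP R (ι ⊕ ℕ)) : ∃ n : ℕ, ∀ e ∈ ψ,
    ∀ (M : Type) [AddCommGroup M] [MoS R M] (x : ι → M) (v v' y : ℕ → M),
      (∀ i < n, v i = v' i) →
      (Hold e M (Sum.elim (Sum.elim x v) y) ↔ Hold e M (Sum.elim (Sum.elim x v') y)) := by
  obtain ⟨n, hn⟩ := hlist_rank
    (Sum.elim (Sum.elim (fun _ => 0) id) (fun _ => 0) : (ι ⊕ ℕ) ⊕ ℕ → ℕ) ψ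
  refine ⟨n, fun e he M _ _ x v v' y hv => hn e he M _ _ ?_⟩
  rintro ((i | i) | i) hi
  · rfl
  · exact hv i hi
  · rfl

/-- the formula depends only on the first `n` variables -/
private def Dep (n : ℕ) (θ : PP R (ι ⊕ ℕ)) : Prop :=
  ∀ (M : Type) [AddCommGroup M] [MoS R M] (x : ι → M) (v v' : ℕ → M),
    (∀ i < n, v i = v' i) → Sat θ M (Sum.elim x v) → Sat θ M (Sum.elim x v')

private theorem exists_dep (θ : PP R (ι ⊕ ℕ)) : ∃ n, ∀ n' ≥ n, Dep n' θ := by
  obtain ⟨n, hn⟩ := fm_bound θ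
  refine ⟨n, fun n' hn' M _ _ x v v' hv hs => ?_⟩
  obtain ⟨y, hy⟩ := hs
  refine ⟨y, fun e he => ?_⟩
  exact (hn e he M x v v' y fun i hi => hv i (lt_of_lt_of_le hi hn')).1 (hy e he)

/-- entailment from `S` and `θ` -/
private def En (X : Ax R) (S : Set (PP R ι)) (θ ψ : PP R (ι ⊕ ℕ)) : Prop :=
  ∃ s : Finset (PP R ι), ↑s ⊆ S ∧ ∀ (M : Type) [AddCommGroup M] [MoS R M], X.In M →
    ∀ (x : ι → M) (v : ℕ → M), (∀ φ ∈ s, Sat φ M x) → Sat θ M (Sum.elim x v) →
      Sat ψ M (Sum.elim x v)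

private theorem isPP_eqs {W : Type} (r : W → ι ⊕ ℕ) (l : List (Atm R W)) :
    IsPP (R := R) (ι := ι ⊕ ℕ)
      (fun M _ _ z => ∀ e ∈ l, Hold e M (z ∘ r)) := by
  induction l with
  | nil => exact isPP_true.congr fun M _ _ x => by simp
  | cons e l ih =>
    refine ((isPP_hold (amap r e)).and ih).congr fun M _ _ x => ?_
    rw [hold_amap, List.forall_mem_cons]

/-- one step of the construction -/
private structure Stp (X : Ax R) (S : Set (PP R ι)) (ψ : PP R (ι ⊕ ℕ))
    (p q : ℕ × PP R (ι ⊕ ℕ)) : Prop where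
  lt : p.1 < q.1
  le : ∀ (M : Type) [AddCommGroup M] [MoS R M] (z : ι ⊕ ℕ → M), Sat q.2 M z → Sat p.2 M z
  ext : ∃ s : Finset (PP R ι), ↑s ⊆ S ∧ ∀ (M : Type) [AddCommGroup M] [MoS R M], X.In M →
    ∀ (x : ι → M) (v : ℕ → M), (∀ φ ∈ s, Sat φ M x) → Sat p.2 M (Sum.elim x v) →
      ∃ v' : ℕ → M, (∀ i < p.1, v' i = v i) ∧ Sat q.2 M (Sum.elim x v')
  wit : En X S p.2 ψ → ∃ w : ℕ → ℕ, ∀ (M : Type) [AddCommGroup M] [MoS R M]
    (z : ι ⊕ ℕ → M), Sat q.2 M z → ∀ e ∈ ψ,
      Hold e M (Sum.elim z (fun k => z (Sum.inr (w k))))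

private theorem exists_step (X : Ax R) (S : Set (PP R ι)) (ψ : PP R (ι ⊕ ℕ))
    (p : ℕ × PP R (ι ⊕ ℕ)) (hp : Dep p.1 p.2) :
    ∃ q : ℕ × PP R (ι ⊕ ℕ), Dep q.1 q.2 ∧ Stp X S ψ p q := by
  by_cases hE : En X S p.2 ψ
  · obtain ⟨n0, hn0⟩ := fm_bound ψ
    obtain ⟨θ, hθ⟩ := (isPP_sat p.2).and (isPP_eqs (R := R) (ι := ι)
      (Sum.elim id (fun k => Sum.inr (max p.1 n0 + k)) : (ι ⊕ ℕ) ⊕ ℕ → ι ⊕ ℕ) ψ)
    obtain ⟨n1, hn1⟩ := exists_dep θ
    have hr : ∀ (M : Type) (z : ι ⊕ ℕ → M),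
        z ∘ (Sum.elim id (fun k => Sum.inr (max p.1 n0 + k)) : (ι ⊕ ℕ) ⊕ ℕ → ι ⊕ ℕ) =
        Sum.elim z (fun k => z (Sum.inr (max p.1 n0 + k))) := by
      intro M z
      funext i
      cases i <;> rfl
    refine ⟨(max n1 (p.1 + 1), θ), hn1 _ (le_max_left _ _), ?_, ?_, ?_, ?_⟩
    · exact lt_of_lt_of_le (Nat.lt_succ_self _) (le_max_right _ _)
    · intro M _ _ z hz
      exact ((hθ M z).mpr hz).1
    · obtain ⟨s, hs, hE⟩ := hE
      refine ⟨s, hs, fun M _ _ hM x v hx hv => ?_⟩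
      obtain ⟨y, hy⟩ := hE M hM x v hx hv
      have h1 : ∀ i < max p.1 n0,
          (fun i => if i < max p.1 n0 then v i else y (i - max p.1 n0)) i = v i := by
        intro i hi
        simp only [hi, if_true]
      have h2 : ∀ k, (fun i => if i < max p.1 n0 then v i else y (i - max p.1 n0))
          (max p.1 n0 + k) = y k := by
        intro k
        have : ¬ (max p.1 n0 + k < max p.1 n0) := by omega
        simp only [this, if_false]
        congr 1
        omega
      refine ⟨fun i => if i < max p.1 n0 then v i else y (i - max p.1 n0),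
        fun i hi => h1 i (lt_of_lt_of_le hi (le_max_left _ _)), ?_⟩
      generalize (fun i => if i < max p.1 n0 then v i else y (i - max p.1 n0)) = v' at h1 h2
      refine (hθ M _).mp ⟨hp M x v v' (fun i hi => (h1 i (lt_of_lt_of_le hi
        (le_max_left _ _))).symm) hv, fun e he => ?_⟩
      rw [hr]
      have h3 : (fun k => Sum.elim x v' (Sum.inr (max p.1 n0 + k))) = y := by
        funext k
        exact h2 k
      rw [h3, hn0 e he M x v' v y fun i hi => h1 i (lt_of_lt_of_le hi (le_max_right _ _))]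
      exact hy e he
    · intro _
      refine ⟨fun k => max p.1 n0 + k, fun M _ _ z hz e he => ?_⟩
      rw [← hr]
      exact ((hθ M z).mpr hz).2 e he
  · refine ⟨(p.1 + 1, p.2), ?_, Nat.lt_succ_self _, fun M _ _ z hz => hz, ?_,
      fun h => absurd h hE⟩
    · intro M _ _ x v v' hv hs
      exact hp M x v v' (fun i hi => hv i (Nat.lt_succ_of_lt hi)) hs
    · exact ⟨∅, by simp, fun M _ _ hM x v hx hv => ⟨v, fun i _ => rfl, hv⟩⟩

/-- the sequence of the construction -/
private structure Hk (X : Ax R) (S : Set (PP R ι)) (P : ℕ → ℕ × PP R (ι ⊕ ℕ)) : Prop where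
  zero : ∀ (M : Type) [AddCommGroup M] [MoS R M] (z : ι ⊕ ℕ → M), Sat (P 0).2 M z
  lt : ∀ m, (P m).1 < (P (m + 1)).1
  le : ∀ m m' : ℕ, m ≤ m' → ∀ (M : Type) [AddCommGroup M] [MoS R M] (z : ι ⊕ ℕ → M),
    Sat (P m').2 M z → Sat (P m).2 M z
  ext : ∀ m m' : ℕ, m ≤ m' → ∃ s : Finset (PP R ι), ↑s ⊆ S ∧
    ∀ (M : Type) [AddCommGroup M] [MoS R M], X.In M →
    ∀ (x : ι → M) (v : ℕ → M), (∀ φ ∈ s, Sat φ M x) → Sat (P m).2 M (Sum.elim x v) →
      ∃ v' : ℕ → M, (∀ i < (P m).1, v' i = v i) ∧ Sat (P m').2 M (Sum.elim x v')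
  wit : ∀ (ψ : PP R (ι ⊕ ℕ)) (m : ℕ), En X S (P m).2 ψ → ∃ (m' : ℕ) (w : ℕ → ℕ),
    ∀ (M : Type) [AddCommGroup M] [MoS R M] (z : ι ⊕ ℕ → M), Sat (P m').2 M z → ∀ e ∈ ψ,
      Hold e M (Sum.elim z (fun k => z (Sum.inr (w k))))

private theorem exists_seq [Countable R] [Countable ι] (X : Ax R) (S : Set (PP R ι)) :
    ∃ P : ℕ → ℕ × PP R (ι ⊕ ℕ), Hk X S P := by
  obtain ⟨T, hT⟩ := exists_surjective_nat (PP R (ι ⊕ ℕ))
  choose nx hd hs using fun (ψ : PP R (ι ⊕ ℕ)) (p : {p : ℕ × PP R (ι ⊕ ℕ) // Dep p.1 p.2}) =>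
    exists_step X S ψ p.1 p.2
  have h0 : Dep (R := R) (ι := ι) 0 [] := fun M _ _ x v v' _ _ => ⟨0, fun e he =>
    absurd he List.not_mem_nil⟩
  let Q : ℕ → {p : ℕ × PP R (ι ⊕ ℕ) // Dep p.1 p.2} := fun m => Nat.rec ⟨(0, []), h0⟩
    (fun m p => ⟨nx (T (Nat.unpair m).1) p, hd _ p⟩) m
  have hQ : ∀ m, Stp X S (T (Nat.unpair m).1) (Q m).1 (Q (m + 1)).1 := fun m => hs _ (Q m)
  have hle : ∀ m k : ℕ, ∀ (M : Type) [AddCommGroup M] [MoS R M] (z : ι ⊕ ℕ → M),
      Sat (Q (m + k)).1.2 M z → Sat (Q m).1.2 M z := by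
    intro m k
    induction k with
    | zero => exact fun M _ _ z hz => hz
    | succ k ih => exact fun M _ _ z hz => ih M z ((hQ (m + k)).le M z hz)
  have hlt : ∀ m k : ℕ, (Q m).1.1 ≤ (Q (m + k)).1.1 := by
    intro m k
    induction k with
    | zero => exact le_refl _
    | succ k ih => exact ih.trans (hQ (m + k)).lt.le
  refine ⟨fun m => (Q m).1, ?_, fun m => (hQ m).lt, ?_, ?_, ?_⟩
  · exact fun M _ _ z => ⟨0, fun e he => absurd he List.not_mem_nil⟩
  · intro m m' hm M _ _ z hz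
    obtain ⟨k, rfl⟩ := Nat.exists_eq_add_of_le hm
    exact hle m k M z hz
  · intro m m' hm
    obtain ⟨k, rfl⟩ := Nat.exists_eq_add_of_le hm
    induction k with
    | zero => exact ⟨∅, by simp, fun M _ _ hM x v hx hv => ⟨v, fun i _ => rfl, hv⟩⟩
    | succ k ih =>
      classical
      obtain ⟨s, hs1, hs2⟩ := ih (Nat.le_add_right m k)
      obtain ⟨t, ht1, ht2⟩ := (hQ (m + k)).ext
      refine ⟨s ∪ t, by
        rw [Finset.coe_union]
        exact union_subset hs1 ht1, fun M _ _ hM x v hx hv => ?_⟩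
      obtain ⟨v1, h1, h2⟩ := hs2 M hM x v (fun φ hφ => hx φ (Finset.mem_union_left _ hφ)) hv
      obtain ⟨v2, h3, h4⟩ := ht2 M hM x v1 (fun φ hφ => hx φ (Finset.mem_union_right _ hφ)) h2
      exact ⟨v2, fun i hi => (h3 i (lt_of_lt_of_le hi (hlt m k))).trans (h1 i hi), h4⟩
  · intro ψ m hE
    obtain ⟨a, rfl⟩ := hT ψ
    have h1 : m ≤ Nat.pair a m := Nat.right_le_pair a m
    have h2 : (Nat.unpair (Nat.pair a m)).1 = a := by simp
    have h3 := (hQ (Nat.pair a m)).wit
    rw [h2] at h3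
    obtain ⟨k, hk⟩ := Nat.exists_eq_add_of_le h1
    obtain ⟨s, hs1, hs2⟩ := hE
    obtain ⟨w, hw⟩ := h3 ⟨s, hs1, fun M _ _ hM x v hx hv => hs2 M hM x v hx (hle m k M _ (by
      rw [← hk]
      exact hv))⟩
    exact ⟨Nat.pair a m + 1, w, hw⟩

/-- the linear equations of the theory -/
private def rel (X : Ax R) (S : Set (PP R ι)) (P : ℕ → ℕ × PP R (ι ⊕ ℕ)) (hP : Hk X S P) :
    Submodule R ((ι ⊕ ℕ) →₀ R) where
  carrier := {e | ∃ m : ℕ, ∃ s : Finset (PP R ι), ↑s ⊆ S ∧
    ∀ (M : Type) [AddCommGroup M] [MoS R M], X.In M → ∀ (x : ι → M) (v : ℕ → M),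
      (∀ φ ∈ s, Sat φ M x) → Sat (P m).2 M (Sum.elim x v) →
      Finsupp.linearCombination R (Sum.elim x v) e = 0}
  add_mem' := by
    classical
    rintro e e' ⟨m, s, hs1, hs2⟩ ⟨m', s', hs1', hs2'⟩
    refine ⟨max m m', s ∪ s', by
      rw [Finset.coe_union]
      exact union_subset hs1 hs1', fun M _ _ hM x v hx hv => ?_⟩
    rw [map_add, hs2 M hM x v (fun φ hφ => hx φ (Finset.mem_union_left _ hφ))
      (hP.le _ _ (le_max_left _ _) M _ hv), hs2' M hM x v
      (fun φ hφ => hx φ (Finset.mem_union_right _ hφ)) (hP.le _ _ (le_max_right _ _) M _ hv),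
      add_zero]
  zero_mem' := ⟨0, ∅, by simp, fun M _ _ hM x v hx hv => map_zero _⟩
  smul_mem' := by
    rintro c e ⟨m, s, hs1, hs2⟩
    refine ⟨m, s, hs1, fun M _ _ hM x v hx hv => ?_⟩
    rw [map_smul, hs2 M hM x v hx hv, smul_zero]

private theorem lc_mk {W : Type} (L : Submodule R (W →₀ R)) (e : W →₀ R) :
    Finsupp.linearCombination R (fun w => (Submodule.Quotient.mk (Finsupp.single w 1) :
      (W →₀ R) ⧸ L)) e = Submodule.Quotient.mk e := by
  have h := LinearMap.map_finsupp_linearCombination L.mkQ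
    (g := fun w => (Finsupp.single w 1 : W →₀ R)) (l := e)
  have h1 : Finsupp.linearCombination R (fun w => (Finsupp.single w 1 : W →₀ R)) e = e := by
    rw [Finsupp.linearCombination_apply]
    simp
  rw [h1] at h
  exact h.symm

/-- the atomic formula belongs to the theory -/
private def Thy (X : Ax R) (S : Set (PP R ι)) (P : ℕ → ℕ × PP R (ι ⊕ ℕ))
    (e : Atm R (ι ⊕ ℕ)) : Prop :=
  ∃ m : ℕ, ∃ s : Finset (PP R ι), ↑s ⊆ S ∧
    ∀ (M : Type) [AddCommGroup M] [MoS R M], X.In M → ∀ (x : ι → M) (v : ℕ → M),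
      (∀ φ ∈ s, Sat φ M x) → Sat (P m).2 M (Sum.elim x v) → Hold e M (Sum.elim x v)

/-- common stage -/
private theorem thy_list {X : Ax R} {S : Set (PP R ι)} {P : ℕ → ℕ × PP R (ι ⊕ ℕ)}
    (hP : Hk X S P) (l : List (Atm R (ι ⊕ ℕ))) (h : ∀ e ∈ l, Thy X S P e) :
    ∃ m : ℕ, ∃ s : Finset (PP R ι), ↑s ⊆ S ∧
      ∀ (M : Type) [AddCommGroup M] [MoS R M], X.In M → ∀ (x : ι → M) (v : ℕ → M),
        (∀ φ ∈ s, Sat φ M x) → Sat (P m).2 M (Sum.elim x v) →
        ∀ e ∈ l, Hold e M (Sum.elim x v) := by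
  classical
  induction l with
  | nil => exact ⟨0, ∅, by simp, fun M _ _ hM x v hx hv e he => absurd he List.not_mem_nil⟩
  | cons e l ih =>
    obtain ⟨m, s, hs1, hs2⟩ := ih fun e he => h e (List.mem_cons_of_mem _ he)
    obtain ⟨m', s', hs1', hs2'⟩ := h e List.mem_cons_self
    refine ⟨max m m', s ∪ s', by
      rw [Finset.coe_union]
      exact union_subset hs1 hs1', fun M _ _ hM x v hx hv e' he' => ?_⟩
    rcases List.mem_cons.mp he' with rfl | he'
    · exact hs2' M hM x v (fun φ hφ => hx φ (Finset.mem_union_right _ hφ))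
        (hP.le _ _ (le_max_right _ _) M _ hv)
    · exact hs2 M hM x v (fun φ hφ => hx φ (Finset.mem_union_left _ hφ))
        (hP.le _ _ (le_max_left _ _) M _ hv) e' he'

/-- the predicates of the module -/
private def relP (X : Ax R) (S : Set (PP R ι)) (P : ℕ → ℕ × PP R (ι ⊕ ℕ)) (hP : Hk X S P)
    (i : RSig.Ix R) : AddSubgroup (Fin (RSig.ar i) → ((ι ⊕ ℕ) →₀ R) ⧸ rel X S P hP) where
  carrier := {z | ∃ t : Fin (RSig.ar i) → ((ι ⊕ ℕ) →₀ R),
    (∀ j, Submodule.Quotient.mk (t j) = z j) ∧ Thy X S P (Sum.inr ⟨i, false, t⟩)}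
  add_mem' := by
    rintro z z' ⟨t, ht, h1⟩ ⟨t', ht', h1'⟩
    refine ⟨t + t', fun j => ?_, ?_⟩
    · show Submodule.Quotient.mk (t j + t' j) = z j + z' j
      rw [Submodule.Quotient.mk_add, ht, ht']
    · obtain ⟨m, s, hs, h2⟩ := thy_list hP [Sum.inr ⟨i, false, t⟩, Sum.inr ⟨i, false, t'⟩] (by
        intro e he
        rcases List.mem_cons.mp he with rfl | he
        · exact h1
        · rw [List.mem_singleton] at he
          subst he
          exact h1')
      refine ⟨m, s, hs, fun M _ _ hM x v hx hv => ?_⟩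
      have h3 := h2 M hM x v hx hv _ List.mem_cons_self
      have h4 := h2 M hM x v hx hv _ (List.mem_cons_of_mem _ (List.mem_singleton_self _))
      show (fun j => Finsupp.linearCombination R (Sum.elim x v) ((t + t') j)) ∈ MoS.P i
      have h5 : (fun j => Finsupp.linearCombination R (Sum.elim x v) ((t + t') j)) =
          (fun j => Finsupp.linearCombination R (Sum.elim x v) (t j)) +
            fun j => Finsupp.linearCombination R (Sum.elim x v) (t' j) := by
        funext j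
        exact map_add _ (t j) (t' j)
      rw [h5]
      exact (MoS.P i).add_mem h3 h4
  zero_mem' := ⟨0, fun j => rfl, 0, ∅, by simp, fun M _ _ hM x v hx hv => by
    show (fun j => Finsupp.linearCombination R (Sum.elim x v)
      ((0 : Fin (RSig.ar i) → ((ι ⊕ ℕ) →₀ R)) j)) ∈ MoS.P i
    have h5 : (fun j => Finsupp.linearCombination R (Sum.elim x v)
        ((0 : Fin (RSig.ar i) → ((ι ⊕ ℕ) →₀ R)) j)) = 0 := by
      funext j
      exact map_zero _
    rw [h5]
    exact (MoS.P i).zero_mem⟩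
  neg_mem' := by
    rintro z ⟨t, ht, m, s, hs, h1⟩
    refine ⟨-t, fun j => ?_, m, s, hs, fun M _ _ hM x v hx hv => ?_⟩
    · show Submodule.Quotient.mk (-t j) = -z j
      rw [Submodule.Quotient.mk_neg, ht]
    · show (fun j => Finsupp.linearCombination R (Sum.elim x v) ((-t) j)) ∈ MoS.P i
      have h5 : (fun j => Finsupp.linearCombination R (Sum.elim x v) ((-t) j)) =
          -fun j => Finsupp.linearCombination R (Sum.elim x v) (t j) := by
        funext j
        exact map_neg _ (t j)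
      rw [h5]
      exact (MoS.P i).neg_mem (h1 M hM x v hx hv)

private noncomputable instance relMoS (X : Ax R) (S : Set (PP R ι)) (P : ℕ → ℕ × PP R (ι ⊕ ℕ))
    (hP : Hk X S P) : MoS R (((ι ⊕ ℕ) →₀ R) ⧸ rel X S P hP) :=
  { toModule := inferInstance, P := relP X S P hP }

section

variable {X : Ax R} {S : Set (PP R ι)} {P : ℕ → ℕ × PP R (ι ⊕ ℕ)}

/-- atomic formulas in the module -/
private theorem hold_mk (hP : Hk X S P) (e : Atm R (ι ⊕ ℕ)) :
    Hold e (((ι ⊕ ℕ) →₀ R) ⧸ rel X S P hP)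
      (fun w => Submodule.Quotient.mk (Finsupp.single w 1)) ↔ Thy X S P e := by
  rcases e with e | ⟨i, b, t⟩
  · show Finsupp.linearCombination R (fun w => (Submodule.Quotient.mk (Finsupp.single w 1) :
      ((ι ⊕ ℕ) →₀ R) ⧸ rel X S P hP)) e = 0 ↔ _
    rw [lc_mk, Submodule.Quotient.mk_eq_zero]
    exact Iff.rfl
  · show (fun j => Finsupp.linearCombination R (fun w => (Submodule.Quotient.mk
      (Finsupp.single w 1) : ((ι ⊕ ℕ) →₀ R) ⧸ rel X S P hP)) (t j)) ∈ relP X S P hP i ↔ _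
    have h1 : (fun j => Finsupp.linearCombination R (fun w => (Submodule.Quotient.mk
        (Finsupp.single w 1) : ((ι ⊕ ℕ) →₀ R) ⧸ rel X S P hP)) (t j)) =
        fun j => Submodule.Quotient.mk (t j) := by
      funext j
      rw [lc_mk]
    rw [h1]
    constructor
    · rintro ⟨t', ht', h2⟩
      obtain ⟨m, s, hs, h3⟩ := thy_list hP (Sum.inr ⟨i, false, t'⟩ ::
        (List.finRange (RSig.ar i)).map fun j => Sum.inl (t' j - t j)) (by
        intro e he
        rcases List.mem_cons.mp he with rfl | he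
        · exact h2
        · obtain ⟨j, -, rfl⟩ := List.mem_map.mp he
          exact (Submodule.Quotient.eq _).1 (ht' j))
      refine ⟨m, s, hs, fun M _ _ hM x v hx hv => ?_⟩
      have h4 := h3 M hM x v hx hv _ List.mem_cons_self
      show (fun j => Finsupp.linearCombination R (Sum.elim x v) (t j)) ∈ MoS.P i
      have h5 : (fun j => Finsupp.linearCombination R (Sum.elim x v) (t j)) =
          fun j => Finsupp.linearCombination R (Sum.elim x v) (t' j) := by
        funext j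
        have h6 : Finsupp.linearCombination R (Sum.elim x v) (t' j - t j) = 0 :=
          h3 M hM x v hx hv _ (List.mem_cons_of_mem _ (List.mem_map_of_mem
            (List.mem_finRange j)))
        rw [map_sub, sub_eq_zero] at h6
        exact h6.symm
      rw [h5]
      exact h4
    · intro h
      exact ⟨t, fun j => rfl, h⟩

/-- the truth lemma -/
private theorem truth (hP : Hk X S P) (ψ : PP R (ι ⊕ ℕ)) :
    Sat ψ (((ι ⊕ ℕ) →₀ R) ⧸ rel X S P hP)
      (fun w => Submodule.Quotient.mk (Finsupp.single w 1)) ↔ ∃ m, En X S (P m).2 ψ := by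
  have hel : ∀ f : ℕ → ((ι ⊕ ℕ) →₀ R), (fun i => Finsupp.linearCombination R
      (fun w => (Submodule.Quotient.mk (Finsupp.single w 1) :
        ((ι ⊕ ℕ) →₀ R) ⧸ rel X S P hP)) ((Sum.elim (fun w => Finsupp.single w (1 : R)) f :
          (ι ⊕ ℕ) ⊕ ℕ → ((ι ⊕ ℕ) →₀ R)) i)) =
      Sum.elim (fun w => Submodule.Quotient.mk (Finsupp.single w 1))
        (fun k => Submodule.Quotient.mk (f k)) := by
    intro f
    funext i
    rcases i with i | i
    · exact lc_mk _ _
    · exact lc_mk _ _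
  have hel' : ∀ (M : Type) [AddCommGroup M] [MoS R M] (z : ι ⊕ ℕ → M)
      (f : ℕ → ((ι ⊕ ℕ) →₀ R)), (fun i => Finsupp.linearCombination R z
        ((Sum.elim (fun w => Finsupp.single w (1 : R)) f :
          (ι ⊕ ℕ) ⊕ ℕ → ((ι ⊕ ℕ) →₀ R)) i)) =
      Sum.elim z (fun k => Finsupp.linearCombination R z (f k)) := by
    intro M _ _ z f
    funext i
    rcases i with i | i
    · simp
    · rfl
  constructor
  · rintro ⟨y, hy⟩
    have hf : ∀ k, ∃ f : (ι ⊕ ℕ) →₀ R, Submodule.Quotient.mk f = y k := fun k =>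
      Submodule.Quotient.mk_surjective _ (y k)
    choose f hf using hf
    obtain rfl : (fun k => Submodule.Quotient.mk (f k)) = y := funext hf
    obtain ⟨m, s, hs1, hs2⟩ := thy_list hP
      (ψ.map (asub (Sum.elim (fun w => Finsupp.single w (1 : R)) f))) (by
      intro e' he'
      obtain ⟨e, he, rfl⟩ := List.mem_map.mp he'
      rw [← hold_mk hP, hold_asub, hel]
      exact hy e he)
    refine ⟨m, s, hs1, fun M _ _ hM x v hx hv =>
      ⟨fun k => Finsupp.linearCombination R (Sum.elim x v) (f k), fun e he => ?_⟩⟩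
    have h1 := hs2 M hM x v hx hv _ (List.mem_map_of_mem he)
    rw [hold_asub, hel'] at h1
    exact h1
  · rintro ⟨m, hm⟩
    obtain ⟨m', w, hw⟩ := hP.wit ψ m hm
    refine ⟨fun k => Submodule.Quotient.mk (Finsupp.single (Sum.inr (w k)) 1), fun e he => ?_⟩
    rw [← hel (fun k => Finsupp.single (Sum.inr (w k)) 1), ← hold_asub, hold_mk]
    refine ⟨m', ∅, by simp, fun M _ _ hM x v hx hv => ?_⟩
    rw [hold_asub, hel']
    have h2 := hw M _ hv e he
    have h3 : (fun k => Finsupp.linearCombination R (Sum.elim x v)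
        (Finsupp.single (Sum.inr (w k)) (1 : R))) =
        fun k => (Sum.elim x v) (Sum.inr (w k)) := by
      funext k
      simp
    rw [h3]
    exact h2

/-- satisfaction by tuples of linear combinations -/
private theorem truth_subst (hP : Hk X S P) {κ : Type} (ψ : PP R κ) (f : κ → (ι ⊕ ℕ) →₀ R) :
    Sat ψ (((ι ⊕ ℕ) →₀ R) ⧸ rel X S P hP) (fun i => Submodule.Quotient.mk (f i)) ↔
    ∃ m : ℕ, ∃ s : Finset (PP R ι), ↑s ⊆ S ∧
      ∀ (M : Type) [AddCommGroup M] [MoS R M], X.In M → ∀ (x : ι → M) (v : ℕ → M),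
      (∀ φ ∈ s, Sat φ M x) → Sat (P m).2 M (Sum.elim x v) →
      Sat ψ M (fun i => Finsupp.linearCombination R (Sum.elim x v) (f i)) := by
  obtain ⟨σ, hσ⟩ := (isPP_sat ψ).subst f
  have h1 : (fun i => (Submodule.Quotient.mk (f i) : ((ι ⊕ ℕ) →₀ R) ⧸ rel X S P hP)) =
      fun i => Finsupp.linearCombination R
        (fun w => (Submodule.Quotient.mk (Finsupp.single w 1) :
          ((ι ⊕ ℕ) →₀ R) ⧸ rel X S P hP)) (f i) := by
    funext i
    rw [lc_mk]
  rw [h1]
  refine (hσ _ _).trans ((truth hP σ).trans ?_)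
  refine exists_congr fun m => exists_congr fun s => and_congr_right fun _ => ?_
  constructor
  · intro h M _ _ hM x v hx hv
    exact (hσ M _).mpr (h M hM x v hx hv)
  · intro h M _ _ hM x v hx hv
    exact (hσ M _).mp (h M hM x v hx hv)

private theorem honest [Countable R] [Countable ι] (hP : Hk X S P) :
    X.Honest S (((ι ⊕ ℕ) →₀ R) ⧸ rel X S P hP)
      (fun i => Submodule.Quotient.mk (Finsupp.single (Sum.inl i) 1)) := by
  classical
  have hlc : ∀ (M : Type) [AddCommGroup M] [MoS R M] (x : ι → M) (v : ℕ → M),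
      (fun i => Finsupp.linearCombination R (Sum.elim x v) (Finsupp.single (Sum.inl i) 1)) =
      x := by
    intro M _ _ x v
    funext i
    simp
  refine ⟨?_, ?_, ?_, ?_, ?_⟩
  · intro a ha x hx
    have hf : ∀ i, ∃ f : (ι ⊕ ℕ) →₀ R, Submodule.Quotient.mk f = x i := fun i =>
      Submodule.Quotient.mk_surjective _ (x i)
    choose f hf using hf
    have h1 : x = fun i => Submodule.Quotient.mk (f i) := by
      funext i
      exact (hf i).symm
    rw [h1, truth_subst] at hx ⊢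
    obtain ⟨m, s, hs1, hs2⟩ := hx
    exact ⟨m, s, hs1, fun M _ _ hM x v hx hv => hM a ha _ (hs2 M hM x v hx hv)⟩
  · exact (Submodule.Quotient.mk_surjective _).countable
  · intro φ hφ
    rw [truth_subst]
    refine ⟨0, {φ}, by simpa using hφ, fun M _ _ hM x v hx hv => ?_⟩
    rw [hlc]
    exact hx φ (Finset.mem_singleton_self φ)
  · intro ψ hψ
    rw [truth_subst] at hψ
    obtain ⟨m, s, hs1, hs2⟩ := hψ
    obtain ⟨t, ht1, ht2⟩ := hP.ext 0 m (Nat.zero_le m)
    refine ⟨s ∪ t, by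
      rw [Finset.coe_union]
      exact union_subset hs1 ht1, fun M _ _ hM x hx => ?_⟩
    obtain ⟨v', -, hv'⟩ := ht2 M hM x 0 (fun φ hφ => hx φ (Finset.mem_union_right _ hφ))
      (hP.zero M _)
    have := hs2 M hM x v' (fun φ hφ => hx φ (Finset.mem_union_left _ hφ)) hv'
    rwa [hlc] at this
  · intro k b
    have hf : ∀ i, ∃ f : (ι ⊕ ℕ) →₀ R, Submodule.Quotient.mk f = b i := fun i =>
      Submodule.Quotient.mk_surjective _ (b i)
    choose f hf using hf
    -- a stage which contains all variables of `f`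
    obtain ⟨n, hn⟩ := list_rank (Sum.elim (fun _ => 0) id : ι ⊕ ℕ → ℕ) (List.ofFn f)
    have hgrow : ∀ m, m ≤ (P m).1 := by
      intro m
      induction m with
      | zero => exact Nat.zero_le _
      | succ m ih => exact lt_of_le_of_lt ih (hP.lt m)
    -- the formula
    have hpp : IsPP (R := R) (ι := ι ⊕ Fin k) (fun M _ _ z => ∃ v : ℕ → M,
        Sat (P n).2 M (Sum.elim (z ∘ Sum.inl) v) ∧ ∀ j ∈ List.finRange k,
          Finsupp.linearCombination R (Sum.elim (z ∘ Sum.inl) v) (f j) -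
            z (Sum.inr j) = 0) := by
      have h1 : IsPP (R := R) (ι := (ι ⊕ Fin k) ⊕ ℕ) (fun M _ _ z =>
          Sat (P n).2 M (z ∘ Sum.elim (fun i => Sum.inl (Sum.inl i)) Sum.inr)) :=
        (isPP_sat _).comap _
      have h2 : ∀ l : List (Fin k), IsPP (R := R) (ι := (ι ⊕ Fin k) ⊕ ℕ) (fun M _ _ z =>
          ∀ j ∈ l, Finsupp.linearCombination R
            (z ∘ Sum.elim (fun i => Sum.inl (Sum.inl i)) Sum.inr) (f j) -
            z (Sum.inl (Sum.inr j)) = 0) := by
        intro l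
        induction l with
        | nil => exact isPP_true.congr fun M _ _ x => by simp
        | cons j l ih =>
          refine ((isPP_lin ((f j).mapDomain (Sum.elim (fun i => Sum.inl (Sum.inl i)) Sum.inr :
            ι ⊕ ℕ → (ι ⊕ Fin k) ⊕ ℕ) - Finsupp.single (Sum.inl (Sum.inr j)) 1)).and ih).congr
            fun M _ _ x => ?_
          rw [map_sub, Finsupp.linearCombination_mapDomain]
          simp
      refine (h1.and (h2 (List.finRange k))).ex.congr fun M _ _ z => exists_congr fun v => ?_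
      have h3 : (Sum.elim z v) ∘ (Sum.elim (fun i => Sum.inl (Sum.inl i)) Sum.inr :
          ι ⊕ ℕ → (ι ⊕ Fin k) ⊕ ℕ) = Sum.elim (z ∘ Sum.inl) v := by
        funext i
        cases i <;> rfl
      rw [h3]
      exact Iff.rfl
    obtain ⟨θ, hθ⟩ := hpp
    refine ⟨θ, ?_, ?_⟩
    · rw [← hθ]
      refine ⟨fun i => Submodule.Quotient.mk (Finsupp.single (Sum.inr i) 1), ?_, ?_⟩
      · have h1 := (truth hP (P n).2).mpr ⟨n, ∅, by simp, fun M _ _ hM x v hx hv => hv⟩
        refine (iff_of_eq ?_).mp h1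
        congr 1
        funext i
        cases i <;> rfl
      · intro j _
        have h1 : (Sum.elim ((Sum.elim (fun i => (Submodule.Quotient.mk
            (Finsupp.single (Sum.inl i) 1) : ((ι ⊕ ℕ) →₀ R) ⧸ rel X S P hP)) b) ∘ Sum.inl)
            (fun i => Submodule.Quotient.mk (Finsupp.single (Sum.inr i) 1))) =
            fun w => Submodule.Quotient.mk (Finsupp.single w 1) := by
          funext i
          cases i <;> rfl
        rw [h1, lc_mk, hf]
        simp
    · intro ψ hψ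
      have h1 : Sum.elim (fun i => (Submodule.Quotient.mk
            (Finsupp.single (Sum.inl i) 1) : ((ι ⊕ ℕ) →₀ R) ⧸ rel X S P hP)) b =
          fun i => Submodule.Quotient.mk
            (Sum.elim (fun i => Finsupp.single (Sum.inl i) 1) f i) := by
        funext i
        cases i with
        | inl i => rfl
        | inr j => exact (hf j).symm
      rw [h1, truth_subst] at hψ
      obtain ⟨m, s, hs1, hs2⟩ := hψ
      obtain ⟨t, ht1, ht2⟩ := hP.ext n (max n m) (le_max_left _ _)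
      refine ⟨s ∪ t, by
        rw [Finset.coe_union]
        exact union_subset hs1 ht1, fun M _ _ hM x y hx hy => ?_⟩
      rw [← hθ] at hy
      obtain ⟨v, hv1, hv2⟩ := hy
      obtain ⟨v', hv3, hv4⟩ := ht2 M hM x v (fun φ hφ => hx φ (Finset.mem_union_right _ hφ)) hv1
      have h2 := hs2 M hM x v' (fun φ hφ => hx φ (Finset.mem_union_left _ hφ))
        (hP.le m _ (le_max_right _ _) M _ hv4)
      refine (iff_of_eq ?_).mp h2
      congr 1
      funext i
      cases i with
      | inl i => simp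
      | inr j =>
        have h3 := hv2 j (List.mem_finRange j)
        rw [sub_eq_zero] at h3
        simp only [Sum.elim_inr] at h3 ⊢
        rw [← h3]
        refine hn (f j) (List.mem_ofFn.mpr ⟨j, rfl⟩) M _ _ ?_
        rintro (i | i) hi
        · rfl
        · exact hv3 i (lt_of_lt_of_le hi (hgrow n))

end

theorem thm_HEX : St_HEX := by
  intro R _ _ X ι _ S
  obtain ⟨P, hP⟩ := exists_seq X S
  exact ⟨⟨((ι ⊕ ℕ) →₀ R) ⧸ rel X S P hP⟩, _, honest hP⟩

end Pool.Agent.AVC
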