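import Pool.Agent.AVC.St3

/-!
# Vaught's conjecture for modules, module KIN: transport of modules and of their graphs
-/

set_option autoImplicit false
set_option linter.unusedSectionVars false
set_option linter.unusedVariables false

namespace Pool.Agent.AVC

open Set Ax FirstOrder Pool.Agent.Helper6.Str Pool.Agent.Helper5.DU

section

variable {R : Type} [RSig R]

/-- transport of a module along a bijection -/
theorem KIN_tr {M N : Type} [AddCommGroup M] [MoS R M] (e : M ≃ N) :
    ∃ (g : AddCommGroup N) (m : @MoS R _ N g)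
      (l : @Ie R _ M N _ _ g m),
      ∀ x, l x = e x := by
  let g : AddCommGroup N := e.symm.addCommGroup
  let m : Module R N := e.symm.module R
  let l0 : N ≃ₗ[R] M := e.symm.linearEquiv R
  let m' : MoS R N :=
    { toModule := m
      P := fun i =>
        { carrier := {y | (fun j => l0 (y j)) ∈ MoS.P (R := R) (M := M) i}
          add_mem' := fun {y y'} h h' => by
            show (fun j => l0 ((y + y') j)) ∈ MoS.P i
            have h1 : (fun j => l0 ((y + y') j)) = (fun j => l0 (y j)) + fun j => l0 (y' j) := by
              funext j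
              exact map_add l0 (y j) (y' j)
            rw [h1]
            exact (MoS.P i).add_mem h h'
          zero_mem' := by
            show (fun j => l0 ((0 : Fin (RSig.ar i) → N) j)) ∈ MoS.P i
            have h1 : (fun j => l0 ((0 : Fin (RSig.ar i) → N) j)) = 0 := by
              funext j
              exact map_zero l0
            rw [h1]
            exact (MoS.P i).zero_mem
          neg_mem' := fun {y} h => by
            show (fun j => l0 ((-y) j)) ∈ MoS.P i
            have h1 : (fun j => l0 ((-y) j)) = -fun j => l0 (y j) := by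
              funext j
              exact map_neg l0 (y j)
            rw [h1]
            exact (MoS.P i).neg_mem h } }
  refine ⟨g, m', ⟨l0.symm, fun i x => ?_⟩, fun x => rfl⟩
  show x ∈ MoS.P (R := R) (M := M) i ↔ (fun j => l0 (l0.symm (x j))) ∈ MoS.P (R := R) (M := M) i
  have h1 : (fun j => l0 (l0.symm (x j))) = x := by
    funext j
    exact l0.apply_symm_apply (x j)
  rw [h1]

theorem KIN_zero {M : Type} [AddCommGroup M] [MoS R M] (v : Fin 1 → M) :
    (grph (modStr R M)).RelMap (ModRel.zero : (LR R).Relations 1) v ↔ 0 = v 0 := Iff.rfl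

theorem KIN_smul {M : Type} [AddCommGroup M] [MoS R M] (r : R) (v : Fin 2 → M) :
    (grph (modStr R M)).RelMap (ModRel.smul r : (LR R).Relations 2) v ↔ r • v 0 = v 1 := Iff.rfl

theorem KIN_add {M : Type} [AddCommGroup M] [MoS R M] (v : Fin 3 → M) :
    (grph (modStr R M)).RelMap (ModRel.add : (LR R).Relations 3) v ↔ v 0 + v 1 = v 2 := Iff.rfl

/-- linear equivalences preserve the graphs -/
theorem KIN_rel {M N : Type} [AddCommGroup M] [MoS R M] [AddCommGroup N] [MoS R N]
    (l : Ie R M N) (e : M ≃ N) (he : ∀ x, l x = e x) :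
    RelIso (grph (modStr R M)) (grph (modStr R N)) e := by
  intro n r v
  cases r with
  | zero =>
    have h1 : (grph (modStr R N)).RelMap (ModRel.zero : (LR R).Relations 1) (e ∘ v) ↔
        0 = e (v 0) := Iff.rfl
    rw [h1, KIN_zero, ← he, ← map_zero l]
    exact l.injective.eq_iff.symm
  | smul r =>
    have h1 : (grph (modStr R N)).RelMap (ModRel.smul r : (LR R).Relations 2) (e ∘ v) ↔
        r • e (v 0) = e (v 1) := Iff.rfl
    rw [h1, KIN_smul, ← he, ← he, ← map_smul]
    exact l.injective.eq_iff.symm
  | add =>
    have h1 : (grph (modStr R N)).RelMap (ModRel.add : (LR R).Relations 3) (e ∘ v) ↔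
        e (v 0) + e (v 1) = e (v 2) := Iff.rfl
    rw [h1, KIN_add, ← he, ← he, ← he, ← map_add]
    exact l.injective.eq_iff.symm
  | prd i =>
    show (fun j => v (Fin.cast i.2 j)) ∈ MoS.P (R := R) (M := M) i.1 ↔
      (fun j => e (v (Fin.cast i.2 j))) ∈ MoS.P (R := R) (M := N) i.1
    have h1 : (fun j => e (v (Fin.cast i.2 j))) = fun j => l (v (Fin.cast i.2 j)) := by
      funext j
      exact (he _).symm
    rw [h1]
    exact (l.mem i.1 _).symm

/-- isomorphisms of the graphs are linear -/
theorem KIN_lin {M N : Type} [AddCommGroup M] [MoS R M] [AddCommGroup N] [MoS R N]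
    (e : M ≃ N) (h : RelIso (grph (modStr R M)) (grph (modStr R N)) e) :
    ∃ l : Ie R M N, ∀ x, l x = e x := by
  have h1 : ∀ a b, e (a + b) = e a + e b := by
    intro a b
    have h2 := (h 3 (ModRel.add : (LR R).Relations 3) ![a, b, a + b]).1 rfl
    exact h2.symm
  have h2 : ∀ (r : R) a, e (r • a) = r • e a := by
    intro r a
    have h3 := (h 2 (ModRel.smul r : (LR R).Relations 2) ![a, r • a]).1 rfl
    exact h3.symm
  exact ⟨⟨{ e with map_add' := h1, map_smul' := h2 }, fun i x =>
    (h _ (ModRel.prd ⟨i, rfl⟩ : (LR R).Relations (RSig.ar i)) x)⟩, fun x => rfl⟩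

/-- structures of the relational language which are isomorphic by the identity are equal -/
theorem KIN_ext {M : Type} {S S' : (LR R).Structure M} (h : RelIso S S' (Equiv.refl M)) :
    S = S' := by
  refine FirstOrder.Language.Structure.ext ?_ ?_
  · funext n f
    exact isEmptyElim (show Empty from f)
  · funext n r v
    exact propext (h n r v)

theorem KIN_relIso {M N : Type} [AddCommGroup M] [MoS R M] [AddCommGroup N] [MoS R N]
    {S : (LR R).Structure N} (e : M ≃ N) (l : Ie R M N) (he : ∀ x, l x = e x)
    (h : RelIso (grph (modStr R M)) S e) : S = grph (modStr R N) := by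
  refine KIN_ext ?_
  have h1 := h.symm.trans (KIN_rel l e he)
  rw [Equiv.symm_trans_self] at h1
  exact h1

/-- models are preserved by linear equivalences -/
theorem KIN_model {M N : Type} [AddCommGroup M] [MoS R M] [AddCommGroup N] [MoS R N]
    (l : Ie R M N) (T : (LMod R).Theory) (hT : Mods T M) : Mods T N := by
  let sM : (LMod R).Structure M := modStr R M
  let sN : (LMod R).Structure N := modStr R N
  let E : M ≃[LMod R] N :=
    { l.toEquiv with
      map_fun' := by
        intro k f v
        cases f with
        | zero => exact map_zero l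
        | smul r => exact map_smul l r (v 0)
        | add => exact map_add l (v 0) (v 1)
      map_rel' := by
        intro k r v
        exact l.mem r.1 _ }
  have : M ⊨ T := hT
  exact FirstOrder.Language.StrongHomClass.theory_model E

end

theorem thm_KIN : St_KIN := by
  intro R _ n P hP
  refine ⟨fun S S' e v hS hv => ?_, fun g g' m m' hg v hv => ?_, fun M _ _ _ _ T hT => ?_⟩
  · obtain ⟨g, m, rfl, hP'⟩ := hv
    let := g
    let := m
    obtain ⟨g', m', l, hl⟩ := KIN_tr (R := R) e
    refine ⟨g', m', ?_, ?_⟩
    · let := g'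
      let := m'
      exact @KIN_relIso R _ ℕ ℕ g m g' m' S' e l hl hS
    · have h1 := @hP ℕ ℕ g m g' m' l v hP'
      have h2 : (fun i => l (v i)) = e ∘ v := funext fun i => hl (v i)
      rw [h2] at h1
      exact h1
  · have h1 : RelIso (grph (@modStr R _ ℕ g m)) (grph (@modStr R _ ℕ g' m')) (Equiv.refl ℕ) := by
      rw [hg]
      exact Pool.Agent.Helper6.Str.RelIso.refl _
    obtain ⟨l, hl⟩ := @KIN_lin R _ ℕ ℕ g m g' m' (Equiv.refl ℕ) h1
    have h2 := @hP ℕ ℕ g m g' m' l v hv
    have h3 : (fun i => l (v i)) = v := funext fun i => hl (v i)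
    rw [h3] at h2
    exact h2
  · obtain ⟨e⟩ := nonempty_equiv_of_countable (α := M) (β := ℕ)
    obtain ⟨g', m', l, hl⟩ := KIN_tr (R := R) e
    exact ⟨g', m', l, @modStr R _ ℕ g' m', @KIN_model R _ M ℕ _ _ g' m' l T hT, rfl⟩

end Pool.Agent.AVC
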