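import Pool.Agent.AVC.St2

/-!
# Vaught's conjecture for modules: MI, the reduced power (0.1, 0.2, 0.3)
-/

set_option autoImplicit false
set_option linter.unusedSectionVars false
set_option linter.unusedVariables false

namespace Pool.Agent.AVC

open Set Ax

section

variable {R : Type} [RSig R]

private theorem MI_lc {ι : Type} (M : Md R) (s : ι → ℕ → M) (e : ι →₀ R) :
    Finsupp.linearCombination R (fun i => MI.mk M (s i)) e =
      MI.mk M (Finsupp.linearCombination R s e) :=
  lc_hm (MI.mk M) s e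

private theorem MI_lc_apply {ι : Type} (M : Md R) (s : ι → ℕ → M) (e : ι →₀ R) (m : ℕ) :
    Finsupp.linearCombination R s e m = Finsupp.linearCombination R (fun i => s i m) e :=
  lc_proj (Q := fun _ : ℕ => (M : Type)) s e m

private theorem MI_zero (M : Md R) (s : ℕ → M) : MI.mk M s = 0 ↔ ∃ n, ∀ m ≥ n, s m = 0 := by
  rw [← map_zero (MI.mk M), MI.mk_eq]
  rfl

/-- evaluation of an atomic formula in the reduced power -/
private theorem MI_hold {ι : Type} (M : Md R) (s : ι → ℕ → M) (e : Atm R ι) :
    Hold e (MI M) (fun i => MI.mk M (s i)) ↔ ∃ n, ∀ m ≥ n, Hold e M (fun i => s i m) := by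
  rcases e with e | ⟨i, b, t⟩
  · show Finsupp.linearCombination R (fun i => MI.mk M (s i)) e = 0 ↔ _
    rw [MI_lc, MI_zero]
    refine exists_congr fun n => forall_congr' fun m => imp_congr Iff.rfl ?_
    rw [MI_lc_apply]
    rfl
  · show (fun j => Finsupp.linearCombination R (fun i => MI.mk M (s i)) (t j)) ∈
      MoS.P (R := R) (M := MI M) i ↔ _
    have h1 : (fun j => Finsupp.linearCombination R (fun i => MI.mk M (s i)) (t j)) =
        fun j => MI.mk M (Finsupp.linearCombination R s (t j)) := by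
      funext j
      exact MI_lc M s (t j)
    rw [h1, MI.mem_P]
    refine exists_congr fun n => forall_congr' fun m => imp_congr Iff.rfl ?_
    have h2 : (fun j => (Finsupp.linearCombination R s (t j)) m) =
        fun j => Finsupp.linearCombination R (fun i => s i m) (t j) := by
      funext j
      exact MI_lc_apply M s (t j) m
    rw [h2]
    rfl

private theorem MI_list {A : Type} (P : ℕ → A → Prop) (l : List A)
    (h : ∀ e ∈ l, ∃ n, ∀ m ≥ n, P m e) : ∃ n, ∀ m ≥ n, ∀ e ∈ l, P m e := by
  induction l with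
  | nil => exact ⟨0, fun m _ e he => absurd he List.not_mem_nil⟩
  | cons a l ih =>
    obtain ⟨n, hn⟩ := ih fun e he => h e (List.mem_cons_of_mem a he)
    obtain ⟨k, hk⟩ := h a List.mem_cons_self
    refine ⟨max n k, fun m hm e he => ?_⟩
    rcases List.mem_cons.mp he with rfl | he
    · exact hk m (le_trans (le_max_right n k) hm)
    · exact hn m (le_trans (le_max_left n k) hm) e he

/-- satisfaction in the reduced power -/
private theorem MI_sat {ι : Type} (M : Md R) (φ : PP R ι) (s : ι → ℕ → M) :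
    Sat φ (MI M) (fun i => MI.mk M (s i)) ↔ ∃ n, ∀ m ≥ n, Sat φ M (fun i => s i m) := by
  constructor
  · rintro ⟨y, hy⟩
    choose y' hy' using fun k => MI.mk_surj M (y k)
    have h1 : (Sum.elim (fun i => MI.mk M (s i)) y) =
        fun i => MI.mk M (Sum.elim s y' i) := by
      funext i
      cases i with
      | inl i => rfl
      | inr k => exact (hy' k).symm
    obtain ⟨n, hn⟩ := MI_list (fun m e => Hold e M (fun i => Sum.elim s y' i m)) φ fun e he => by
        rw [← MI_hold, ← h1]
        exact hy e he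
    refine ⟨n, fun m hm => ⟨fun k => y' k m, fun e he => ?_⟩⟩
    have h2 : (Sum.elim (fun i => s i m) fun k => y' k m) = fun i => Sum.elim s y' i m := by
      funext i
      cases i <;> rfl
    rw [h2]
    exact hn m hm e he
  · rintro ⟨n, hn⟩
    have hex : ∀ m : ℕ, ∃ y : ℕ → M, m ≥ n → ∀ e ∈ φ,
        Hold e M (Sum.elim (fun i => s i m) y) := by
      intro m
      by_cases hm : m ≥ n
      · obtain ⟨y, hy⟩ := hn m hm
        exact ⟨y, fun _ => hy⟩
      · exact ⟨0, fun h => absurd h hm⟩
    choose y hy using hex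
    refine ⟨fun k => MI.mk M (fun m => y m k), fun e he => ?_⟩
    have h1 : (Sum.elim (fun i => MI.mk M (s i)) fun k => MI.mk M (fun m => y m k)) =
        fun i => MI.mk M ((Sum.elim s fun k m => y m k) i) := by
      funext i
      cases i <;> rfl
    rw [h1, MI_hold]
    refine ⟨n, fun m hm => ?_⟩
    have h2 : (fun i => (Sum.elim s fun k m => y m k) i m) = Sum.elim (fun i => s i m) (y m) := by
      funext i
      cases i <;> rfl
    rw [h2]
    exact hy m hm e he

end

/-- (0.1) satisfaction in the reduced power -/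
theorem thm_MIS : St_MIS := by
  intro R _ M
  refine ⟨fun ι _ φ s => MI_sat M φ s, fun X hX a ha x hx => ?_⟩
  choose s hs using fun i => MI.mk_surj M (x i)
  have h1 : x = fun i => MI.mk M (s i) := funext fun i => (hs i).symm
  rw [h1] at hx ⊢
  obtain ⟨n, hn⟩ := (MI_sat M a.2.1 s).mp hx
  exact (MI_sat M a.2.2 s).mpr ⟨n, fun m hm => hX a ha _ (hn m hm)⟩

/-- (0.2) shift minus identity -/
theorem thm_MIK : St_MIK := by
  intro R _ M
  refine ⟨fun z => ?_, fun z => ⟨fun hz => ?_, ?_⟩⟩
  · obtain ⟨s, rfl⟩ := MI.mk_surj M z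
    refine ⟨MI.mk M (fun n => ∑ i ∈ Finset.range n, s i), ?_⟩
    rw [MI.sh_mk, ← map_sub]
    congr 1
    funext n
    show (∑ i ∈ Finset.range (n + 1), s i) - (∑ i ∈ Finset.range n, s i) = s n
    rw [Finset.sum_range_succ, add_sub_cancel_left]
  · obtain ⟨s, rfl⟩ := MI.mk_surj M z
    rw [MI.sh_mk, MI.mk_eq] at hz
    obtain ⟨n, hn⟩ := hz
    refine ⟨s n, ?_⟩
    show MI.mk M s = MI.mk M (fun _ => s n)
    rw [MI.mk_eq]
    refine ⟨n, fun m hm => ?_⟩
    induction m, hm using Nat.le_induction with
    | base => rfl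
    | succ m hm ih => rw [hn m hm, ih]
  · rintro ⟨m, rfl⟩
    rfl

/-- (0.3) saturation -/
theorem thm_MIT : St_MIT := by
  intro R _ _ M ι κ _ _ V a hV
  rcases V.eq_empty_or_nonempty with rfl | hne
  · refine ⟨fun _ _ => 0, fun φ hφ => absurd hφ (notMem_empty φ),
      fun φ hφ => absurd hφ (notMem_empty φ)⟩
  · obtain ⟨f, hf⟩ := (Set.to_countable V).exists_eq_range hne
    have hex : ∀ m : ℕ, ∃ t : κ → M, ∀ i ≤ m, Sat (f i) M (Sum.elim a t) := by
      classical
      intro m
      obtain ⟨t, ht⟩ := hV ((Finset.range (m + 1)).image f) (by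
        intro φ hφ
        rw [Finset.coe_image] at hφ
        obtain ⟨i, -, rfl⟩ := hφ
        rw [hf]
        exact mem_range_self i)
      exact ⟨t, fun i hi => ht (f i) (Finset.mem_image_of_mem f
        (Finset.mem_range.mpr (Nat.lt_succ_of_le hi)))⟩
    choose t ht using hex
    have h2 : ∀ φ ∈ V, ∃ n, ∀ m ≥ n, Sat φ M (Sum.elim a (fun k => t m k)) := by
      intro φ hφ
      rw [hf] at hφ
      obtain ⟨i, rfl⟩ := hφ
      exact ⟨i, fun m hm => ht m i hm⟩
    refine ⟨fun k m => t m k, fun φ hφ => ?_, h2⟩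
    obtain ⟨n, hn⟩ := h2 φ hφ
    have h1 : (Sum.elim (fun i => MI.cst M (a i)) fun k => MI.mk M (fun m => t m k)) =
        fun i => MI.mk M ((Sum.elim (fun i _ => a i) fun k m => t m k) i) := by
      funext i
      cases i <;> rfl
    show Sat φ (MI M) (Sum.elim (fun i => MI.cst M (a i)) fun k => MI.mk M (fun m => t m k))
    rw [h1, MI_sat]
    refine ⟨n, fun m hm => ?_⟩
    have h3 : (fun i => (Sum.elim (fun i _ => a i) fun k m => t m k : ι ⊕ κ → ℕ → M) i m) =
        Sum.elim a (fun k => t m k) := by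
      funext i
      cases i <;> rfl
    rw [h3]
    exact hn m hm

end Pool.Agent.AVC
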