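import Pool.Agent.AVC.St

/-!
# Vaught's conjecture for modules: MSG, basic facts on the coding modules
-/

set_option autoImplicit false
set_option linter.unusedSectionVars false
set_option linter.unusedVariables false

namespace Pool.Agent.AVC

open Set Ax

section

variable {R : Type} [RSig R] {D : Sys R}

/-- the pair `(u, v)` as an element of the stage `k` -/
private def MSG_pr (D : Sys R) (k : ℕ) (u : D.M) (v : D.Y k) : D.G k := ((u, v) : D.M × D.Y k)

private theorem MSG_add (k : ℕ) (u : D.M) (v : D.Y k) :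
    MSG_pr D k u v = MSG_pr D k u 0 + MSG_pr D k 0 v := by
  show ((u, v) : D.M × D.Y k) = (u + 0, 0 + v)
  rw [add_zero, zero_add]

private theorem MSG_t (σ : ℕ → ℕ) (k : ℕ) (u : D.M) (v : D.Y k) :
    D.t σ k (MSG_pr D k u v) = MSG_pr D (k + 1) (u + D.c k (σ k) v) (D.a k v) := rfl

private theorem MSG_inM (Λ : D.Lim) (σ : ℕ → ℕ) (u : D.M) :
    ∀ k : ℕ, Λ.of σ k (MSG_pr D k u 0) = Λ.inM σ u
  | 0 => rfl
  | k + 1 => by
    rw [← MSG_inM Λ σ u k, ← (Λ.isColim σ).comp k, MSG_t, map_zero, map_zero, add_zero]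

private theorem MSG_inY (Λ : D.Lim) (σ : ℕ → ℕ) (k : ℕ) (v : D.Y k) :
    Λ.inY σ k v = Λ.inM σ (D.c k (σ k) v) + Λ.inY σ (k + 1) (D.a k v) := by
  have h1 : ∀ (k : ℕ) (v : D.Y k), Λ.inY σ k v = Λ.of σ k (MSG_pr D k 0 v) := fun _ _ => rfl
  rw [← MSG_inM Λ σ (D.c k (σ k) v) (k + 1), h1, h1, ← map_add, ← MSG_add,
    ← (Λ.isColim σ).comp k, MSG_t, zero_add]

end

/-- MSG. -/
theorem thm_MSG (h : St_COS) : St_MSG := by
  intro R _ D Λ
  refine ⟨fun σ k y => ?_, fun σ σ' k hk => ?_, fun X hM hY σ => ?_, fun hM hY σ => ?_⟩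
  · induction k with
    | zero =>
      show Λ.inY σ 0 y = Λ.inM σ 0 + Λ.inY σ 0 y
      rw [map_zero, zero_add]
    | succ k ih =>
      rw [ih, MSG_inY Λ σ k]
      show _ = Λ.inM σ (D.z σ k y + D.c k (σ k) (cmp D.a k y)) +
        Λ.inY σ (k + 1) (D.a k (cmp D.a k y))
      rw [map_add, add_assoc]
  · induction k with
    | zero => rfl
    | succ k ih =>
      show D.z σ k + Hm.comp (D.c k (σ k)) (cmp D.a k) = D.z σ' k + Hm.comp (D.c k (σ' k)) (cmp D.a k)
      rw [ih fun i hi => hk i (Nat.lt_succ_of_lt hi), hk k (Nat.lt_succ_self k)]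
  · exact (h R D.G (D.t σ) (Λ.L σ) (Λ.of σ) (Λ.isColim σ)).2.2.1 X fun k => Ax.In.prod hM (hY k)
  · refine (h R D.G (D.t σ) (Λ.L σ) (Λ.of σ) (Λ.isColim σ)).2.2.2 fun k => ?_
    have := hY k
    exact inferInstanceAs (Countable (D.M × D.Y k))

end Pool.Agent.AVC
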