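import Pool.Agent.AVC.St

/-!
# MVC: null maps (1.5, 1.6)
-/

set_option autoImplicit false

namespace Pool.Agent.AVC

open Set Ax

private theorem NUL_elim {R : Type} [RSig R] {ι κ : Type} {N M : Md R} (u : Hm R N M) (g : ι → N)
    (b : κ → N) : (u ∘ Sum.elim g b : ι ⊕ κ → M) = Sum.elim (u ∘ g) (u ∘ b) := by
  funext i
  cases i <;> rfl

private theorem NUL_inr {R : Type} [RSig R] {ι κ : Type} (M : Type) [AddCommGroup M] [MoS R M]
    (ψ : PP R κ) (x : ι → M) (y : κ → M) :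
    Sat (ren (Sum.inr : κ → ι ⊕ κ) ψ) M (Sum.elim x y) ↔ Sat ψ M y := by
  rw [sat_ren, Sum.elim_comp_inr]

/-- a map which kills the generators is null -/
theorem thm_NUZ : St_NUZ := by
  intro R _ _ X ι _ S N M g u hN hu k b
  obtain ⟨θ, hθ, hgen⟩ := hN.gen k b
  refine ⟨zer θ, fun ψ hψ K _ _ hK y hy => ?_, ?_⟩
  · obtain ⟨s, hs, h⟩ := hgen (ren Sum.inr ψ) ((NUL_inr N ψ g b).2 hψ)
    have h1 := h K hK (0 : ι → K) y (fun φ _ => Sat.zero φ) ((sat_zer θ y).1 hy)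
    exact (NUL_inr K ψ 0 y).1 h1
  · rw [sat_zer]
    have h1 := hθ.map u
    rw [NUL_elim] at h1
    have h2 : (u ∘ g : ι → M) = 0 := funext hu
    rwa [h2] at h1

/-- a map which sends the generators into the principal part is null -/
theorem thm_NUP : St_NUP := by
  intro R _ _ X ι _ S N M g u hN hu k b
  obtain ⟨θ, hθ, hgen⟩ := hN.gen k b
  obtain ⟨χ, hχ, hχu⟩ := hu
  obtain ⟨ρ, hρ⟩ := (isPP_sat χ).image (isPP_sat θ)
  refine ⟨ρ, fun ψ hψ K _ _ hK y hy => ?_, (hρ M _).1 ⟨u ∘ g, hχu, ?_⟩⟩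
  · obtain ⟨x, hx, hxy⟩ := (hρ K y).2 hy
    obtain ⟨s, hs, h⟩ := hgen (ren Sum.inr ψ) ((NUL_inr N ψ g b).2 hψ)
    have h1 := h K hK x y (fun φ hφ => hχ φ (hs hφ) K hK x hx) hxy
    exact (NUL_inr K ψ x y).1 h1
  · have h1 := hθ.map u
    rwa [NUL_elim] at h1

/-- all maps from or to atomic modules are null -/
theorem thm_ATN : St_ATN := by
  intro R _ _ X N M u hN hM h k b
  rcases h with h | h
  · obtain ⟨β, h1, h2⟩ := h k b
    exact ⟨β, fun ψ hψ => h2 ψ hψ, h1.map u⟩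
  · obtain ⟨β, h1, h2⟩ := h k (u ∘ b)
    exact ⟨β, fun ψ hψ => h2 ψ (Sat.map hψ u), h1⟩

end Pool.Agent.AVC
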