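import Pool.Agent.AVC.St5

/-!
# Elementarily equivalent modules satisfy the same implications (helper36)
-/

set_option autoImplicit false
set_option linter.unusedSectionVars false
set_option linter.unusedVariables false

namespace Pool.Agent.AVC

open Set Ax FirstOrder

private noncomputable def own_S {L : FirstOrder.Language.{0, 0}} {n : ℕ} (F G : L.Formula (Fin n)) :
    L.Sentence :=
  FirstOrder.Language.Formula.iAlls (α := Empty) (Fin n)
    (FirstOrder.Language.Formula.relabel (Sum.inr : Fin n → Empty ⊕ Fin n) (F.imp G))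

private theorem own_S_iff {L : FirstOrder.Language.{0, 0}} {n : ℕ} (F G : L.Formula (Fin n)) (M : Type)
    (S : L.Structure M) : @FirstOrder.Language.Sentence.Realize L M S (own_S F G) ↔
      ∀ x : Fin n → M, @FirstOrder.Language.Formula.Realize L M S (Fin n) F x →
        @FirstOrder.Language.Formula.Realize L M S (Fin n) G x := by
  let _ := S
  rw [own_S, FirstOrder.Language.Sentence.Realize, FirstOrder.Language.Formula.realize_iAlls]
  constructor
  · intro h x
    have h1 := h x
    rw [FirstOrder.Language.Formula.realize_relabel, FirstOrder.Language.Formula.realize_imp] at h1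
    exact h1
  · intro h x
    rw [FirstOrder.Language.Formula.realize_relabel, FirstOrder.Language.Formula.realize_imp]
    exact h x

private theorem own_eq {R : Type} [RSig R] {M N : Type} [AddCommGroup M] [MoS R M]
    [AddCommGroup N] [MoS R N] (h : Mods (Th R M) N) (φ : (LMod R).Sentence) :
    @FirstOrder.Language.Sentence.Realize (LMod R) N (modStr R N) φ ↔
      @FirstOrder.Language.Sentence.Realize (LMod R) M (modStr R M) φ := by
  have key : ∀ ψ : (LMod R).Sentence, @FirstOrder.Language.Sentence.Realize (LMod R) M (modStr R M) ψ →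
      @FirstOrder.Language.Sentence.Realize (LMod R) N (modStr R N) ψ := fun ψ hψ =>
    (@FirstOrder.Language.Theory.model_iff (LMod R) N (modStr R N) (Th R M)).1 h ψ hψ
  refine ⟨fun hN => ?_, key φ⟩
  by_contra hM
  have h1 : @FirstOrder.Language.Sentence.Realize (LMod R) M (modStr R M) φ.not := by
    let _ := modStr R M
    exact (FirstOrder.Language.Sentence.realize_not M).2 hM
  have h2 := key _ h1
  let _ := modStr R N
  exact (FirstOrder.Language.Sentence.realize_not N).1 h2 hN

theorem thm_OWN (h : St_FOR) : St_OWN := by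
  intro R _ M N _ _ _ _ hN
  ext ⟨n, φ, ψ⟩
  obtain ⟨F, hF⟩ := h R n φ
  obtain ⟨G, hG⟩ := h R n ψ
  have hM' : (⟨n, φ, ψ⟩ : (n : ℕ) × (PP R (Fin n) × PP R (Fin n))) ∈ Own R M ↔
      @FirstOrder.Language.Sentence.Realize (LMod R) M (modStr R M) (own_S F G) := by
    rw [own_S_iff]
    exact forall_congr' fun x => by rw [hF M x, hG M x]
  have hN' : (⟨n, φ, ψ⟩ : (n : ℕ) × (PP R (Fin n) × PP R (Fin n))) ∈ Own R N ↔
      @FirstOrder.Language.Sentence.Realize (LMod R) N (modStr R N) (own_S F G) := by
    rw [own_S_iff]
    exact forall_congr' fun x => by rw [hF N x, hG N x]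
  rw [hM', hN']
  exact own_eq hN _

end Pool.Agent.AVC
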