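import Pool.Agent.AVC.St

/-!
# MVC [RSS]: the descending chain condition for principal left ideals makes the quotient by the
radical semisimple, with orthogonal idempotents (helper33)
-/

set_option autoImplicit false

namespace Pool.Agent.AVC

section

variable {A : Type} [Ring A]

/-- idempotents which generate a minimal left ideal -/
private def RSS_Min (g : A) : Prop := g ≠ 0 ∧ g * g = g ∧ ∀ y, y * g ≠ 0 → ∃ c, c * (y * g) = g

/-- Brauer's lemma -/
private theorem RSS_exists_min (hA : DCCR A) (hJ : Ring.jacobson A = ⊥) (x₀ : A) (hx₀ : x₀ ≠ 0) :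
    ∃ a, RSS_Min (a * x₀) := by
  -- a minimal principal left ideal
  obtain ⟨d, hd0, hd⟩ : ∃ d, d * x₀ ≠ 0 ∧ ∀ y, y * (d * x₀) ≠ 0 → ∃ c, c * (y * (d * x₀)) = d * x₀ := by
    by_contra hcon
    push Not at hcon
    choose F hF hF' using hcon
    let st : ℕ → {d : A // d * x₀ ≠ 0} := fun n => Nat.rec ⟨1, by rwa [one_mul]⟩
      (fun _ d => ⟨F d.1 d.2 * d.1, by rw [mul_assoc]; exact hF d.1 d.2⟩) n
    let f : ℕ → A := fun n => F (st n).1 (st n).2
    have hst : ∀ n, (st n).1 = prs f n := by
      intro n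
      induction n with
      | zero => rfl
      | succ n ih =>
        show F (st n).1 (st n).2 * (st n).1 = f n * prs f n
        rw [← ih]
    obtain ⟨j, c, hc⟩ := hA f
    refine hF' (st j).1 (st j).2 c ?_
    have h1 : prs f (j + 1) = F (st j).1 (st j).2 * (st j).1 := (hst (j + 1)).symm
    have h2 : (st j).1 = c * (F (st j).1 (st j).2 * (st j).1) := by
      rw [← h1, ← hc, hst]
    conv_rhs => rw [h2]
    simp only [mul_assoc]
  set x := d * x₀ with hx
  -- the square of the ideal is not zero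
  obtain ⟨b, hb⟩ : ∃ b, x * b * x ≠ 0 := by
    by_contra hcon
    push Not at hcon
    apply hd0
    have h1 : x ∈ Ideal.jacobson (⊥ : Ideal A) := by
      rw [Ideal.mem_jacobson_iff]
      intro y
      refine ⟨1 - y * x, ?_⟩
      rw [Ideal.mem_bot]
      have h2 : y * x * (y * x) = 0 := by
        have := hcon y
        calc y * x * (y * x) = y * (x * y * x) := by simp only [mul_assoc]
          _ = 0 := by rw [this, mul_zero]
      calc (1 - y * x) * y * x + (1 - y * x) - 1 = -(y * x * (y * x)) := by noncomm_ring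
        _ = 0 := by rw [h2, neg_zero]
    rw [Ideal.jacobson_bot, hJ] at h1
    exact (Submodule.mem_bot A).1 h1
  obtain ⟨c, hc⟩ := hd (x * b) hb
  -- the annihilator
  have hann : ∀ a, a * x * (b * x) = 0 → a * x = 0 := by
    intro a ha
    by_contra hne
    obtain ⟨c', hc'⟩ := hd a hne
    apply hb
    calc x * b * x = c' * (a * x) * b * x := by rw [hc']
      _ = c' * (a * x * (b * x)) := by simp only [mul_assoc]
      _ = 0 := by rw [ha, mul_zero]
  have he : b * c * x * (b * x) = b * x := by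
    calc b * c * x * (b * x) = b * (c * (x * b * x)) := by simp only [mul_assoc]
      _ = b * x := by rw [hc]
  have hid : b * c * x * (b * c * x) = b * c * x := by
    have h1 : (b * c * x * (b * c) - b * c) * x * (b * x) = 0 := by
      calc (b * c * x * (b * c) - b * c) * x * (b * x) =
          b * c * x * (b * c * x * (b * x)) - b * c * x * (b * x) := by noncomm_ring
        _ = 0 := by rw [he, he, sub_self]
    have h2 := hann _ h1
    have h3 : b * c * x * (b * c * x) - b * c * x = (b * c * x * (b * c) - b * c) * x := by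
      noncomm_ring
    rw [← h3] at h2
    exact sub_eq_zero.1 h2
  have e1 : b * c * x = b * c * d * x₀ := by rw [hx]; simp only [mul_assoc]
  refine ⟨b * c * d, ?_, ?_, ?_⟩
  · rw [← e1]
    intro h
    rw [h, zero_mul] at he
    apply hb
    rw [mul_assoc, ← he, mul_zero]
  · rw [← e1]
    exact hid
  · rw [← e1]
    intro y hy
    have h1 : y * (b * c * x) = y * (b * c) * x := by simp only [mul_assoc]
    rw [h1] at hy ⊢
    obtain ⟨c1, hc1⟩ := hd _ hy
    refine ⟨b * c * c1, ?_⟩
    rw [mul_assoc (b * c), hc1]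

/-- sums of orthogonal minimal idempotents -/
private def RSS_P (e : A) : Prop := ∃ (m : ℕ) (h : Fin m → A), OrthogonalIdempotents h ∧
  (∀ i, RSS_Min (h i)) ∧ ∑ i, h i = e

private theorem RSS_P_idem {e : A} (he : RSS_P e) : e * e = e := by
  obtain ⟨m, h, ho, -, rfl⟩ := he
  exact ho.isIdempotentElem_sum

private theorem RSS_P_step {e g : A} (he : RSS_P e) (hg : RSS_Min g) (h1 : e * g = 0)
    (h2 : g * e = 0) : RSS_P (e + g) := by
  obtain ⟨m, h, ho, hm, rfl⟩ := he
  have hl : ∀ i, h i * ∑ j, h j = h i := fun i => ho.mul_sum_of_mem (Finset.mem_univ i)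
  have hr : ∀ i, (∑ j, h j) * h i = h i := by
    intro i
    rw [Finset.sum_mul, Finset.sum_eq_single i, ho.idem i]
    · intro j _ hji
      exact ho.ortho hji
    · intro hi
      exact absurd (Finset.mem_univ i) hi
  have h3 : ∀ i, h i * g = 0 := by
    intro i
    rw [← hl i, mul_assoc, h1, mul_zero]
  have h4 : ∀ i, g * h i = 0 := by
    intro i
    rw [← hr i, ← mul_assoc, h2, zero_mul]
  refine ⟨m + 1, Fin.snoc h g, ⟨?_, ?_⟩, ?_, ?_⟩
  · intro i
    refine Fin.lastCases ?_ (fun i => ?_) i
    · rw [Fin.snoc_last]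
      exact hg.2.1
    · rw [Fin.snoc_castSucc]
      exact ho.idem i
  · intro i j
    refine Fin.lastCases ?_ (fun i => ?_) i
    · refine Fin.lastCases ?_ (fun j => ?_) j
      · intro hij
        exact absurd rfl hij
      · intro _
        show (Fin.snoc h g : Fin (m + 1) → A) _ * (Fin.snoc h g : Fin (m + 1) → A) _ = 0
        rw [Fin.snoc_last, Fin.snoc_castSucc]
        exact h4 j
    · refine Fin.lastCases ?_ (fun j => ?_) j
      · intro _
        show (Fin.snoc h g : Fin (m + 1) → A) _ * (Fin.snoc h g : Fin (m + 1) → A) _ = 0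
        rw [Fin.snoc_last, Fin.snoc_castSucc]
        exact h3 i
      · intro hij
        show (Fin.snoc h g : Fin (m + 1) → A) _ * (Fin.snoc h g : Fin (m + 1) → A) _ = 0
        rw [Fin.snoc_castSucc, Fin.snoc_castSucc]
        exact ho.ortho fun hij' => hij (by rw [hij'])
  · intro i
    refine Fin.lastCases ?_ (fun i => ?_) i
    · rw [Fin.snoc_last]
      exact hg
    · rw [Fin.snoc_castSucc]
      exact hm i
  · rw [Fin.sum_univ_castSucc]
    simp only [Fin.snoc_castSucc, Fin.snoc_last]

private theorem RSS_P_next (hA : DCCR A) (hJ : Ring.jacobson A = ⊥) {e : A} (he : RSS_P e)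
    (h1 : e ≠ 1) : ∃ g, RSS_Min g ∧ e * g = 0 ∧ g * e = 0 := by
  have hid := RSS_P_idem he
  obtain ⟨a, hg0, hgg, hg⟩ := RSS_exists_min hA hJ (1 - e) (sub_ne_zero.2 (Ne.symm h1))
  set g := a * (1 - e) with hgdef
  have he1 : (1 - e) * (1 - e) = 1 - e := by
    calc (1 - e) * (1 - e) = 1 - e - e + e * e := by noncomm_ring
      _ = 1 - e := by rw [hid]; noncomm_ring
  have hg1 : g * (1 - e) = g := by rw [hgdef, mul_assoc, he1]
  have hge : g * e = 0 := by
    have : g - g * e = g := by
      calc g - g * e = g * (1 - e) := by noncomm_ring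
        _ = g := hg1
    exact sub_eq_self.1 this
  refine ⟨(1 - e) * g, ⟨?_, ?_, ?_⟩, ?_, ?_⟩
  · intro h
    apply hg0
    calc g = g * g := hgg.symm
      _ = g * (1 - e) * g := by rw [hg1]
      _ = g * ((1 - e) * g) := mul_assoc _ _ _
      _ = 0 := by rw [h, mul_zero]
  · calc (1 - e) * g * ((1 - e) * g) = (1 - e) * (g * (1 - e) * g) := by simp only [mul_assoc]
      _ = (1 - e) * g := by rw [hg1, hgg]
  · intro y hy
    rw [← mul_assoc] at hy
    obtain ⟨c, hc⟩ := hg _ hy
    refine ⟨(1 - e) * c, ?_⟩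
    calc (1 - e) * c * (y * ((1 - e) * g)) = (1 - e) * (c * (y * (1 - e) * g)) := by
          simp only [mul_assoc]
      _ = (1 - e) * g := by rw [hc]
  · calc e * ((1 - e) * g) = (e - e * e) * g := by noncomm_ring
      _ = 0 := by rw [hid, sub_self, zero_mul]
  · rw [mul_assoc, hge, mul_zero]

private theorem RSS_P_one (hA : DCCR A) (hJ : Ring.jacobson A = ⊥) : RSS_P (1 : A) := by
  by_contra hcon
  have hne : ∀ e : A, RSS_P e → e ≠ 1 := by
    rintro e he rfl
    exact hcon he
  choose G hG hG1 hG2 using fun (e : A) (he : RSS_P e) => RSS_P_next hA hJ he (hne e he)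
  have h0 : RSS_P (0 : A) := ⟨0, Fin.elim0, ⟨fun i => i.elim0, fun i => i.elim0⟩,
    fun i => i.elim0, by simp⟩
  let st : ℕ → {e : A // RSS_P e} := fun n => Nat.rec ⟨0, h0⟩
    (fun _ e => ⟨e.1 + G e.1 e.2, RSS_P_step e.2 (hG e.1 e.2) (hG1 e.1 e.2) (hG2 e.1 e.2)⟩) n
  let f : ℕ → A := fun n => 1 - G (st n).1 (st n).2
  have hst : ∀ n, prs f n = 1 - (st n).1 := by
    intro n
    induction n with
    | zero =>
      show (1 : A) = 1 - 0
      rw [sub_zero]
    | succ n ih =>
      show f n * prs f n = 1 - ((st n).1 + G (st n).1 (st n).2)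
      rw [ih]
      have h2 := hG2 (st n).1 (st n).2
      calc (1 - G (st n).1 (st n).2) * (1 - (st n).1) =
          1 - (st n).1 - G (st n).1 (st n).2 + G (st n).1 (st n).2 * (st n).1 := by noncomm_ring
        _ = 1 - ((st n).1 + G (st n).1 (st n).2) := by rw [h2]; noncomm_ring
  obtain ⟨j, c, hc⟩ := hA f
  rw [hst, hst] at hc
  have hid := RSS_P_idem (st (j + 1)).2
  have h1 : (1 - (st j).1) * (st (j + 1)).1 = 0 := by
    rw [hc, mul_assoc]
    have : (1 - (st (j + 1)).1) * (st (j + 1)).1 = 0 := by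
      rw [sub_mul, one_mul, hid, sub_self]
    rw [this, mul_zero]
  have hid' := RSS_P_idem (st j).2
  have h2 : (st (j + 1)).1 = (st j).1 + G (st j).1 (st j).2 := rfl
  apply (hG (st j).1 (st j).2).1
  rw [h2] at h1
  calc G (st j).1 (st j).2 = (1 - (st j).1) * ((st j).1 + G (st j).1 (st j).2) +
        (st j).1 * G (st j).1 (st j).2 + ((st j).1 * (st j).1 - (st j).1) := by noncomm_ring
    _ = 0 := by rw [h1, hG1, hid', sub_self, add_zero, add_zero]

end

/-- 5.2 (b) -/
theorem thm_RSS : St_RSS := by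
  intro L _ hL
  have hA : DCCR (L ⧸ Ring.jacobson L) := by
    intro f
    choose g hg using fun i => Ideal.Quotient.mk_surjective (f i)
    have h1 : ∀ n, Ideal.Quotient.mk (Ring.jacobson L) (prs g n) = prs f n := by
      intro n
      induction n with
      | zero => exact map_one _
      | succ n ih =>
        show Ideal.Quotient.mk (Ring.jacobson L) (g n * prs g n) = f n * prs f n
        rw [map_mul, ih, hg]
    obtain ⟨j, c, hc⟩ := hL g
    refine ⟨j, Ideal.Quotient.mk _ c, ?_⟩
    rw [← h1, ← h1, hc, map_mul]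
  have hJ : Ring.jacobson (L ⧸ Ring.jacobson L) = ⊥ := Ring.jacobson_quotient_jacobson L
  obtain ⟨m, h, ho, hm, hs⟩ := RSS_P_one hA hJ
  refine ⟨?_, m, h, ⟨ho, hs⟩, ?_⟩
  · refine IsSemisimpleModule.of_sSup_simples_eq_top ?_
    rw [eq_top_iff, ← Ideal.span_singleton_one]
    refine (Ideal.span_singleton_le_iff_mem _).2 ?_
    rw [← hs]
    refine Submodule.sum_mem _ fun i _ => ?_
    have hat : IsAtom (Ideal.span {h i}) := by
      refine ⟨?_, ?_⟩
      · rw [Ne, Ideal.span_singleton_eq_bot]
        exact (hm i).1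
      · intro b hb
        by_contra hne
        obtain ⟨z, hz, hz0⟩ := Submodule.exists_mem_ne_zero_of_ne_bot hne
        obtain ⟨a, rfl⟩ := Ideal.mem_span_singleton'.1 (hb.le hz)
        obtain ⟨c, hc⟩ := (hm i).2.2 a hz0
        have h1 : h i ∈ b := by
          rw [← hc]
          exact b.mul_mem_left c hz
        exact absurd ((Ideal.span_singleton_le_iff_mem _).2 h1) (not_le_of_gt hb)
    have h2 : Ideal.span {h i} ≤ sSup {m : Submodule (L ⧸ Ring.jacobson L) (L ⧸ Ring.jacobson L) |
        IsSimpleModule (L ⧸ Ring.jacobson L) m} :=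
      le_sSup (isSimpleModule_iff_isAtom.2 hat)
    exact h2 (Ideal.mem_span_singleton_self _)
  · intro i x hx hxe
    have h1 : x * h i = x := by
      conv_lhs => rw [hxe]
      rw [mul_assoc, ho.idem i, ← hxe]
    obtain ⟨c, hc⟩ := (hm i).2.2 x (by rw [h1]; exact hx)
    exact ⟨c, by rw [h1] at hc; exact hc⟩

end Pool.Agent.AVC
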