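import Pool.Agent.AVC.St

/-!
# MVC [RTN]: in a ring with the descending chain condition for principal left ideals the radical
is T-nilpotent (helper28)
-/

set_option autoImplicit false

namespace Pool.Agent.AVC

theorem thm_RTN : St_RTN := by
  intro L _ hL f hf
  obtain ⟨j, c, hc⟩ := hL f
  refine ⟨j, ?_⟩
  have h1 : f j ∈ Ideal.jacobson (⊥ : Ideal L) := by
    rw [Ideal.jacobson_bot]
    exact hf j
  obtain ⟨z, hz⟩ := Ideal.mem_jacobson_iff.1 h1 (-c)
  rw [Ideal.mem_bot] at hz
  have h2 : z * -c * f j + z = 1 := sub_eq_zero.1 hz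
  have h3 : prs f j = c * (f j * prs f j) := hc
  calc prs f j = 1 * prs f j := (one_mul _).symm
    _ = (z * -c * f j + z) * prs f j := by rw [h2]
    _ = z * (prs f j - c * (f j * prs f j)) := by noncomm_ring
    _ = z * (prs f j - prs f j) := by rw [← h3]
    _ = 0 := by rw [sub_self, mul_zero]

end Pool.Agent.AVC
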