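import Pool.Agent.AVC.Api3

/-!
# Vaught's conjecture for modules: statements, part 1 (honest modules, codings, rings)

The proofs are in the paper GC_VM_helper21.md (sections 1, 4, 5.2).
-/

set_option autoImplicit false
set_option linter.unusedSectionVars false
set_option linter.unusedVariables false

namespace Pool.Agent.AVC

open Set Ax

/-! ### Section 1: honest modules -/

/-- `θ` generates, together with `S`, the type of `b` over `g` -/
def Ax.Gen {R : Type} [RSig R] {ι κ : Type} (X : Ax R) (S : Set (PP R ι)) (N : Type)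
    [AddCommGroup N] [MoS R N] (g : ι → N) (b : κ → N) (θ : PP R (ι ⊕ κ)) : Prop :=
  Sat θ N (Sum.elim g b) ∧ ∀ ψ : PP R (ι ⊕ κ), Sat ψ N (Sum.elim g b) →
    ∃ s : Finset (PP R ι), ↑s ⊆ S ∧
      ∀ (M : Type) [AddCommGroup M] [MoS R M], X.In M → ∀ (x : ι → M) (y : κ → M),
        (∀ φ ∈ s, Sat φ M x) → Sat θ M (Sum.elim x y) → Sat ψ M (Sum.elim x y)

/-- 1.1 Existence of honest modules, for countably many variables. Henkin: variables
`ι ⊕ ℕ`, theories `Γ_m = ⟨S, θ_m(x, v_0..v_{m-1})⟩`, one task per stage; the module is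
`(ι ⊕ ℕ →₀ R)` modulo the linear equations which belong to some `Γ_m`. -/
def St_HEX : Prop := ∀ (R : Type) [RSig R] [Countable R] (X : Ax R) (ι : Type) [Countable ι]
  (S : Set (PP R ι)), ∃ (N : Md R) (g : ι → N), X.Honest S N g

/-- 1.2 Extension of maps. Enumerate `N`; the type of `(g, b, b')` is generated by `S` and one
formula `θ'(x, y, y')`, and `∃ y' θ'` follows from `S` and `θ`. (`M` need not be countable.) -/
def St_EXT : Prop := ∀ (R : Type) [RSig R] [Countable R] (X : Ax R) (ι : Type) [Countable ι]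
  (S : Set (PP R ι)) (N M : Md R) (g : ι → N) (a : ι → M) (k : ℕ) (b : Fin k → N)
  (c : Fin k → M) (θ : PP R (ι ⊕ Fin k)), X.Honest S N g → X.Gen S N g b θ → X.In M →
  Re S M a → Sat θ M (Sum.elim a c) → ∃ f : Hm R N M, (∀ i, f (g i) = a i) ∧ ∀ j, f (b j) = c j

/-- 1.2 without extra tuple -/
def St_EX0 : Prop := ∀ (R : Type) [RSig R] [Countable R] (X : Ax R) (ι : Type) [Countable ι]
  (S : Set (PP R ι)) (N M : Md R) (g : ι → N) (a : ι → M), X.Honest S N g → X.In M →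
  Re S M a → ∃ f : Hm R N M, ∀ i, f (g i) = a i

/-- 1.5 (first part) a map which kills the generators is null -/
def St_NUZ : Prop := ∀ (R : Type) [RSig R] [Countable R] (X : Ax R) (ι : Type) [Countable ι]
  (S : Set (PP R ι)) (N M : Md R) (g : ι → N) (u : Hm R N M), X.Honest S N g →
  (∀ i, u (g i) = 0) → X.Null u

/-- 1.5 (second part) a map which sends the generators into the principal part is null;
`χ[θ] = ∃ x (χ(x) & θ(x, y))` for the same `χ`. -/
def St_NUP : Prop := ∀ (R : Type) [RSig R] [Countable R] (X : Ax R) (ι : Type) [Finite ι]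
  (S : Set (PP R ι)) (N M : Md R) (g : ι → N) (u : Hm R N M), X.Honest S N g →
  X.P S M (u ∘ g) → X.Null u

/-- 1.6 all maps from or to atomic modules are null -/
def St_ATN : Prop := ∀ (R : Type) [RSig R] [Countable R] (X : Ax R) (N M : Md R)
  (u : Hm R N M), X.In N → X.In M → (X.Atomic N ∨ X.Atomic M) → X.Null u

/-- products of two honest modules are honest -/
def St_HPR : Prop := ∀ (R : Type) [RSig R] [Countable R] (X : Ax R) (ι κ : Type) [Countable ι]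
  [Countable κ] (S : Set (PP R ι)) (T : Set (PP R κ)) (N M : Md R) (g : ι → N) (h : κ → M),
  X.Honest S N g → X.Honest T M h →
  X.Honest (ren Sum.inl '' S ∪ ren Sum.inr '' T) (N × M)
    (Sum.elim (fun i => (g i, 0)) (fun j => (0, h j)))

/-- satisfaction in direct sums -/
def St_SDS : Prop := ∀ (R : Type) [RSig R] (ι A : Type) [DecidableEq A] (N : A → Md R)
  (φ : PP R ι) (x : ι → Π₀ a, N a), Sat φ (Π₀ a, N a) x ↔ ∀ a, Sat φ (N a) (fun i => x i a)

/-- direct sums of countably many honest modules are honest -/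
def St_HDS : Prop := ∀ (R : Type) [RSig R] [Countable R] (X : Ax R) (A : Type) [Countable A]
  [DecidableEq A] (ι : A → Type) [∀ a, Countable (ι a)] (S : ∀ a, Set (PP R (ι a)))
  (N : A → Md R) (g : ∀ a, ι a → N a), (∀ a, X.Honest (S a) (N a) (g a)) →
  X.Honest (⋃ a, ren (Sigma.mk a) '' S a) (Π₀ a, N a)
    (fun p : (a : A) × ι a => DFinsupp.single p.1 (g p.1 p.2))

/-- a compact module generates: `(N, g)` honest for `S`; the tuple `x` of `M` satisfies the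
level-one formula `∃ t V(x, t)` iff it is the image of the generic one -/
def St_L1N : Prop := ∀ (R : Type) [RSig R] [Countable R] (X : Ax R) (ι : Type) [Finite ι]
  (V : L1 R ι) (N M : Md R) (g : ι ⊕ Fin V.1 → N) (x : ι → M), X.Honest V.2 N g → X.In M →
  (Sat1 V M x ↔ ∃ f : Hm R N M, ∀ i, f (g (Sum.inl i)) = x i)

/-! ### Section 4: colimits and the coding modules -/

/-- iterated maps of a sequence of modules -/
def itr {R : Type} [RSig R] {G : ℕ → Md R} (t : ∀ k, Hm R (G k) (G (k + 1))) (k : ℕ) :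
    ∀ j : ℕ, Hm R (G k) (G (k + j))
  | 0 => Hm.id
  | j + 1 => Hm.comp (t (k + j)) (itr t k j)

/-- the composite from stage `0` -/
def cmp {R : Type} [RSig R] {G : ℕ → Md R} (t : ∀ k, Hm R (G k) (G (k + 1))) :
    ∀ j : ℕ, Hm R (G 0) (G j)
  | 0 => Hm.id
  | j + 1 => Hm.comp (t j) (cmp t j)

/-- `L` is the colimit of the sequence -/
structure IsColim {R : Type} [RSig R] {G : ℕ → Md R} (t : ∀ k, Hm R (G k) (G (k + 1))) (L : Md R)
    (of : ∀ k, Hm R (G k) L) : Prop where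
  comp : ∀ k x, of (k + 1) (t k x) = of k x
  surj : ∀ z : L, ∃ k x, of k x = z
  eq0 : ∀ k x, of k x = 0 → ∃ j, itr t k j x = 0
  prd : ∀ (i : RSig.Ix R) (k : ℕ) (x : Fin (RSig.ar i) → G k),
    (fun a => of k (x a)) ∈ MoS.P (R := R) (M := L) i →
      ∃ j, (fun a => itr t k j (x a)) ∈ MoS.P (R := R) (M := G (k + j)) i

/-- 4.0 colimits exist, positive primitive formulas are evaluated at finite stages -/
def St_COL : Prop := ∀ (R : Type) [RSig R] (G : ℕ → Md R) (t : ∀ k, Hm R (G k) (G (k + 1))),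
  ∃ (L : Md R) (of : ∀ k, Hm R (G k) L), IsColim t L of

/-- 4.0 (second part) -/
def St_COS : Prop := ∀ (R : Type) [RSig R] (G : ℕ → Md R) (t : ∀ k, Hm R (G k) (G (k + 1)))
  (L : Md R) (of : ∀ k, Hm R (G k) L), IsColim t L of →
  (∀ (ι : Type) [Finite ι] (φ : PP R ι) (k : ℕ) (x : ι → G k),
    Sat φ L (fun i => of k (x i)) ↔ ∃ j, Sat φ (G (k + j)) (fun i => itr t k j (x i))) ∧
  (∀ (ι : Type) [Finite ι] (z : ι → L), ∃ (k : ℕ) (x : ι → G k), ∀ i, of k (x i) = z i) ∧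
  (∀ X : Ax R, (∀ k, X.In (G k)) → X.In L) ∧
  ((∀ k, Countable (G k)) → Countable L)

/-- data of the coding: a module `M`, a sequence `Y k` with maps `a k`, countably many maps
`c k e : Y k → M` with `c k 0 = 0` -/
structure Sys (R : Type) [RSig R] where
  M : Md R
  Y : ℕ → Md R
  a : ∀ k, Hm R (Y k) (Y (k + 1))
  c : ∀ k, ℕ → (Hm R (Y k) M)
  c0 : ∀ k, c k 0 = 0

/-- the stages `M × Y k` -/
def Sys.G {R : Type} [RSig R] (D : Sys R) (k : ℕ) : Md R := ⟨D.M × D.Y k⟩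

/-- the transition `(u, v) ↦ (u + σ_k v, a_k v)` -/
def Sys.t {R : Type} [RSig R] (D : Sys R) (σ : ℕ → ℕ) (k : ℕ) : Hm R (D.G k) (D.G (k + 1)) :=
  Hm.prod (Hm.fst R D.M (D.Y k) + Hm.comp (D.c k (σ k)) (Hm.snd R D.M (D.Y k)))
    (Hm.comp (D.a k) (Hm.snd R D.M (D.Y k)))

/-- a choice of the coding modules `M_σ` -/
structure Sys.Lim {R : Type} [RSig R] (D : Sys R) where
  L : (ℕ → ℕ) → Md R
  of : ∀ σ k, Hm R (D.G k) (L σ)
  isColim : ∀ σ, IsColim (D.t σ) (L σ) (of σ)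

/-- the map of `M` into `M_σ` -/
def Sys.Lim.inM {R : Type} [RSig R] {D : Sys R} (Λ : D.Lim) (σ : ℕ → ℕ) : Hm R D.M (Λ.L σ) :=
  Hm.comp (Λ.of σ 0) (Hm.inl R D.M (D.Y 0))

/-- the map of `Y k` into `M_σ` -/
def Sys.Lim.inY {R : Type} [RSig R] {D : Sys R} (Λ : D.Lim) (σ : ℕ → ℕ) (k : ℕ) :
    Hm R (D.Y k) (Λ.L σ) := Hm.comp (Λ.of σ k) (Hm.inr R D.M (D.Y k))

/-- `z_k(σ)`: the part of the image of `Y 0` at stage `k` which lies in `M` -/
def Sys.z {R : Type} [RSig R] (D : Sys R) (σ : ℕ → ℕ) : ∀ k : ℕ, Hm R (D.Y 0) D.M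
  | 0 => 0
  | k + 1 => D.z σ k + Hm.comp (D.c k (σ k)) (cmp D.a k)

/-- 4.1 the image of `Y 0` at stage `k`; `z_k(σ)` depends only on `σ|k`; `M_σ` is a countable
member of the class -/
def St_MSG : Prop := ∀ (R : Type) [RSig R] (D : Sys R) (Λ : D.Lim),
  (∀ σ k y, Λ.inY σ 0 y = Λ.inM σ (D.z σ k y) + Λ.inY σ k (cmp D.a k y)) ∧
  (∀ σ σ' : ℕ → ℕ, ∀ k, (∀ i < k, σ i = σ' i) → D.z σ k = D.z σ' k) ∧
  (∀ X : Ax R, X.In D.M → (∀ k, X.In (D.Y k)) → ∀ σ, X.In (Λ.L σ)) ∧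
  (Countable D.M → (∀ k, Countable (D.Y k)) → ∀ σ, Countable (Λ.L σ))

/-- 4.2 (BP) -/
def St_BPL : Prop := ∀ (R : Type) [RSig R] [Countable R] (D : Sys R) (Λ : D.Lim),
  Countable D.M → (∀ k, Countable (D.Y k)) → ∀ (ι : Type) [Finite ι] (V : L1 R ι) (w : ι → D.M),
  ¬ IsMeagre {σ : ℕ → ℕ | Sat1 V (Λ.L σ) (fun i => Λ.inM σ (w i))} → Sat1 V D.M w

/-- the cylinder of the first `m` values of `s` -/
def cyl (s : ℕ → ℕ) (m : ℕ) : Set (ℕ → ℕ) := {σ | ∀ i < m, σ i = s i}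

/-- 4.3 (pigeonhole) -/
def St_PIG : Prop := ∀ (R : Type) [RSig R] [Countable R] (X : Ax R) (B : Md R), X.Few B →
  ∀ (D : Sys R) (Λ : D.Lim), Countable D.M → (∀ k, Countable (D.Y k)) → X.In D.M →
  (∀ k, X.In (D.Y k)) → ∀ (ι κ : Type) [Finite ι] [Finite κ] (x : ι → D.M) (y : κ → D.Y 0),
  ∃ (E : Set (ℕ → ℕ)) (s : ℕ → ℕ) (m : ℕ),
    (∀ σ ∈ E, ∀ σ' ∈ E, tp1 (R := R) (Λ.L σ)
        (Sum.elim (fun i => Λ.inM σ (x i)) (fun j => Λ.inY σ 0 (y j))) =
      tp1 (R := R) (Λ.L σ')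
        (Sum.elim (fun i => Λ.inM σ' (x i)) (fun j => Λ.inY σ' 0 (y j)))) ∧
    ∀ U : Set (ℕ → ℕ), IsOpen U → U.Nonempty → U ⊆ cyl s m → ¬ IsMeagre (E ∩ U)

/-- 4.4 (DCC) -/
def St_DCC : Prop := ∀ (R : Type) [RSig R] [Countable R] (X : Ax R) (B : Md R), X.Few B →
  ∀ (n : ℕ → ℕ) (S : ∀ k, Set (PP R (Fin (n k)))) (N : ℕ → Md R) (g : ∀ k, Fin (n k) → N k)
  (a : ∀ k, Hm R (N k) (N (k + 1))) (m : ℕ) (T : Set (PP R (Fin m))) (Q : Md R) (q : Fin m → Q),
  (∀ k, X.Honest (S k) (N k) (g k)) → X.Honest T Q q →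
  ∃ j₀, ∀ j ≥ j₀, ∀ c : Hm R (N j) Q, ∃ c' : Hm R (N (j + 1)) Q,
    X.Eqv (Hm.comp c (cmp a j)) (Hm.comp c' (cmp a (j + 1)))

/-- 4.5 (T1) -/
def St_TON : Prop := ∀ (R : Type) [RSig R] [Countable R] (X : Ax R) (B : Md R), X.Few B →
  ∀ (n : ℕ) (S : Set (PP R (Fin n))) (N : Md R) (g : Fin n → N) (W : ℕ → L1 R (Fin n)),
  X.Honest S N g → (∀ i, X.Le1 (W i) (ofRe S)) → (∀ i, ¬ Sat1 (W i) N g) →
  (∀ i, ∃ w : Fin n → N, Sat1 (W i) N w ∧ Re S N (g - w) ∧ ∀ l < i, Sat1 (W l) N (g - w)) → False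

/-- 4.6 (T1') no infinite coindependent family of proper level-one subgroups of `D` -/
def St_TOP : Prop := ∀ (R : Type) [RSig R] [Countable R] (X : Ax R) (B : Md R), X.Few B →
  ∀ (n : ℕ) (D : L1 R (Fin n)) (W : ℕ → L1 R (Fin n)), (∀ i, X.Le1 (W i) D) →
  (∀ i, ¬ X.Le1 D (W i)) →
  (∀ i, ∀ M : Md R, Countable M → X.In M → ∀ x : Fin n → M, Sat1 D M x →
    ∃ w : Fin n → M, Sat1 (W i) M w ∧ ∀ l < i, Sat1 (W l) M (x - w)) → False

/-! ### Section 5.2: rings -/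

/-- `f_{j-1} ... f_0` -/
def prs {L : Type} [Ring L] (f : ℕ → L) : ℕ → L
  | 0 => 1
  | j + 1 => f j * prs f j

/-- descending chain condition for principal left ideals -/
def DCCR (L : Type) [Ring L] : Prop := ∀ f : ℕ → L, ∃ j, ∃ c, prs f j = c * prs f (j + 1)

/-- 5.2 (a) the radical is T-nilpotent -/
def St_RTN : Prop := ∀ (L : Type) [Ring L], DCCR L → ∀ f : ℕ → L,
  (∀ i, f i ∈ Ring.jacobson L) → ∃ n, prs f n = 0

/-- 5.2 (b) `L / J` is semisimple; more precisely there is a finite family of orthogonal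
idempotents with sum one in `L / J` which generate minimal left ideals -/
def St_RSS : Prop := ∀ (L : Type) [Ring L], DCCR L →
  IsSemisimpleRing (L ⧸ Ring.jacobson L) ∧
  ∃ (m : ℕ) (e : Fin m → L ⧸ Ring.jacobson L), CompleteOrthogonalIdempotents e ∧
    ∀ i, ∀ x, x ≠ 0 → x = e i * x * e i → ∃ y, y * x = e i

/-- 5.2 (c) -/
def St_RID : Prop := ∀ (L : Type) [Ring L], DCCR L →
  ∃ (m : ℕ) (e : Fin m → L), CompleteOrthogonalIdempotents e ∧
    ∀ i, ∀ x, x = e i * x * e i →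
      (∃ y, y = e i * y * e i ∧ x * y = e i ∧ y * x = e i) ∨
      (∃ y, y = e i * y * e i ∧ (e i - x) * y = e i ∧ y * (e i - x) = e i)

/-- 5.2 (d) (Lemma R) a right module which is not finitely generated contains an infinite
irredundant family -/
def St_RLR : Prop := ∀ (L : Type) [Ring L], DCCR L → ∀ (T : Type 1) [AddCommGroup T]
  [Module Lᵐᵒᵖ T], ¬ Module.Finite Lᵐᵒᵖ T →
  ∃ m : ℕ → T, ∀ k, m k ∉ Submodule.span Lᵐᵒᵖ (m '' {j | j ≠ k})

/-! ### The level-one types are principal (UML) -/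

/-- 7.1 -/
def St_UML : Prop := ∀ (R : Type) [RSig R] [Countable R] (X : Ax R) (B : Md R), X.Few B →
  ∀ (M : Md R), Countable M → X.In M → ∀ (n : ℕ) (a : Fin n → M),
    ∃ V : L1 R (Fin n), X.Exact V M a

end Pool.Agent.AVC
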