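import Pool.Agent.AVC.St
import Pool.Agent.AVC.Defs2

/-!
# Vaught's conjecture for modules: statements, part 2 (limits, UML)

The proofs are in the paper GC_VM_helper21.md (sections 5.3, 6, 7).
-/

set_option autoImplicit false
set_option linter.unusedSectionVars false
set_option linter.unusedVariables false

namespace Pool.Agent.AVC

open Set Ax

/-! ### Section 5.3 -/

/-- the stable endomorphism ring of a compact module satisfies the chain condition (4.4 with all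
`p_k = q`, the maps `f_k` lifted to `End N`, `c = id`) -/
def St_END : Prop := ∀ (R : Type) [RSig R] [Countable R] (X : Ax R) (B : Md R), X.Few B →
  ∀ (n : ℕ) (S : Set (PP R (Fin n))) (N : Md R) (g : Fin n → N), X.Honest S N g → DCCR (X.Q N)

/-- finite type: one compact module `Y` such that every compact module is a stable retract of a
finite power of `Y` (sections 2, 5.1, 5.3; block of helper31) -/
def St_FT : Prop := ∀ (R : Type) [RSig R] [Countable R] (X : Ax R) (B : Md R), X.Few B →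
  ∃ (n : ℕ) (S : Set (PP R (Fin n))) (Y : Md R) (g : Fin n → Y), X.Honest S Y g ∧
    ∀ (m : ℕ) (T : Set (PP R (Fin m))) (Q : Md R) (q : Fin m → Q), X.Honest T Q q →
      ∃ r : ℕ, X.Retr Q (Fin r → Y)

/-! ### Section 6: reduced powers -/

/-- (0.1) satisfaction in the reduced power -/
def St_MIS : Prop := ∀ (R : Type) [RSig R] (M : Md R),
  (∀ (ι : Type) [Finite ι] (φ : PP R ι) (s : ι → ℕ → M),
    Sat φ (MI M) (fun i => MI.mk M (s i)) ↔ ∃ n, ∀ m ≥ n, Sat φ M (fun i => s i m)) ∧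
  ∀ X : Ax R, X.In M → X.In (MI M)

/-- (0.2) the map `sh - 1` is onto, its kernel consists of the constants -/
def St_MIK : Prop := ∀ (R : Type) [RSig R] (M : Md R),
  (∀ z : MI M, ∃ w : MI M, MI.sh M w - w = z) ∧
  ∀ z : MI M, MI.sh M z = z ↔ ∃ m : M, z = MI.cst M m

/-- (0.3) saturation, and the sequences which realise a set of formulas in the reduced power -/
def St_MIT : Prop := ∀ (R : Type) [RSig R] [Countable R] (M : Md R) (ι κ : Type) [Finite ι]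
  [Finite κ] (V : Set (PP R (ι ⊕ κ))) (a : ι → M),
  (∀ s : Finset (PP R (ι ⊕ κ)), ↑s ⊆ V → ∃ t : κ → M, ∀ φ ∈ s, Sat φ M (Sum.elim a t)) →
  ∃ T : κ → ℕ → M, Re V (MI M) (Sum.elim (fun i => MI.cst M (a i)) (fun k => MI.mk M (T k))) ∧
    ∀ φ ∈ V, ∃ n, ∀ m ≥ n, Sat φ M (Sum.elim a (fun k => T k m))

/-- 6.1 when a map represents zero -/
def St_EXZ : Prop := ∀ (R : Type) [RSig R] [Countable R] (X : Ax R) (k : ℕ)
  (S : Set (PP R (Fin k))) (N M : Md R) (g : Fin k → N) (f : Hm R N (MI M)), X.Honest S N g →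
  X.In M → (X.exMk N M f = 0 ↔ ∃ y : Fin k → MI M, Re S (MI M) y ∧
    ∀ i, f (g i) = MI.sh M (y i) - y i)

/-- 6.2 existence, uniqueness and vanishing of `δ_V(a)` -/
def St_DEL : Prop := ∀ (R : Type) [RSig R] [Countable R] (X : Ax R) (n k : ℕ)
  (S : Set (PP R (Fin n))) (V : Set (PP R (Fin n ⊕ Fin k))) (N M : Md R) (g : Fin k → N)
  (a : Fin n → M), X.Over S V → X.Honest (zer '' V) N g → X.In M → Re S M a →
  (∃ e, X.IsDel V N g M a e) ∧
  (∀ e e', X.IsDel V N g M a e → X.IsDel V N g M a e' → e = e') ∧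
  ∀ e, X.IsDel V N g M a e → (e = 0 ↔ Sat1 (⟨k, V⟩ : L1 R (Fin n)) M a)

/-- 6.3 restriction -/
def St_DRE : Prop := ∀ (R : Type) [RSig R] [Countable R] (X : Ax R) (n k k' : ℕ)
  (V : Set (PP R (Fin n ⊕ Fin k))) (V' : Set (PP R (Fin n ⊕ Fin k'))) (N N' : Md R)
  (g : Fin k → N) (g' : Fin k' → N') (f : Fin k → Fin k'),
  X.Honest (zer '' V) N g → X.Honest (zer '' V') N' g' →
  (∀ φ ∈ V, X.Ent V' (ren (Sum.map id f) φ)) →
  ∃ ρ : Hm R N N', (∀ i, ρ (g i) = g' (f i)) ∧ ∀ (M : Md R), X.In M → ∀ (a : Fin n → M)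
    (e' : X.ex N' M), X.IsDel V' N' g' M a e' → X.IsDel V N g M a (X.exMap ρ M e')

/-- 6.4 representation -/
def St_REP : Prop := ∀ (R : Type) [RSig R] [Countable R] (X : Ax R) (n k l : ℕ)
  (S : Set (PP R (Fin n))) (V : Set (PP R (Fin n ⊕ Fin k))) (N : Md R) (g : Fin k → N)
  (Z : Set (PP R (Fin l))) (Nz : Md R) (gz : Fin l → Nz) (v : Hm R Nz N),
  X.Over S V → X.Honest (zer '' V) N g → X.Honest Z Nz gz →
  ∃ (k' : ℕ) (V' : Set (PP R (Fin n ⊕ Fin k'))) (N' : Md R) (g' : Fin k' → N')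
    (i : Hm R Nz N') (j : Hm R N' Nz), X.Over S V' ∧ X.Honest (zer '' V') N' g' ∧
    X.Eqv (Hm.comp j i) Hm.id ∧ X.Eqv (Hm.comp i j) Hm.id ∧
    ∀ (M : Md R), X.In M → ∀ (a : Fin n → M), Re S M a → ∀ (e : X.ex N M) (e' : X.ex N' M),
      X.IsDel V N g M a e → X.IsDel V' N' g' M a e' → X.exMap v M e = X.exMap i M e'

/-- the amalgam of types over `S` -/
def amg {R : Type} [RSig R] {n : ℕ} {A : Type} (S : Set (PP R (Fin n))) (k : A → ℕ)
    (V : ∀ j, Set (PP R (Fin n ⊕ Fin (k j)))) : Set (PP R (Fin n ⊕ (j : A) × Fin (k j))) :=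
  ren Sum.inl '' S ∪ ⋃ j, ren (Sum.map id (Sigma.mk j)) '' V j

/-- the amalgam is a conservative extension -/
def St_AMT : Prop := ∀ (R : Type) [RSig R] [Countable R] (X : Ax R) (n : ℕ) (A : Type)
  [Countable A] (S : Set (PP R (Fin n))) (k : A → ℕ) (V : ∀ j, Set (PP R (Fin n ⊕ Fin (k j)))),
  (∀ j, X.Over S (V j)) → X.Over S (amg S k V)

/-- 6.5 honest amalgams -/
def St_AMG : Prop := ∀ (R : Type) [RSig R] [Countable R] (X : Ax R) (n : ℕ) (A : Type)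
  [Countable A] [DecidableEq A] (S : Set (PP R (Fin n))) (k : A → ℕ)
  (V : ∀ j, Set (PP R (Fin n ⊕ Fin (k j)))) (G : Md R) (g : Fin n ⊕ (j : A) × Fin (k j) → G)
  (Nq : A → Md R) (gq : ∀ j, Fin (k j) → Nq j) (l : ℕ) (W : Set (PP R (Fin n ⊕ Fin l)))
  (NW : Md R) (gW : Fin l → NW) (b : Fin l → G),
  (∀ j, X.Over S (V j)) → X.Honest (amg S k V) G g →
  (∀ j, X.Honest (zer '' V j) (Nq j) (gq j)) → X.Over S W → X.Honest (zer '' W) NW gW →
  Re W G (Sum.elim (fun i => g (Sum.inl i)) b) →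
  ∃ (F : Finset A) (μ : ∀ j, Hm R NW (Nq j)), ∀ (M : Md R), X.In M → ∀ (a : Fin n → M),
    Re S M a → ∀ (e : X.ex NW M) (ee : ∀ j, X.ex (Nq j) M), X.IsDel W NW gW M a e →
      (∀ j, X.IsDel (V j) (Nq j) (gq j) M a (ee j)) →
      e = ∑ j ∈ F, X.exMap (μ j) M (ee j)

/-! ### Section 7 -/

/-- 7.1 (i) -/
def St_UMI : Prop := ∀ (R : Type) [RSig R] [Countable R] (X : Ax R) (n k k' r : ℕ)
  (S : Set (PP R (Fin n))) (V : Set (PP R (Fin n ⊕ Fin k))) (V' : Set (PP R (Fin n ⊕ Fin k')))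
  (N N' Y : Md R) (g : Fin k → N) (g' : Fin k' → N'),
  X.Over S V → X.Over S V' → X.Honest (zer '' V) N g → X.Honest (zer '' V') N' g' →
  X.Retr N' (Fin r → Y) → X.DS S V' N' g' Y ≤ X.DS S V N g Y →
  ∀ (M : Md R), Countable M → X.In M → ∀ (a : Fin n → M), Re S M a →
    Sat1 (⟨k, V⟩ : L1 R (Fin n)) M a → Sat1 (⟨k', V'⟩ : L1 R (Fin n)) M a

/-- 7.1 (ii) -/
def St_UMJ : Prop := ∀ (R : Type) [RSig R] [Countable R] (X : Ax R) (B : Md R), X.Few B →
  ∀ (n l : ℕ) (S : Set (PP R (Fin n))) (Z : Set (PP R (Fin l))) (Y : Md R) (y : Fin l → Y)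
  (k : ℕ → ℕ) (V : ∀ j, Set (PP R (Fin n ⊕ Fin (k j)))) (N : ℕ → Md R)
  (g : ∀ j, Fin (k j) → N j) (m : ℕ → X.EE n Y), X.Honest Z Y y → (∀ j, X.Over S (V j)) →
  (∀ j, X.Honest (zer '' V j) (N j) (g j)) → (∀ j, m j ∈ X.DS S (V j) (N j) (g j) Y) →
  (∀ j, m j ∉ Submodule.span (X.Q Y)ᵐᵒᵖ (m '' {i | i ≠ j})) → False

end Pool.Agent.AVC
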