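import Pool.Agent.AVC.St3

/-!
# Vaught's conjecture for modules: the final statement

`St_RS2` contains the theorem and its second clause.
-/

set_option autoImplicit false
set_option linter.unusedSectionVars false
set_option linter.unusedVariables false

namespace Pool.Agent.AVC

open Set Ax FirstOrder

/-- `T` is a theory of `R`-modules -/
def ModTh {R : Type} [RSig R] (T : (LMod R).Theory) : Prop :=
  ∀ (M : Type) (S : (LMod R).Structure M), @FirstOrder.Language.Theory.Model (LMod R) M S T →
    IsMod S

/-- the models of `T` are closed under direct sums of two -/
def SumCl {R : Type} [RSig R] (T : (LMod R).Theory) : Prop :=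
  ∀ (M N : Type) [AddCommGroup M] [MoS R M] [AddCommGroup N] [MoS R N],
    Mods T M → Mods T N → Mods T (M × N)

/-- The final statement: if `T` is closed under sums, then `T` is perfectly many, or every theory all
of whose models are summands of models of `T` satisfies Vaught's conjecture. -/
def St_RS2 : Prop := ∀ (R : Type) [RSig R] [Countable R] (T : (LMod R).Theory), ModTh T →
  SumCl T → PerfMod T ∨ (CtblMod T ∧ ∀ T' : (LMod R).Theory, ModTh T' →
    (∀ (M : Type) [AddCommGroup M] [MoS R M], Mods T' M →
      ∃ (N : Type) (_ : AddCommGroup N) (_ : MoS R N), Mods T (M × N)) →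
    CtblMod T' ∨ PerfMod T')

end Pool.Agent.AVC
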